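import Mathlib

set_option autoImplicit false
open Set Filter Topology

namespace Pool.Agent.BG

/-- smooth partition of unity on `ℝ` subordinate to the unit lattice -/
noncomputable def chi (t : ℝ) : ℝ := Real.smoothTransition (t + 1) - Real.smoothTransition t

lemma chi_contDiff {n : ℕ∞} : ContDiff ℝ n chi := by
  unfold chi
  exact (Real.smoothTransition.contDiff.comp (by fun_prop)).sub Real.smoothTransition.contDiff

lemma chi_nonneg (t : ℝ) : 0 ≤ chi t := by
  unfold chi
  have := Real.smoothTransition.monotone (by linarith : t ≤ t + 1)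
  linarith

lemma chi_le_one (t : ℝ) : chi t ≤ 1 := by
  unfold chi
  have h1 := Real.smoothTransition.le_one (t + 1)
  have h2 := Real.smoothTransition.nonneg t
  linarith

lemma chi_zero {t : ℝ} (ht : 1 ≤ |t|) : chi t = 0 := by
  unfold chi
  rcases le_abs.1 ht with h | h
  · rw [Real.smoothTransition.one_of_one_le h, Real.smoothTransition.one_of_one_le (by linarith)]
    ring
  · rw [Real.smoothTransition.zero_of_nonpos (by linarith), Real.smoothTransition.zero_of_nonpos (by linarith)]
    ring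

lemma chi_compact : HasCompactSupport chi := by
  apply HasCompactSupport.intro (isCompact_Icc (a := (-1 : ℝ)) (b := 1))
  intro t ht
  apply chi_zero
  by_contra h
  push Not at h
  exact ht ⟨(abs_lt.1 h).1.le, (abs_lt.1 h).2.le⟩

noncomputable def chi1 : ℝ → ℝ := deriv chi
noncomputable def chi2 : ℝ → ℝ := deriv chi1

lemma chi_hasDeriv (t : ℝ) : HasDerivAt chi (chi1 t) t :=
  ((chi_contDiff (n := 1)).differentiable (by norm_num) t).hasDerivAt

lemma chi1_contDiff {n : ℕ} : ContDiff ℝ n chi1 := by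
  have h : ContDiff ℝ ((n : ℕ∞) + 1 : ℕ∞) chi := chi_contDiff
  have h2 : ContDiff ℝ ((n : WithTop ℕ∞) + 1) chi := by exact_mod_cast h
  have := (contDiff_succ_iff_deriv (n := (n : WithTop ℕ∞))).1 h2
  exact this.2.2

lemma chi2_contDiff {n : ℕ} : ContDiff ℝ n chi2 := by
  have h2 : ContDiff ℝ ((n : WithTop ℕ∞) + 1) chi1 := by
    have := chi1_contDiff (n := n + 1)
    exact_mod_cast this
  have := (contDiff_succ_iff_deriv (n := (n : WithTop ℕ∞))).1 h2
  exact this.2.2

lemma chi1_hasDeriv (t : ℝ) : HasDerivAt chi1 (chi2 t) t :=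
  ((chi1_contDiff (n := 1)).differentiable (by norm_num) t).hasDerivAt

lemma chi1_zero {t : ℝ} (ht : 1 ≤ |t|) : chi1 t = 0 := by
  -- outside `(-1,1)` the derivative vanishes (by continuity on the boundary)
  have hcont : Continuous chi1 := (chi1_contDiff (n := 0)).continuous
  have hout : ∀ u : ℝ, 1 < |u| → chi1 u = 0 := by
    intro u hu
    have : chi =ᶠ[𝓝 u] fun _ => 0 := by
      have ho : IsOpen {v : ℝ | 1 < |v|} := isOpen_lt continuous_const continuous_abs
      filter_upwards [ho.mem_nhds hu] with v hv using chi_zero (le_of_lt hv)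
    unfold chi1
    rw [this.deriv_eq]
    simp
  rcases ht.lt_or_eq with h | h
  · exact hout t h
  · have hc : t ∈ closure {v : ℝ | 1 < |v|} := by
      rcases eq_or_eq_neg_of_abs_eq h.symm with h1 | h1
      · rw [h1]
        apply closure_mono (s := Ioi (1:ℝ))
        · intro v hv; exact lt_of_lt_of_le hv (le_abs_self v)
        · rw [closure_Ioi]; exact self_mem_Ici
      · rw [h1]
        apply closure_mono (s := Iio (-1:ℝ))
        · intro v hv; exact lt_of_lt_of_le (by linarith [mem_Iio.1 hv] : 1 < -v) (neg_le_abs v)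
        · rw [closure_Iio]; exact self_mem_Iic
    have hcl : IsClosed {v : ℝ | chi1 v = 0} := isClosed_eq hcont continuous_const
    exact hcl.closure_subset_iff.2 hout hc

lemma chi2_zero {t : ℝ} (ht : 1 ≤ |t|) : chi2 t = 0 := by
  have hcont : Continuous chi2 := (chi2_contDiff (n := 0)).continuous
  have hout : ∀ u : ℝ, 1 < |u| → chi2 u = 0 := by
    intro u hu
    have : chi1 =ᶠ[𝓝 u] fun _ => 0 := by
      have ho : IsOpen {v : ℝ | 1 < |v|} := isOpen_lt continuous_const continuous_abs
      filter_upwards [ho.mem_nhds hu] with v hv using chi1_zero (le_of_lt hv)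
    unfold chi2
    rw [this.deriv_eq]
    simp
  rcases ht.lt_or_eq with h | h
  · exact hout t h
  · have hc : t ∈ closure {v : ℝ | 1 < |v|} := by
      rcases eq_or_eq_neg_of_abs_eq h.symm with h1 | h1
      · rw [h1]
        apply closure_mono (s := Ioi (1:ℝ))
        · intro v hv; exact lt_of_lt_of_le hv (le_abs_self v)
        · rw [closure_Ioi]; exact self_mem_Ici
      · rw [h1]
        apply closure_mono (s := Iio (-1:ℝ))
        · intro v hv; exact lt_of_lt_of_le (by linarith [mem_Iio.1 hv] : 1 < -v) (neg_le_abs v)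
        · rw [closure_Iio]; exact self_mem_Iic
    have hcl : IsClosed {v : ℝ | chi2 v = 0} := isClosed_eq hcont continuous_const
    exact hcl.closure_subset_iff.2 hout hc

lemma chi_bound : ∃ K : ℝ, 1 ≤ K ∧ (∀ t, |chi1 t| ≤ K) ∧ (∀ t, |chi2 t| ≤ K) := by
  have h1 : HasCompactSupport chi1 := by
    apply HasCompactSupport.intro (isCompact_Icc (a := (-1 : ℝ)) (b := 1))
    intro t ht
    apply chi1_zero
    by_contra h
    push Not at h
    exact ht ⟨(abs_lt.1 h).1.le, (abs_lt.1 h).2.le⟩
  have h2 : HasCompactSupport chi2 := by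
    apply HasCompactSupport.intro (isCompact_Icc (a := (-1 : ℝ)) (b := 1))
    intro t ht
    apply chi2_zero
    by_contra h
    push Not at h
    exact ht ⟨(abs_lt.1 h).1.le, (abs_lt.1 h).2.le⟩
  obtain ⟨K1, hK1⟩ := h1.exists_bound_of_continuous (chi1_contDiff (n := 0)).continuous
  obtain ⟨K2, hK2⟩ := h2.exists_bound_of_continuous (chi2_contDiff (n := 0)).continuous
  refine ⟨max 1 (max K1 K2), le_max_left _ _, fun t => ?_, fun t => ?_⟩
  · exact (hK1 t).trans ((le_max_left _ _).trans (le_max_right _ _))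
  · exact (hK2 t).trans ((le_max_right _ _).trans (le_max_right _ _))

/-- partition of unity -/
lemma chi_sum_nat (A : ℕ) (t : ℝ) :
    ∑ l ∈ Finset.Icc (-(A:ℤ)) A, chi (t - l) =
      Real.smoothTransition (t + A + 1) - Real.smoothTransition (t - A) := by
  induction A with
  | zero => simp [chi]
  | succ A ih =>
    have h1 : Finset.Icc (-((A + 1 : ℕ) : ℤ)) ((A + 1 : ℕ) : ℤ)
        = insert (-((A:ℤ) + 1)) (insert ((A:ℤ) + 1) (Finset.Icc (-(A:ℤ)) A)) := by
      ext x
      simp only [Finset.mem_Icc, Finset.mem_insert]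
      push_cast
      omega
    rw [h1, Finset.sum_insert, Finset.sum_insert, ih]
    · unfold chi
      push_cast
      have e1 : t - (-(↑A + 1)) + 1 = t + (↑A + 1) + 1 := by ring
      have e2 : t - (-(↑A + 1)) = t + ↑A + 1 := by ring
      have e3 : t - (↑A + 1) + 1 = t - ↑A := by ring
      rw [e1, e2, e3]
      ring
    · simp only [Finset.mem_Icc]; omega
    · simp only [Finset.mem_Icc, Finset.mem_insert]; omega

lemma chi_sum_eq_one (A : ℕ) {t : ℝ} (ht : |t| ≤ A) :
    ∑ l ∈ Finset.Icc (-(A:ℤ)) A, chi (t - l) = 1 := by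
  rw [chi_sum_nat]
  have := abs_le.1 ht
  rw [Real.smoothTransition.one_of_one_le (by linarith), Real.smoothTransition.zero_of_nonpos (by linarith)]
  ring

lemma chi_sum_le_one (A : ℕ) (t : ℝ) :
    ∑ l ∈ Finset.Icc (-(A:ℤ)) A, chi (t - l) ≤ 1 := by
  rw [chi_sum_nat]
  have h1 := Real.smoothTransition.le_one (t + A + 1)
  have h2 := Real.smoothTransition.nonneg (t - A)
  linarith

/-- at most two terms are nonzero -/
lemma sum_two_le (S : Finset ℤ) (h : ℝ → ℝ) (H : ℝ) (hH : 0 ≤ H) (h1 : ∀ t, h t ≤ H)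
    (h0 : ∀ t, 1 ≤ |t| → h t = 0) (t : ℝ) : ∑ l ∈ S, h (t - l) ≤ 2 * H := by
  classical
  have h2 : ∑ l ∈ S, h (t - l) ≤ ∑ l ∈ S, if l ∈ ({⌊t⌋, ⌊t⌋ + 1} : Finset ℤ) then H else 0 := by
    apply Finset.sum_le_sum
    intro l _
    split_ifs with hl
    · exact h1 _
    · apply le_of_eq
      apply h0
      by_contra hlt
      push Not at hlt
      apply hl
      have h3 := abs_lt.1 hlt
      have h4 := Int.floor_le t
      have h5 := Int.lt_floor_add_one t
      have h6 : (l : ℝ) < ((⌊t⌋ + 2 : ℤ) : ℝ) := by push_cast; linarith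
      have h7 : ((⌊t⌋ - 1 : ℤ) : ℝ) < (l : ℝ) := by push_cast; linarith
      have h8 := Int.cast_lt.1 h6
      have h9 := Int.cast_lt.1 h7
      simp only [Finset.mem_insert, Finset.mem_singleton]
      omega
  refine h2.trans ?_
  rw [← Finset.sum_filter, Finset.sum_const, nsmul_eq_mul]
  have hc : ((S.filter (fun l => l ∈ ({⌊t⌋, ⌊t⌋ + 1} : Finset ℤ))).card : ℝ) ≤ 2 := by
    have : (S.filter (fun l => l ∈ ({⌊t⌋, ⌊t⌋ + 1} : Finset ℤ))).card ≤ ({⌊t⌋, ⌊t⌋ + 1} : Finset ℤ).card := by
      apply Finset.card_le_card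
      intro l hl
      exact (Finset.mem_filter.1 hl).2
    have h3 : ({⌊t⌋, ⌊t⌋ + 1} : Finset ℤ).card ≤ 2 := Finset.card_le_two
    exact_mod_cast this.trans h3
  gcongr

lemma sum_range_mul' {E : Type*} [AddCommMonoid E] (f : ℕ → E) (A N : ℕ) :
    ∑ e ∈ Finset.range (A * N), f e = ∑ q ∈ Finset.range A, ∑ i ∈ Finset.range N, f (N * q + i) := by
  induction A with
  | zero => simp
  | succ A ih =>
    rw [Nat.succ_mul, Finset.sum_range_add, ih, Finset.sum_range_succ, Nat.mul_comm A N]

end Pool.Agent.BG
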