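import Mathlib
import Pool.Agent.Lib.MP_f76209_pr.Chi

set_option autoImplicit false
open Set Filter Topology

namespace Pool.Agent.BG

/-- the choice of eight children of the interval `j` of generation `n` for the level `l` -/
structure Choice (M : ℕ) where
  Ch : ℕ → ℕ → ℤ → Finset ℕ
  card : ∀ n j l, (Ch n j l).card = 8
  lt : ∀ n j l, ∀ i ∈ Ch n j l, i < M ^ 2

variable {M : ℕ} (c : Choice M) (r₀ : ℝ)

/-- levels per unit length in generation `n` -/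
noncomputable def kap (M : ℕ) (r₀ : ℝ) (n : ℕ) : ℝ := (M : ℝ) ^ n / r₀

noncomputable def wsum (h : ℝ → ℝ) (n j : ℕ) (a : ℝ) : ℝ :=
  ∑ l ∈ Finset.Icc (-((M ^ (n + 1) : ℕ) : ℤ)) ((M ^ (n + 1) : ℕ) : ℤ),
    if j % M ^ 2 ∈ c.Ch n (j / M ^ 2) l then h (kap M r₀ (n + 1) * a - l) else 0

/-- weight of the interval `j` of generation `n + 1` -/
noncomputable def wt (n j : ℕ) (a : ℝ) : ℝ := 1 / 8 * wsum c r₀ chi n j a
noncomputable def wt1 (n j : ℕ) (a : ℝ) : ℝ := 1 / 8 * (kap M r₀ (n + 1) * wsum c r₀ chi1 n j a)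
noncomputable def wt2 (n j : ℕ) (a : ℝ) : ℝ :=
  1 / 8 * (kap M r₀ (n + 1) ^ 2 * wsum c r₀ chi2 n j a)

noncomputable def rho : ℕ → ℕ → ℝ → ℝ
  | 0, _, a => chi (kap M r₀ 0 * a)
  | n + 1, j, a => rho n (j / M ^ 2) a * wt c r₀ n j a

noncomputable def rho1 : ℕ → ℕ → ℝ → ℝ
  | 0, _, a => kap M r₀ 0 * chi1 (kap M r₀ 0 * a)
  | n + 1, j, a => rho1 n (j / M ^ 2) a * wt c r₀ n j a + rho c r₀ n (j / M ^ 2) a * wt1 c r₀ n j a

noncomputable def rho2 : ℕ → ℕ → ℝ → ℝ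
  | 0, _, a => kap M r₀ 0 ^ 2 * chi2 (kap M r₀ 0 * a)
  | n + 1, j, a => rho2 n (j / M ^ 2) a * wt c r₀ n j a
      + 2 * (rho1 c r₀ n (j / M ^ 2) a * wt1 c r₀ n j a) + rho c r₀ n (j / M ^ 2) a * wt2 c r₀ n j a

lemma wt_hasDeriv (n j : ℕ) (a : ℝ) : HasDerivAt (wt c r₀ n j) (wt1 c r₀ n j a) a := by
  unfold wt wt1
  apply HasDerivAt.const_mul
  unfold wsum
  rw [Finset.mul_sum]
  apply HasDerivAt.fun_sum
  intro l _
  split_ifs
  · have h1 : HasDerivAt (fun a : ℝ => kap M r₀ (n + 1) * a - (l : ℝ)) (kap M r₀ (n + 1)) a := by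
      simpa using ((hasDerivAt_id a).const_mul (kap M r₀ (n + 1))).sub_const (l : ℝ)
    have := (chi_hasDeriv (kap M r₀ (n + 1) * a - l)).comp a h1
    rw [mul_comm] at this
    exact this
  · simpa using hasDerivAt_const a (0:ℝ)

lemma wt1_hasDeriv (n j : ℕ) (a : ℝ) : HasDerivAt (wt1 c r₀ n j) (wt2 c r₀ n j a) a := by
  unfold wt1 wt2
  apply HasDerivAt.const_mul
  rw [pow_two, mul_assoc]
  apply HasDerivAt.const_mul
  unfold wsum
  rw [Finset.mul_sum]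
  apply HasDerivAt.fun_sum
  intro l _
  split_ifs
  · have h1 : HasDerivAt (fun a : ℝ => kap M r₀ (n + 1) * a - (l : ℝ)) (kap M r₀ (n + 1)) a := by
      simpa using ((hasDerivAt_id a).const_mul (kap M r₀ (n + 1))).sub_const (l : ℝ)
    have := (chi1_hasDeriv (kap M r₀ (n + 1) * a - l)).comp a h1
    rw [mul_comm] at this
    exact this
  · simpa using hasDerivAt_const a (0:ℝ)

lemma rho_hasDeriv (n j : ℕ) (a : ℝ) : HasDerivAt (rho c r₀ n j) (rho1 c r₀ n j a) a := by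
  induction n generalizing j with
  | zero =>
    have h1 : HasDerivAt (fun a : ℝ => kap M r₀ 0 * a) (kap M r₀ 0) a := by
      simpa using (hasDerivAt_id a).const_mul (kap M r₀ 0)
    have := (chi_hasDeriv (kap M r₀ 0 * a)).comp a h1
    rw [mul_comm] at this
    exact this
  | succ n ih => exact (ih (j / M ^ 2)).mul (wt_hasDeriv c r₀ n j a)

lemma rho1_hasDeriv (n j : ℕ) (a : ℝ) : HasDerivAt (rho1 c r₀ n j) (rho2 c r₀ n j a) a := by
  induction n generalizing j with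
  | zero =>
    have h1 : HasDerivAt (fun a : ℝ => kap M r₀ 0 * a) (kap M r₀ 0) a := by
      simpa using (hasDerivAt_id a).const_mul (kap M r₀ 0)
    have := ((chi1_hasDeriv (kap M r₀ 0 * a)).comp a h1).const_mul (kap M r₀ 0)
    have h2 : kap M r₀ 0 * (chi2 (kap M r₀ 0 * a) * kap M r₀ 0) = rho2 c r₀ 0 j a := by
      unfold rho2; ring
    rw [h2] at this
    exact this
  | succ n ih =>
    have h1 := (ih (j / M ^ 2)).mul (wt_hasDeriv c r₀ n j a)
    have h2 := (rho_hasDeriv c r₀ n (j / M ^ 2) a).mul (wt1_hasDeriv c r₀ n j a)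
    have h3 := h1.add h2
    have h4 : rho2 c r₀ n (j / M ^ 2) a * wt c r₀ n j a + rho1 c r₀ n (j / M ^ 2) a * wt1 c r₀ n j a +
        (rho1 c r₀ n (j / M ^ 2) a * wt1 c r₀ n j a + rho c r₀ n (j / M ^ 2) a * wt2 c r₀ n j a)
        = rho2 c r₀ (n + 1) j a := by
      simp only [rho2]; ring
    rw [h4] at h3
    exact h3

lemma wsum_nonneg (n j : ℕ) (a : ℝ) (h : ℝ → ℝ) (hh : ∀ t, 0 ≤ h t) : 0 ≤ wsum c r₀ h n j a := by
  unfold wsum
  apply Finset.sum_nonneg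
  intro l _
  split_ifs
  · exact hh _
  · exact le_rfl

lemma wsum_abs_le (n j : ℕ) (a : ℝ) (h : ℝ → ℝ) :
    |wsum c r₀ h n j a| ≤ wsum c r₀ (fun t => |h t|) n j a := by
  unfold wsum
  refine (Finset.abs_sum_le_sum_abs _ _).trans (le_of_eq ?_)
  apply Finset.sum_congr rfl
  intro l _
  split_ifs <;> simp

lemma wsum_le (n j : ℕ) (a : ℝ) (h : ℝ → ℝ) (hh : ∀ t, 0 ≤ h t) :
    wsum c r₀ h n j a ≤ ∑ l ∈ Finset.Icc (-((M ^ (n + 1) : ℕ) : ℤ)) ((M ^ (n + 1) : ℕ) : ℤ),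
      h (kap M r₀ (n + 1) * a - l) := by
  unfold wsum
  apply Finset.sum_le_sum
  intro l _
  split_ifs
  · exact le_rfl
  · exact hh _

/-- sum over the children -/
lemma wsum_children (n j : ℕ) (a : ℝ) (h : ℝ → ℝ) (hM : 0 < M) :
    ∑ i ∈ Finset.range (M ^ 2), wsum c r₀ h n (M ^ 2 * j + i) a =
      8 * ∑ l ∈ Finset.Icc (-((M ^ (n + 1) : ℕ) : ℤ)) ((M ^ (n + 1) : ℕ) : ℤ),
        h (kap M r₀ (n + 1) * a - l) := by
  unfold wsum
  rw [Finset.sum_comm, Finset.mul_sum]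
  apply Finset.sum_congr rfl
  intro l _
  have hN : 0 < M ^ 2 := by positivity
  have h1 : ∀ i ∈ Finset.range (M ^ 2),
      (if (M ^ 2 * j + i) % M ^ 2 ∈ c.Ch n ((M ^ 2 * j + i) / M ^ 2) l
        then h (kap M r₀ (n + 1) * a - l) else 0)
      = if i ∈ c.Ch n j l then h (kap M r₀ (n + 1) * a - l) else 0 := by
    intro i hi
    have hi' := Finset.mem_range.1 hi
    rw [Nat.mul_add_mod, Nat.mod_eq_of_lt hi', Nat.mul_add_div hN, Nat.div_eq_of_lt hi', add_zero]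
  rw [Finset.sum_congr rfl h1, ← Finset.sum_filter, Finset.sum_const, nsmul_eq_mul]
  have h2 : (Finset.range (M ^ 2)).filter (fun i => i ∈ c.Ch n j l) = c.Ch n j l := by
    ext i
    simp only [Finset.mem_filter, Finset.mem_range, and_iff_right_iff_imp]
    exact c.lt n j l i
  rw [h2, c.card]
  norm_num

lemma rho_nonneg (n j : ℕ) (a : ℝ) : 0 ≤ rho c r₀ n j a := by
  induction n generalizing j with
  | zero => exact chi_nonneg _
  | succ n ih =>
    apply mul_nonneg (ih _)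
    unfold wt
    have := wsum_nonneg c r₀ n j a chi chi_nonneg
    positivity

lemma rho_zero_of_le (hr : 0 < r₀) (n j : ℕ) {a : ℝ} (ha : r₀ ≤ |a|) : rho c r₀ n j a = 0 := by
  induction n generalizing j with
  | zero =>
    apply chi_zero
    unfold kap
    rw [abs_mul, abs_of_pos (by positivity)]
    rw [pow_zero, one_div, inv_mul_eq_div, le_div_iff₀ hr]
    linarith
  | succ n ih => simp only [rho, ih, zero_mul]

lemma wt_nonneg (n j : ℕ) (a : ℝ) : 0 ≤ wt c r₀ n j a := by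
  unfold wt
  have := wsum_nonneg c r₀ n j a chi chi_nonneg
  positivity

lemma wt_le (n j : ℕ) (a : ℝ) : wt c r₀ n j a ≤ 1 / 8 := by
  unfold wt
  have h1 := wsum_le c r₀ n j a chi chi_nonneg
  have h2 := chi_sum_le_one (M ^ (n + 1)) (kap M r₀ (n + 1) * a)
  linarith

/-- (F2) conservation -/
lemma rho_children (hM : 0 < M) (hr : 0 < r₀) (n j : ℕ) (a : ℝ) :
    ∑ i ∈ Finset.range (M ^ 2), rho c r₀ (n + 1) (M ^ 2 * j + i) a = rho c r₀ n j a := by
  have hN : 0 < M ^ 2 := by positivity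
  by_cases ha : r₀ ≤ |a|
  · rw [rho_zero_of_le c r₀ hr n j ha]
    apply Finset.sum_eq_zero
    intro i _
    exact rho_zero_of_le c r₀ hr _ _ ha
  · push Not at ha
    have h1 : ∀ i ∈ Finset.range (M ^ 2), rho c r₀ (n + 1) (M ^ 2 * j + i) a
        = rho c r₀ n j a * (1 / 8) * wsum c r₀ chi n (M ^ 2 * j + i) a := by
      intro i hi
      have hi' := Finset.mem_range.1 hi
      simp only [rho, wt]
      rw [Nat.mul_add_div hN, Nat.div_eq_of_lt hi', add_zero]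
      ring
    rw [Finset.sum_congr rfl h1, ← Finset.mul_sum, wsum_children c r₀ n j a chi hM,
      chi_sum_eq_one]
    · ring
    · unfold kap
      rw [abs_mul, abs_of_pos (by positivity)]
      push_cast
      rw [div_mul_eq_mul_div, div_le_iff₀ hr]
      gcongr

lemma wsum_children_abs_le (n j : ℕ) (a : ℝ) (h : ℝ → ℝ) (hM : 0 < M) (K : ℝ) (hK : 0 ≤ K)
    (h1 : ∀ t, |h t| ≤ K) (h0 : ∀ t, 1 ≤ |t| → h t = 0) :
    ∑ i ∈ Finset.range (M ^ 2), |wsum c r₀ h n (M ^ 2 * j + i) a| ≤ 16 * K := by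
  calc ∑ i ∈ Finset.range (M ^ 2), |wsum c r₀ h n (M ^ 2 * j + i) a|
      ≤ ∑ i ∈ Finset.range (M ^ 2), wsum c r₀ (fun t => |h t|) n (M ^ 2 * j + i) a :=
        Finset.sum_le_sum fun i _ => wsum_abs_le c r₀ n _ a h
    _ = 8 * ∑ l ∈ Finset.Icc (-((M ^ (n + 1) : ℕ) : ℤ)) ((M ^ (n + 1) : ℕ) : ℤ),
        |h (kap M r₀ (n + 1) * a - l)| := wsum_children c r₀ n j a _ hM
    _ ≤ 8 * (2 * K) := by
        gcongr
        exact sum_two_le _ (fun t => |h t|) K hK h1 (fun t ht => by rw [h0 t ht, abs_zero]) _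
    _ = 16 * K := by ring

lemma wsum_single_abs_le (n j : ℕ) (a : ℝ) (h : ℝ → ℝ) (K : ℝ) (hK : 0 ≤ K)
    (h1 : ∀ t, |h t| ≤ K) (h0 : ∀ t, 1 ≤ |t| → h t = 0) :
    |wsum c r₀ h n j a| ≤ 2 * K := by
  calc |wsum c r₀ h n j a| ≤ wsum c r₀ (fun t => |h t|) n j a := wsum_abs_le c r₀ n _ a h
    _ ≤ ∑ l ∈ Finset.Icc (-((M ^ (n + 1) : ℕ) : ℤ)) ((M ^ (n + 1) : ℕ) : ℤ),
        |h (kap M r₀ (n + 1) * a - l)| := wsum_le c r₀ n j a _ (fun t => abs_nonneg _)
    _ ≤ 2 * K := sum_two_le _ (fun t => |h t|) K hK h1 (fun t ht => by rw [h0 t ht, abs_zero]) _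

lemma kap_pos (hM : 0 < M) (hr : 0 < r₀) (n : ℕ) : 0 < kap M r₀ n := by
  unfold kap; positivity

lemma kap_succ (n : ℕ) : kap M r₀ (n + 1) = M * kap M r₀ n := by
  unfold kap; rw [pow_succ]; ring

/-- descendants' sum -/
noncomputable def dsum (N m : ℕ) (g : ℕ → ℝ) (q : ℕ) : ℝ :=
  ∑ e ∈ Finset.range (N ^ m), g (N ^ m * q + e)

lemma dsum_zero (N : ℕ) (g : ℕ → ℝ) (q : ℕ) : dsum N 0 g q = g q := by
  simp [dsum]

lemma dsum_succ (N m : ℕ) (g : ℕ → ℝ) (q : ℕ) :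
    dsum N (m + 1) g q = dsum N m (fun j => ∑ i ∈ Finset.range N, g (N * j + i)) q := by
  unfold dsum
  rw [pow_succ, sum_range_mul']
  apply Finset.sum_congr rfl
  intro e _
  apply Finset.sum_congr rfl
  intro i _
  congr 1
  ring

lemma dsum_mono (N m : ℕ) {g h : ℕ → ℝ} (hgh : ∀ j, g j ≤ h j) (q : ℕ) :
    dsum N m g q ≤ dsum N m h q := Finset.sum_le_sum fun _ _ => hgh _

lemma dsum_add (N m : ℕ) (g h : ℕ → ℝ) (q : ℕ) :
    dsum N m (fun j => g j + h j) q = dsum N m g q + dsum N m h q := Finset.sum_add_distrib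

lemma dsum_const_mul (N m : ℕ) (b : ℝ) (g : ℕ → ℝ) (q : ℕ) :
    dsum N m (fun j => b * g j) q = b * dsum N m g q := by
  unfold dsum; rw [Finset.mul_sum]

section bounds

variable {K : ℝ} (hM : 2 ≤ M) (hr : 0 < r₀) (hK1 : 1 ≤ K) (h1 : ∀ t, |chi1 t| ≤ K)
  (h2 : ∀ t, |chi2 t| ≤ K)

include hM hr

/-- (F2) for descendants -/
lemma rho_desc (i m q : ℕ) (a : ℝ) :
    dsum (M ^ 2) m (fun j => rho c r₀ (i + m) j a) q = rho c r₀ i q a := by
  induction m with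
  | zero => rw [dsum_zero]; rfl
  | succ m ih =>
    rw [dsum_succ, ← ih]
    congr 1
    ext j
    exact rho_children c r₀ (by omega) hr (i + m) j a

include hK1 h1 in
lemma rho1_children (n j : ℕ) (a : ℝ) :
    ∑ i ∈ Finset.range (M ^ 2), |rho1 c r₀ (n + 1) (M ^ 2 * j + i) a| ≤
      |rho1 c r₀ n j a| + 2 * K * kap M r₀ (n + 1) * rho c r₀ n j a := by
  have hM0 : 0 < M := by omega
  have hN : 0 < M ^ 2 := by positivity
  have hk := kap_pos (M := M) r₀ hM0 hr (n + 1)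
  have hrn := rho_nonneg c r₀ n j a
  have e1 : ∀ i ∈ Finset.range (M ^ 2), |rho1 c r₀ (n + 1) (M ^ 2 * j + i) a|
      ≤ |rho1 c r₀ n j a| * (1 / 8) * wsum c r₀ chi n (M ^ 2 * j + i) a
        + rho c r₀ n j a * (1 / 8) * kap M r₀ (n + 1) * |wsum c r₀ chi1 n (M ^ 2 * j + i) a| := by
    intro i hi
    have hi' := Finset.mem_range.1 hi
    simp only [rho1, wt, wt1]
    rw [Nat.mul_add_div hN, Nat.div_eq_of_lt hi', add_zero]
    refine (abs_add_le _ _).trans ?_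
    have hw := wsum_nonneg c r₀ n (M ^ 2 * j + i) a chi chi_nonneg
    rw [abs_mul, abs_mul, abs_mul, abs_mul, abs_mul, abs_of_nonneg hw, abs_of_nonneg hrn,
      abs_of_pos hk, abs_of_pos (by norm_num : (0:ℝ) < 1/8)]
    apply le_of_eq; ring
  refine (Finset.sum_le_sum e1).trans ?_
  rw [Finset.sum_add_distrib, ← Finset.mul_sum, ← Finset.mul_sum, wsum_children c r₀ n j a chi hM0]
  have e2 := chi_sum_le_one (M ^ (n + 1)) (kap M r₀ (n + 1) * a)
  have e3 := wsum_children_abs_le c r₀ n j a chi1 hM0 K (by linarith) h1 (fun t ht => chi1_zero ht)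
  have e4 : |rho1 c r₀ n j a| * (1 / 8) * (8 * ∑ l ∈ Finset.Icc (-((M ^ (n + 1) : ℕ) : ℤ)) ((M ^ (n + 1) : ℕ) : ℤ),
      chi (kap M r₀ (n + 1) * a - l)) ≤ |rho1 c r₀ n j a| * (1 / 8) * (8 * 1) := by
    gcongr
  have e5 : rho c r₀ n j a * (1 / 8) * kap M r₀ (n + 1) * ∑ i ∈ Finset.range (M ^ 2), |wsum c r₀ chi1 n (M ^ 2 * j + i) a|
      ≤ rho c r₀ n j a * (1 / 8) * kap M r₀ (n + 1) * (16 * K) := by
    gcongr
  refine (add_le_add e4 e5).trans (le_of_eq ?_)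
  ring

include hK1 h1 h2 in
lemma rho2_children (n j : ℕ) (a : ℝ) :
    ∑ i ∈ Finset.range (M ^ 2), |rho2 c r₀ (n + 1) (M ^ 2 * j + i) a| ≤
      |rho2 c r₀ n j a| + 4 * K * kap M r₀ (n + 1) * |rho1 c r₀ n j a|
        + 2 * K * kap M r₀ (n + 1) ^ 2 * rho c r₀ n j a := by
  have hM0 : 0 < M := by omega
  have hN : 0 < M ^ 2 := by positivity
  have hk := kap_pos (M := M) r₀ hM0 hr (n + 1)
  have hrn := rho_nonneg c r₀ n j a
  have e1 : ∀ i ∈ Finset.range (M ^ 2), |rho2 c r₀ (n + 1) (M ^ 2 * j + i) a|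
      ≤ |rho2 c r₀ n j a| * (1 / 8) * wsum c r₀ chi n (M ^ 2 * j + i) a
        + |rho1 c r₀ n j a| * (1 / 4) * kap M r₀ (n + 1) * |wsum c r₀ chi1 n (M ^ 2 * j + i) a|
        + rho c r₀ n j a * (1 / 8) * kap M r₀ (n + 1) ^ 2 * |wsum c r₀ chi2 n (M ^ 2 * j + i) a| := by
    intro i hi
    have hi' := Finset.mem_range.1 hi
    simp only [rho2, wt, wt1, wt2]
    rw [Nat.mul_add_div hN, Nat.div_eq_of_lt hi', add_zero]
    have hw := wsum_nonneg c r₀ n (M ^ 2 * j + i) a chi chi_nonneg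
    refine (abs_add_le _ _).trans ?_
    refine (add_le_add (abs_add_le _ _) le_rfl).trans ?_
    simp only [abs_mul, abs_of_nonneg hw, abs_of_nonneg hrn, abs_of_pos hk, abs_pow,
      abs_of_pos (by norm_num : (0:ℝ) < 1/8), abs_two]
    apply le_of_eq; ring
  refine (Finset.sum_le_sum e1).trans ?_
  rw [Finset.sum_add_distrib, Finset.sum_add_distrib, ← Finset.mul_sum, ← Finset.mul_sum,
    ← Finset.mul_sum, wsum_children c r₀ n j a chi hM0]
  have e2 := chi_sum_le_one (M ^ (n + 1)) (kap M r₀ (n + 1) * a)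
  have e3 := wsum_children_abs_le c r₀ n j a chi1 hM0 K (by linarith) h1 (fun t ht => chi1_zero ht)
  have e3' := wsum_children_abs_le c r₀ n j a chi2 hM0 K (by linarith) h2 (fun t ht => chi2_zero ht)
  have e4 : |rho2 c r₀ n j a| * (1 / 8) * (8 * ∑ l ∈ Finset.Icc (-((M ^ (n + 1) : ℕ) : ℤ)) ((M ^ (n + 1) : ℕ) : ℤ),
      chi (kap M r₀ (n + 1) * a - l)) ≤ |rho2 c r₀ n j a| * (1 / 8) * (8 * 1) := by
    gcongr
  have e5 : |rho1 c r₀ n j a| * (1 / 4) * kap M r₀ (n + 1) * ∑ i ∈ Finset.range (M ^ 2), |wsum c r₀ chi1 n (M ^ 2 * j + i) a|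
      ≤ |rho1 c r₀ n j a| * (1 / 4) * kap M r₀ (n + 1) * (16 * K) := by
    gcongr
  have e6 : rho c r₀ n j a * (1 / 8) * kap M r₀ (n + 1) ^ 2 * ∑ i ∈ Finset.range (M ^ 2), |wsum c r₀ chi2 n (M ^ 2 * j + i) a|
      ≤ rho c r₀ n j a * (1 / 8) * kap M r₀ (n + 1) ^ 2 * (16 * K) := by
    gcongr
  refine (add_le_add (add_le_add e4 e5) e6).trans (le_of_eq ?_)
  ring

omit hM hr in
lemma rho_le (n j : ℕ) (a : ℝ) : rho c r₀ n j a ≤ (1 / 8) ^ n := by
  induction n generalizing j with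
  | zero =>
    simp only [rho, pow_zero]
    exact chi_le_one _
  | succ n ih =>
    simp only [rho]
    rw [pow_succ (1 / 8 : ℝ) n]
    exact mul_le_mul (ih _) (wt_le c r₀ n j a) (wt_nonneg c r₀ n j a) (by positivity)

include hK1 h1 in
lemma rho1_le (n j : ℕ) (a : ℝ) : |rho1 c r₀ n j a| ≤ (1 / 8) ^ n * (4 * K * kap M r₀ n) := by
  have hM0 : 0 < M := by omega
  have hMr : (2:ℝ) ≤ M := by exact_mod_cast hM
  induction n generalizing j with
  | zero =>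
    have hk := kap_pos (M := M) r₀ hM0 hr 0
    simp only [rho1]
    rw [abs_mul, abs_of_pos hk, pow_zero, one_mul]
    have := h1 (kap M r₀ 0 * a)
    nlinarith
  | succ n ih =>
    have hk := kap_pos (M := M) r₀ hM0 hr n
    have hk' := kap_pos (M := M) r₀ hM0 hr (n + 1)
    simp only [rho1]
    refine (abs_add_le _ _).trans ?_
    rw [abs_mul, abs_mul, abs_of_nonneg (wt_nonneg c r₀ n j a),
      abs_of_nonneg (rho_nonneg c r₀ n (j / M ^ 2) a)]
    have e1 := wt_le c r₀ n j a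
    have e2 := rho_le c r₀ n (j / M ^ 2) a
    have e3 : |wt1 c r₀ n j a| ≤ 1 / 8 * (kap M r₀ (n + 1) * (2 * K)) := by
      unfold wt1
      rw [abs_mul, abs_mul, abs_of_pos hk', abs_of_pos (by norm_num : (0:ℝ) < 1/8)]
      gcongr
      exact wsum_single_abs_le c r₀ n j a chi1 K (by linarith) h1 (fun t ht => chi1_zero ht)
    have e4 := ih (j / M ^ 2)
    have e0 := wt_nonneg c r₀ n j a
    calc |rho1 c r₀ n (j / M ^ 2) a| * wt c r₀ n j a + rho c r₀ n (j / M ^ 2) a * |wt1 c r₀ n j a|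
        ≤ (1 / 8) ^ n * (4 * K * kap M r₀ n) * (1 / 8) + (1 / 8) ^ n * (1 / 8 * (kap M r₀ (n + 1) * (2 * K))) := by
          gcongr
      _ ≤ (1 / 8) ^ (n + 1) * (4 * K * kap M r₀ (n + 1)) := by
          rw [kap_succ, pow_succ (1 / 8 : ℝ) n]
          have : (1 / 8 : ℝ) ^ n * (1 / 8) * K * kap M r₀ n * (4 + 2 * M) ≤
              (1 / 8 : ℝ) ^ n * (1 / 8) * K * kap M r₀ n * (4 * M) := by
            have hK0 : 0 ≤ K := by linarith
            gcongr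
            linarith
          nlinarith

include hK1 h1 h2 in
lemma rho2_le (n j : ℕ) (a : ℝ) :
    |rho2 c r₀ n j a| ≤ (1 / 8) ^ n * (20 * K ^ 2 * kap M r₀ n ^ 2) := by
  have hM0 : 0 < M := by omega
  have hMr : (2:ℝ) ≤ M := by exact_mod_cast hM
  induction n generalizing j with
  | zero =>
    have hk := kap_pos (M := M) r₀ hM0 hr 0
    simp only [rho2]
    rw [abs_mul, abs_of_pos (by positivity), pow_zero, one_mul]
    have e1 := h2 (kap M r₀ 0 * a)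
    have e2 : K ≤ 20 * K ^ 2 := by nlinarith
    calc kap M r₀ 0 ^ 2 * |chi2 (kap M r₀ 0 * a)| ≤ kap M r₀ 0 ^ 2 * (20 * K ^ 2) := by
          gcongr; linarith
      _ = _ := by ring
  | succ n ih =>
    have hk := kap_pos (M := M) r₀ hM0 hr n
    have hk' := kap_pos (M := M) r₀ hM0 hr (n + 1)
    simp only [rho2]
    refine (abs_add_le _ _).trans ?_
    refine (add_le_add (abs_add_le _ _) le_rfl).trans ?_
    rw [abs_mul, abs_mul, abs_mul, abs_mul, abs_of_nonneg (wt_nonneg c r₀ n j a),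
      abs_of_nonneg (rho_nonneg c r₀ n (j / M ^ 2) a), abs_two]
    have e1 := wt_le c r₀ n j a
    have e2 := rho_le c r₀ n (j / M ^ 2) a
    have e3 : |wt1 c r₀ n j a| ≤ 1 / 8 * (kap M r₀ (n + 1) * (2 * K)) := by
      unfold wt1
      rw [abs_mul, abs_mul, abs_of_pos hk', abs_of_pos (by norm_num : (0:ℝ) < 1/8)]
      gcongr
      exact wsum_single_abs_le c r₀ n j a chi1 K (by linarith) h1 (fun t ht => chi1_zero ht)
    have e3' : |wt2 c r₀ n j a| ≤ 1 / 8 * (kap M r₀ (n + 1) ^ 2 * (2 * K)) := by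
      unfold wt2
      rw [abs_mul, abs_mul, abs_of_pos (by positivity : 0 < kap M r₀ (n + 1) ^ 2),
        abs_of_pos (by norm_num : (0:ℝ) < 1/8)]
      gcongr
      exact wsum_single_abs_le c r₀ n j a chi2 K (by linarith) h2 (fun t ht => chi2_zero ht)
    have e4 := ih (j / M ^ 2)
    have e5 := rho1_le c r₀ hM hr hK1 h1 n (j / M ^ 2) a
    have e0 := wt_nonneg c r₀ n j a
    have hK0 : 0 ≤ K := by linarith
    calc |rho2 c r₀ n (j / M ^ 2) a| * wt c r₀ n j a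
          + 2 * (|rho1 c r₀ n (j / M ^ 2) a| * |wt1 c r₀ n j a|)
          + rho c r₀ n (j / M ^ 2) a * |wt2 c r₀ n j a|
        ≤ (1 / 8) ^ n * (20 * K ^ 2 * kap M r₀ n ^ 2) * (1 / 8)
          + 2 * ((1 / 8) ^ n * (4 * K * kap M r₀ n) * (1 / 8 * (kap M r₀ (n + 1) * (2 * K))))
          + (1 / 8) ^ n * (1 / 8 * (kap M r₀ (n + 1) ^ 2 * (2 * K))) := by
          gcongr
      _ ≤ (1 / 8) ^ (n + 1) * (20 * K ^ 2 * kap M r₀ (n + 1) ^ 2) := by
          rw [kap_succ, pow_succ (1 / 8 : ℝ) n]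
          have h3 : K * (20 + 16 * M) + 2 * (M:ℝ) ^ 2 ≤ K * (20 * (M:ℝ) ^ 2) := by
            nlinarith [mul_nonneg hK0 (by nlinarith : (0:ℝ) ≤ (M:ℝ) ^ 2 - 2 * M),
              mul_nonneg hK0 (by nlinarith : (0:ℝ) ≤ (M:ℝ) ^ 2 - 4), sq_nonneg (M:ℝ)]
          have : (1 / 8 : ℝ) ^ n * (1 / 8) * K * kap M r₀ n ^ 2 * (K * (20 + 16 * M) + 2 * (M:ℝ) ^ 2) ≤
              (1 / 8 : ℝ) ^ n * (1 / 8) * K * kap M r₀ n ^ 2 * (K * (20 * (M:ℝ) ^ 2)) := by
            gcongr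
          nlinarith

include hK1 h1 in
/-- (F4), first derivative -/
lemma rho1_desc (i m q : ℕ) (a : ℝ) :
    dsum (M ^ 2) m (fun j => |rho1 c r₀ (i + m) j a|) q ≤ (1 / 8) ^ i * (4 * K * kap M r₀ (i + m)) := by
  have hM0 : 0 < M := by omega
  have hMr : (2:ℝ) ≤ M := by exact_mod_cast hM
  induction m with
  | zero => rw [dsum_zero]; exact rho1_le c r₀ hM hr hK1 h1 i q a
  | succ m ih =>
    have hk := kap_pos (M := M) r₀ hM0 hr (i + m)
    rw [dsum_succ]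
    have e1 := dsum_mono (M ^ 2) m (fun j => rho1_children c r₀ hM hr hK1 h1 (i + m) j a) q
    refine e1.trans ?_
    rw [dsum_add, dsum_const_mul, rho_desc c r₀ hM hr]
    have e2 := rho_le c r₀ i q a
    have hK0 : 0 ≤ K := by linarith
    have hk2 := kap_pos (M := M) r₀ hM0 hr (i + m + 1)
    calc dsum (M ^ 2) m (fun j => |rho1 c r₀ (i + m) j a|) q + 2 * K * kap M r₀ (i + m + 1) * rho c r₀ i q a
        ≤ (1 / 8) ^ i * (4 * K * kap M r₀ (i + m)) + 2 * K * kap M r₀ (i + m + 1) * (1 / 8) ^ i := by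
          gcongr
      _ ≤ (1 / 8) ^ i * (4 * K * kap M r₀ (i + (m + 1))) := by
          rw [← add_assoc, kap_succ]
          have : (1 / 8 : ℝ) ^ i * K * kap M r₀ (i + m) * (4 + 2 * M) ≤
              (1 / 8 : ℝ) ^ i * K * kap M r₀ (i + m) * (4 * M) := by
            gcongr
            linarith
          nlinarith

include hK1 h1 h2 in
/-- (F4), second derivative -/
lemma rho2_desc (i m q : ℕ) (a : ℝ) :
    dsum (M ^ 2) m (fun j => |rho2 c r₀ (i + m) j a|) q ≤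
      (1 / 8) ^ i * (20 * K ^ 2 * kap M r₀ (i + m) ^ 2) := by
  have hM0 : 0 < M := by omega
  have hMr : (2:ℝ) ≤ M := by exact_mod_cast hM
  induction m with
  | zero => rw [dsum_zero]; exact rho2_le c r₀ hM hr hK1 h1 h2 i q a
  | succ m ih =>
    have hk := kap_pos (M := M) r₀ hM0 hr (i + m)
    rw [dsum_succ]
    have e1 := dsum_mono (M ^ 2) m (fun j => rho2_children c r₀ hM hr hK1 h1 h2 (i + m) j a) q
    refine e1.trans ?_
    rw [dsum_add, dsum_add, dsum_const_mul, dsum_const_mul, rho_desc c r₀ hM hr]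
    have e2 := rho_le c r₀ i q a
    have e3 := rho1_desc c r₀ hM hr hK1 h1 i m q a
    have hK0 : 0 ≤ K := by linarith
    have hk2 := kap_pos (M := M) r₀ hM0 hr (i + m + 1)
    calc dsum (M ^ 2) m (fun j => |rho2 c r₀ (i + m) j a|) q
          + 4 * K * kap M r₀ (i + m + 1) * dsum (M ^ 2) m (fun j => |rho1 c r₀ (i + m) j a|) q
          + 2 * K * kap M r₀ (i + m + 1) ^ 2 * rho c r₀ i q a
        ≤ (1 / 8) ^ i * (20 * K ^ 2 * kap M r₀ (i + m) ^ 2)
          + 4 * K * kap M r₀ (i + m + 1) * ((1 / 8) ^ i * (4 * K * kap M r₀ (i + m)))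
          + 2 * K * kap M r₀ (i + m + 1) ^ 2 * (1 / 8) ^ i := by
          gcongr
      _ ≤ (1 / 8) ^ i * (20 * K ^ 2 * kap M r₀ (i + (m + 1)) ^ 2) := by
          rw [← add_assoc, kap_succ]
          have h3 : K * (20 + 16 * M) + 2 * (M:ℝ) ^ 2 ≤ K * (20 * (M:ℝ) ^ 2) := by
            nlinarith [mul_nonneg hK0 (by nlinarith : (0:ℝ) ≤ (M:ℝ) ^ 2 - 2 * M),
              mul_nonneg hK0 (by nlinarith : (0:ℝ) ≤ (M:ℝ) ^ 2 - 4), sq_nonneg (M:ℝ)]
          have : (1 / 8 : ℝ) ^ i * K * kap M r₀ (i + m) ^ 2 * (K * (20 + 16 * M) + 2 * (M:ℝ) ^ 2) ≤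
              (1 / 8 : ℝ) ^ i * K * kap M r₀ (i + m) ^ 2 * (K * (20 * (M:ℝ) ^ 2)) := by
            gcongr
          nlinarith

end bounds

end Pool.Agent.BG
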