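import Mathlib
import Pool.Agent.Lib.MP_9ef1f5_an_helper26.Pompeiu

set_option autoImplicit false
open MeasureTheory Set Filter Topology Complex
open scoped Convolution ENNReal

namespace Pool.Agent.BG

/-- local integrability of the Cauchy kernel -/
lemma integrableOn_inv (R : ℝ) : IntegrableOn (fun w : ℂ => w⁻¹) (Metric.closedBall 0 R) := by
  have hm : Measurable (fun w : ℂ => w⁻¹) := measurable_inv
  refine ⟨hm.aestronglyMeasurable, ?_⟩
  rw [hasFiniteIntegral_iff_enorm]
  rw [← lintegral_indicator Metric.isClosed_closedBall.measurableSet]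
  rw [← Complex.lintegral_comp_polarCoord_symm]
  have hle : ∀ p ∈ polarCoord.target, ENNReal.ofReal p.1 •
      ((Metric.closedBall (0:ℂ) R).indicator (fun w : ℂ => ‖w⁻¹‖ₑ) (Complex.polarCoord.symm p))
      ≤ (Iic R ×ˢ (univ : Set ℝ)).indicator (fun _ => (1 : ℝ≥0∞)) p := by
    rintro ⟨r, θ⟩ hp
    rw [polarCoord_target] at hp
    have hr : 0 < r := hp.1
    have hn : ‖Complex.polarCoord.symm (r, θ)‖ = r := by
      rw [Complex.norm_polarCoord_symm]; exact abs_of_pos hr
    by_cases h : r ≤ R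
    · rw [indicator_of_mem (by rw [mem_closedBall_zero_iff, hn]; exact h),
        indicator_of_mem (by exact ⟨h, mem_univ _⟩)]
      rw [enorm_inv (by rw [← norm_ne_zero_iff, hn]; exact hr.ne'), ← ofReal_norm, hn,
        smul_eq_mul, ENNReal.mul_inv_cancel]
      · simpa using hr
      · exact ENNReal.ofReal_ne_top
    · rw [indicator_of_notMem (by rw [mem_closedBall_zero_iff, hn]; exact h)]
      simp
  have h1 := setLIntegral_mono' (μ := volume) (s := polarCoord.target)
    (by rw [polarCoord_target]; exact measurableSet_Ioi.prod measurableSet_Ioo) hle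
  refine lt_of_le_of_lt h1 ?_
  rw [setLIntegral_indicator₀]
  · rw [setLIntegral_const]
    simp only [one_mul]
    have : (Iic R ×ˢ (univ : Set ℝ)) ∩ polarCoord.target ⊆ (Icc 0 R) ×ˢ (Icc (-Real.pi) Real.pi) := by
      rintro ⟨r, θ⟩ ⟨h1, h2⟩
      rw [polarCoord_target] at h2
      exact ⟨⟨(mem_Ioi.1 h2.1).le, h1.1⟩, ⟨h2.2.1.le, h2.2.2.le⟩⟩
    refine lt_of_le_of_lt (measure_mono this) ?_
    exact (isCompact_Icc.prod isCompact_Icc).measure_lt_top
  · exact (measurableSet_Iic.prod MeasurableSet.univ).nullMeasurableSet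

lemma locInt_inv : LocallyIntegrable (fun w : ℂ => w⁻¹) := by
  rw [locallyIntegrable_iff]
  intro K hK
  obtain ⟨R, hR⟩ := hK.isBounded.subset_closedBall 0
  exact (integrableOn_inv R).mono_set hR

/-- Cauchy transform of the density `S` (up to the factor `π`). -/
noncomputable def cau (S : ℂ → ℂ) (z : ℂ) : ℂ := ∫ t : ℂ, t⁻¹ * S (z - t)

lemma cau_eq_conv (S : ℂ → ℂ) :
    cau S = (fun w : ℂ => w⁻¹) ⋆[ContinuousLinearMap.mul ℝ ℂ, volume] S := by
  ext z
  rw [convolution_def]
  rfl

lemma cau_integrable {S : ℂ → ℂ} (hS : Continuous S) (hc : HasCompactSupport S) (z : ℂ) :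
    Integrable (fun t : ℂ => t⁻¹ * S (z - t)) := by
  have := hc.convolutionExists_right (ContinuousLinearMap.mul ℝ ℂ) (μ := volume) locInt_inv hS z
  exact this

lemma cau_continuous {S : ℂ → ℂ} (hS : Continuous S) (hc : HasCompactSupport S) :
    Continuous (cau S) := by
  rw [cau_eq_conv]
  exact hc.continuous_convolution_right _ locInt_inv hS

lemma cau_hasFDerivAt {S : ℂ → ℂ} (hS : ContDiff ℝ 1 S) (hc : HasCompactSupport S) (z : ℂ) :
    DifferentiableAt ℝ (cau S) z ∧
      ∀ v, fderiv ℝ (cau S) z v = cau (fun w => fderiv ℝ S w v) z := by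
  have h := hc.hasFDerivAt_convolution_right (ContinuousLinearMap.mul ℝ ℂ) (μ := volume)
    locInt_inv hS z
  rw [← cau_eq_conv] at h
  refine ⟨h.differentiableAt, fun v => ?_⟩
  rw [h.fderiv, convolution_precompR_apply _ locInt_inv (hc.fderiv ℝ)
    (hS.continuous_fderiv one_ne_zero), ← cau_eq_conv]

lemma cau_dbar {S : ℂ → ℂ} (hS : ContDiff ℝ 1 S) (hc : HasCompactSupport S) (z : ℂ) :
    fderiv ℝ (cau S) z 1 + I * fderiv ℝ (cau S) z I = 2 * Real.pi * S z := by
  obtain ⟨-, h⟩ := cau_hasFDerivAt hS hc z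
  rw [h 1, h I]
  have hcd : Continuous (fderiv ℝ S) := hS.continuous_fderiv one_ne_zero
  have h1 : Integrable (fun t : ℂ => t⁻¹ * (fderiv ℝ S (z - t) 1)) := by
    apply cau_integrable (S := fun w => fderiv ℝ S w 1)
    · exact hcd.clm_apply continuous_const
    · exact hc.fderiv_apply ℝ 1
  have h2 : Integrable (fun t : ℂ => t⁻¹ * (fderiv ℝ S (z - t) I)) := by
    apply cau_integrable (S := fun w => fderiv ℝ S w I)
    · exact hcd.clm_apply continuous_const
    · exact hc.fderiv_apply ℝ I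
  unfold cau
  rw [← integral_const_mul, ← integral_add h1 (h2.const_mul I)]
  have key := H26.pompeiu S hS hc z
  have : ∫ t : ℂ, (t⁻¹ * (fderiv ℝ S (z - t) 1) + I * (t⁻¹ * (fderiv ℝ S (z - t) I)))
      = - ∫ w : ℂ, (w - z)⁻¹ • (fderiv ℝ S w 1 + I • fderiv ℝ S w I) := by
    rw [← integral_neg, ← integral_sub_left_eq_self _ volume z]
    congr 1
    ext w
    simp only [smul_eq_mul, sub_sub_cancel]
    rw [← neg_sub w z, inv_neg]
    ring
  rw [this, key]
  simp

end Pool.Agent.BG
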