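import Mathlib

set_option autoImplicit false
open Set Filter Topology Complex

namespace Pool.Agent.BG

/-- a strongly monotone bounded perturbation of the identity of the plane is a homeomorphism -/
lemma homeo_of_monotone (f : ℂ → ℂ) (hf : Continuous f) (B : ℝ) (hB : ∀ z, ‖f z - z‖ ≤ B)
    (hm : ∀ z w, 1 / 2 * ‖z - w‖ ^ 2 ≤ ((f z - f w) * (starRingEnd ℂ) (z - w)).re) :
    ∃ g : ℂ ≃ₜ ℂ, (g : ℂ → ℂ) = f := by
  -- expansion
  have hexp : ∀ z w, 1 / 2 * ‖z - w‖ ≤ ‖f z - f w‖ := by
    intro z w
    rcases eq_or_ne z w with h | h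
    · rw [h]; simp
    · have h0 : 0 < ‖z - w‖ := norm_pos_iff.2 (sub_ne_zero.2 h)
      have h1 := (hm z w).trans ((Complex.re_le_norm _))
      rw [norm_mul, RCLike.norm_conj] at h1
      by_contra hc
      push Not at hc
      have := mul_lt_mul_of_pos_right hc h0
      nlinarith
  have hinj : Function.Injective f := by
    intro z w h
    have := hexp z w
    rw [h, sub_self, norm_zero] at this
    have h2 : ‖z - w‖ = 0 := le_antisymm (by linarith) (norm_nonneg _)
    exact sub_eq_zero.1 (norm_eq_zero.1 h2)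
  -- surjectivity
  have hvert : ∀ x y₁ y₂ : ℝ, 1 / 2 * (y₁ - y₂) ^ 2 ≤ ((f ⟨x, y₁⟩).im - (f ⟨x, y₂⟩).im) * (y₁ - y₂) := by
    intro x y₁ y₂
    have h := hm ⟨x, y₁⟩ ⟨x, y₂⟩
    have e1 : (⟨x, y₁⟩ : ℂ) - ⟨x, y₂⟩ = ⟨0, y₁ - y₂⟩ := by apply Complex.ext <;> simp
    rw [e1] at h
    have e2 : ‖(⟨0, y₁ - y₂⟩ : ℂ)‖ ^ 2 = (y₁ - y₂) ^ 2 := by
      rw [← Complex.normSq_eq_norm_sq, Complex.normSq_mk]; ring
    rw [e2] at h
    simp only [Complex.mul_re, Complex.sub_re, Complex.sub_im, Complex.conj_re, Complex.conj_im] at h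
    nlinarith
  have hcx : ∀ y : ℝ, Continuous fun x : ℝ => (f ⟨x, y⟩) := by
    intro y
    apply hf.comp
    have : (fun x : ℝ => (⟨x, y⟩ : ℂ)) = fun x : ℝ => (x : ℂ) + y * I := by
      ext x; apply Complex.ext <;> simp
    rw [this]; fun_prop
  have hcy : ∀ x : ℝ, Continuous fun y : ℝ => (f ⟨x, y⟩) := by
    intro x
    apply hf.comp
    have : (fun y : ℝ => (⟨x, y⟩ : ℂ)) = fun y : ℝ => (x : ℂ) + y * I := by
      ext y; apply Complex.ext <;> simp
    change Continuous (fun y : ℝ => (⟨x, y⟩ : ℂ))
    rw [this]; fun_prop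
  have him : ∀ z : ℂ, |(f z).im - z.im| ≤ B := by
    intro z
    have := (Complex.abs_im_le_norm (f z - z)).trans (hB z)
    rwa [Complex.sub_im] at this
  have hre : ∀ z : ℂ, |(f z).re - z.re| ≤ B := by
    intro z
    have := (Complex.abs_re_le_norm (f z - z)).trans (hB z)
    rwa [Complex.sub_re] at this
  have hsurj : Function.Surjective f := by
    intro p
    have hY : ∀ x : ℝ, ∃ y : ℝ, (f ⟨x, y⟩).im = p.im := by
      intro x
      have hc : Continuous fun y : ℝ => (f ⟨x, y⟩).im := Complex.continuous_im.comp (hcy x)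
      apply hc.surjective
      · apply tendsto_atTop_mono (f := fun y : ℝ => y - B)
        · intro y
          have := (abs_le.1 (him ⟨x, y⟩)).1
          simp only at this
          linarith
        · exact tendsto_atTop_add_const_right _ (-B) tendsto_id
      · refine tendsto_atBot_mono (fun y => ?_) (tendsto_atBot_add_const_right _ B tendsto_id)
        have := (abs_le.1 (him ⟨x, y⟩)).2
        simp only at this
        simp only [id]
        linarith
    choose Y hYs using hY
    have hYc : Continuous Y := by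
      rw [continuous_iff_continuousAt]
      intro x
      rw [ContinuousAt, tendsto_iff_dist_tendsto_zero]
      have hlim : Tendsto (fun x' : ℝ => 2 * |(f ⟨x', Y x⟩).im - p.im|) (𝓝 x) (𝓝 0) := by
        have h1 : Continuous fun x' : ℝ => 2 * |(f ⟨x', Y x⟩).im - p.im| := by
          have := Complex.continuous_im.comp (hcx (Y x))
          fun_prop
        have h2 := h1.tendsto x
        rw [hYs x, sub_self, abs_zero, mul_zero] at h2
        exact h2
      apply squeeze_zero (fun _ => dist_nonneg) _ hlim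
      intro x'
      rw [Real.dist_eq]
      have h := hvert x' (Y x') (Y x)
      rw [hYs x'] at h
      have h2 : (p.im - (f ⟨x', Y x⟩).im) * (Y x' - Y x) ≤ |(f ⟨x', Y x⟩).im - p.im| * |Y x' - Y x| := by
        rw [abs_sub_comm, ← abs_mul]; exact le_abs_self _
      have h3 : (Y x' - Y x) ^ 2 = |Y x' - Y x| ^ 2 := (sq_abs _).symm
      rw [h3] at h
      rcases (abs_nonneg (Y x' - Y x)).eq_or_lt with h4 | h4
      · rw [← h4]; positivity
      · by_contra hc
        push Not at hc
        nlinarith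
    have hXc : Continuous fun x : ℝ => (f ⟨x, Y x⟩).re := by
      apply Complex.continuous_re.comp
      apply hf.comp
      have : (fun x : ℝ => (⟨x, Y x⟩ : ℂ)) = fun x : ℝ => (x : ℂ) + (Y x) * I := by
        ext x; apply Complex.ext <;> simp
      rw [this]
      fun_prop
    have hXs : Function.Surjective fun x : ℝ => (f ⟨x, Y x⟩).re := by
      apply hXc.surjective
      · apply tendsto_atTop_mono (f := fun y : ℝ => y - B)
        · intro x
          have := (abs_le.1 (hre ⟨x, Y x⟩)).1
          simp only at this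
          linarith
        · exact tendsto_atTop_add_const_right _ (-B) tendsto_id
      · refine tendsto_atBot_mono (fun x => ?_) (tendsto_atBot_add_const_right _ B tendsto_id)
        have := (abs_le.1 (hre ⟨x, Y x⟩)).2
        simp only at this
        simp only [id]
        linarith
    obtain ⟨x, hx⟩ := hXs p.re
    refine ⟨⟨x, Y x⟩, Complex.ext hx (hYs x)⟩
  refine ⟨{ Equiv.ofBijective f ⟨hinj, hsurj⟩ with
    continuous_toFun := hf
    continuous_invFun := ?_ }, rfl⟩
  have hl : LipschitzWith 2 (Equiv.ofBijective f ⟨hinj, hsurj⟩).symm := by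
    apply LipschitzWith.of_dist_le_mul
    intro p q
    have h := hexp ((Equiv.ofBijective f ⟨hinj, hsurj⟩).symm p) ((Equiv.ofBijective f ⟨hinj, hsurj⟩).symm q)
    have e1 : f ((Equiv.ofBijective f ⟨hinj, hsurj⟩).symm p) = p :=
      (Equiv.ofBijective f ⟨hinj, hsurj⟩).apply_symm_apply p
    have e2 : f ((Equiv.ofBijective f ⟨hinj, hsurj⟩).symm q) = q :=
      (Equiv.ofBijective f ⟨hinj, hsurj⟩).apply_symm_apply q
    rw [e1, e2] at h
    rw [dist_eq_norm, dist_eq_norm]
    simp only [NNReal.coe_ofNat]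
    linarith
  exact hl.continuous

end Pool.Agent.BG
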