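import Mathlib

set_option autoImplicit false
open MeasureTheory Set Filter Topology Complex

namespace Pool.Agent.BG

/-! ### elementary integrals -/

lemma cauchy_integrable {c : ℝ} (hc : 0 < c) : Integrable (fun u : ℝ => (c ^ 2 + u ^ 2)⁻¹) := by
  have h := (integrable_inv_one_add_sq.comp_div (R := c) hc.ne').const_mul ((c ^ 2)⁻¹)
  refine h.congr (Eventually.of_forall fun u => ?_)
  simp only
  rw [← mul_inv]
  congr 1
  field_simp

lemma cauchy_integral {c : ℝ} (hc : 0 < c) : ∫ u : ℝ, (c ^ 2 + u ^ 2)⁻¹ = Real.pi / c := by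
  have h : ∫ u : ℝ, (c ^ 2 + u ^ 2)⁻¹ = ∫ u : ℝ, (c ^ 2)⁻¹ * (1 + (u / c) ^ 2)⁻¹ := by
    congr 1
    ext u
    rw [← mul_inv]
    congr 1
    field_simp
  rw [h, integral_const_mul, Measure.integral_comp_div (fun u : ℝ => (1 + u ^ 2)⁻¹) c,
    integral_univ_inv_one_add_sq, abs_of_pos hc]
  simp only [smul_eq_mul]
  field_simp

/-- `1/√|u|` -/
noncomputable def hs (u : ℝ) : ℝ := (Real.sqrt |u|)⁻¹

lemma hs_nonneg (u : ℝ) : 0 ≤ hs u := by unfold hs; positivity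

lemma hs_neg (u : ℝ) : hs (-u) = hs u := by unfold hs; rw [abs_neg]

lemma hs_measurable : Measurable hs := by
  unfold hs; fun_prop

lemma hs_int_half {R : ℝ} (hR : 0 ≤ R) :
    IntervalIntegrable hs volume 0 R ∧ ∫ u in (0:ℝ)..R, hs u = 2 * Real.sqrt R := by
  have he : ∀ u ∈ Set.uIcc 0 R, hs u = u ^ (-(1/2) : ℝ) := by
    intro u hu
    rw [uIcc_of_le hR] at hu
    unfold hs
    rw [abs_of_nonneg hu.1, Real.rpow_neg hu.1, Real.sqrt_eq_rpow]
  have h1 : IntervalIntegrable (fun u : ℝ => u ^ (-(1/2) : ℝ)) volume 0 R :=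
    intervalIntegral.intervalIntegrable_rpow' (by norm_num)
  constructor
  · refine h1.congr ?_
    intro u hu
    exact (he u (uIoc_subset_uIcc hu)).symm
  · rw [intervalIntegral.integral_congr (g := fun u : ℝ => u ^ (-(1/2) : ℝ)) he,
      integral_rpow (Or.inl (by norm_num)), Real.sqrt_eq_rpow]
    norm_num
    ring

lemma hs_int {R : ℝ} (hR : 0 ≤ R) :
    IntervalIntegrable hs volume (-R) R ∧ ∫ u in (-R)..R, hs u = 4 * Real.sqrt R := by
  obtain ⟨h1, h2⟩ := hs_int_half hR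
  have h3 : IntervalIntegrable hs volume (-R) 0 := by
    have := (IntervalIntegrable.iff_comp_neg (f := hs) (a := 0) (b := R)).1 h1
    simp only [hs_neg, neg_zero] at this
    exact this.symm
  have h4 : ∫ u in (-R)..0, hs u = 2 * Real.sqrt R := by
    have := intervalIntegral.integral_comp_neg (a := 0) (b := R) hs
    simp only [hs_neg, neg_zero] at this
    rw [← this, h2]
  refine ⟨h3.trans h1, ?_⟩
  rw [← intervalIntegral.integral_add_adjacent_intervals h3 h1, h2, h4]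
  ring

/-! ### the Cauchy kernel -/

noncomputable def ker (ξ η : ℝ) : ℂ := ((ξ : ℂ) + η * I)⁻¹

lemma ker_im (ξ η : ℝ) : (ker ξ η).im = - η / (ξ ^ 2 + η ^ 2) := by
  unfold ker
  rw [Complex.inv_im]
  simp [Complex.normSq_apply]
  ring_nf

lemma ker_re (ξ η : ℝ) : (ker ξ η).re = ξ / (ξ ^ 2 + η ^ 2) := by
  unfold ker
  rw [Complex.inv_re]
  simp [Complex.normSq_apply]
  ring_nf

lemma norm_add_mul_I (ξ η : ℝ) : ‖(ξ : ℂ) + η * I‖ = Real.sqrt (ξ ^ 2 + η ^ 2) := by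
  rw [Complex.norm_def, Complex.normSq_apply]
  congr 1
  simp
  ring

lemma ker_norm (ξ η : ℝ) : ‖ker ξ η‖ = (Real.sqrt (ξ ^ 2 + η ^ 2))⁻¹ := by
  unfold ker
  rw [norm_inv, norm_add_mul_I]

lemma ker_norm_sq (ξ η : ℝ) : ‖ker ξ η‖ ^ 2 = (ξ ^ 2 + η ^ 2)⁻¹ := by
  rw [ker_norm, inv_pow, Real.sq_sqrt (by positivity)]

lemma ker_norm_le_abs (ξ : ℝ) {η : ℝ} (hη : η ≠ 0) : ‖ker ξ η‖ ≤ |η|⁻¹ := by
  rw [ker_norm]
  apply inv_anti₀ (abs_pos.2 hη)
  rw [← Real.sqrt_sq_eq_abs]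
  exact Real.sqrt_le_sqrt (by nlinarith [sq_nonneg ξ])

lemma ker_norm_le_hs (ξ η : ℝ) (hη : η ≠ 0) (hξ : ξ ≠ 0) : ‖ker ξ η‖ ≤ hs ξ * hs η := by
  rw [ker_norm]
  unfold hs
  rw [← mul_inv]
  have h1 : 0 < |ξ| := abs_pos.2 hξ
  have h2 : 0 < |η| := abs_pos.2 hη
  apply inv_anti₀ (by positivity)
  rw [← Real.sqrt_mul h1.le]
  apply Real.sqrt_le_sqrt
  have : |ξ| ^ 2 = ξ ^ 2 := sq_abs ξ
  have : |η| ^ 2 = η ^ 2 := sq_abs η
  nlinarith [sq_nonneg (|ξ| - |η|)]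

lemma ker_continuous {η : ℝ} (hη : η ≠ 0) : Continuous (fun ξ : ℝ => ker ξ η) := by
  unfold ker
  apply Continuous.inv₀ (by fun_prop)
  intro ξ h
  have := congrArg Complex.im h
  simp at this
  exact hη this

lemma ker_measurable : Measurable (fun p : ℝ × ℝ => ker p.1 p.2) := by
  unfold ker
  fun_prop

/-! ### bumps in the time variable -/

structure IsBump (θ : ℝ → ℝ) (a τ C : ℝ) : Prop where
  cont : Continuous θ
  nonneg : ∀ x, 0 ≤ θ x
  supp : ∀ x, x ∉ Icc a (a + τ) → θ x = 0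
  int : ∫ x, θ x = 1
  le : ∀ x, θ x ≤ C / τ

lemma IsBump.compact {θ : ℝ → ℝ} {a τ C : ℝ} (h : IsBump θ a τ C) : HasCompactSupport θ :=
  HasCompactSupport.intro isCompact_Icc h.supp

lemma IsBump.integrable {θ : ℝ → ℝ} {a τ C : ℝ} (h : IsBump θ a τ C) : Integrable θ :=
  h.cont.integrable_of_hasCompactSupport h.compact

/-- averaging estimate -/
lemma IsBump.avg {E : Type*} [NormedAddCommGroup E] [NormedSpace ℝ E] [CompleteSpace E]
    {θ : ℝ → ℝ} {a τ C : ℝ} (h : IsBump θ a τ C)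
    {g : ℝ → E} (hg : Continuous g) {c : E} {D : ℝ}
    (hD : ∀ x ∈ Icc a (a + τ), ‖g x - c‖ ≤ D) : ‖(∫ x, θ x • g x) - c‖ ≤ D := by
  have h1 : Integrable (fun x => θ x • g x) :=
    (h.cont.smul hg).integrable_of_hasCompactSupport h.compact.smul_right
  have h2 : Integrable (fun x => θ x • c) := h.integrable.smul_const c
  have h3 : (∫ x, θ x • g x) - c = ∫ x, θ x • (g x - c) := by
    have : ∫ x, θ x • c = c := by rw [integral_smul_const, h.int, one_smul]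
    simp_rw [smul_sub]
    rw [integral_sub h1 h2, this]
  rw [h3]
  calc ‖∫ x, θ x • (g x - c)‖ ≤ ∫ x, θ x * D := by
        apply norm_integral_le_of_norm_le (h.integrable.mul_const D)
        refine Eventually.of_forall fun x => ?_
        rw [norm_smul, Real.norm_eq_abs, abs_of_nonneg (h.nonneg x)]
        by_cases hx : x ∈ Icc a (a + τ)
        · exact mul_le_mul_of_nonneg_left (hD x hx) (h.nonneg x)
        · rw [h.supp x hx]; simp
    _ = D := by rw [integral_mul_const, h.int, one_mul]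

/-- the kernel averaged against a bump -/
noncomputable def kb (θ : ℝ → ℝ) (x η : ℝ) : ℂ := ∫ x', θ x' • ker (x - x') η

lemma kb_sub_ker {θ : ℝ → ℝ} {a τ C : ℝ} (h : IsBump θ a τ C) {x η D : ℝ} (hη : η ≠ 0)
    (hD : ∀ x' ∈ Icc a (a + τ), ‖ker (x - x') η - ker (x - a) η‖ ≤ D) :
    ‖kb θ x η - ker (x - a) η‖ ≤ D :=
  h.avg ((ker_continuous hη).comp (by fun_prop)) hD

lemma kb_im {θ : ℝ → ℝ} {a τ C : ℝ} (h : IsBump θ a τ C) {x η : ℝ} (hη : η ≠ 0) :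
    (kb θ x η).im = ∫ x', θ x' • (ker (x - x') η).im := by
  unfold kb
  have h1 : Integrable (fun x' => θ x' • ker (x - x') η) :=
    (h.cont.smul ((ker_continuous hη).comp (by fun_prop))).integrable_of_hasCompactSupport
      h.compact.smul_right
  have := ContinuousLinearMap.integral_comp_comm Complex.imCLM h1
  simp only [Complex.imCLM_apply, Complex.smul_im] at this
  rw [← this]

lemma kb_im_sub_ker {θ : ℝ → ℝ} {a τ C : ℝ} (h : IsBump θ a τ C) {x η D : ℝ} (hη : η ≠ 0)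
    (hD : ∀ x' ∈ Icc a (a + τ), |(ker (x - x') η).im - (ker (x - a) η).im| ≤ D) :
    |(kb θ x η).im - (ker (x - a) η).im| ≤ D := by
  rw [kb_im h hη]
  exact h.avg (g := fun x' => (ker (x - x') η).im)
    (Complex.continuous_im.comp ((ker_continuous hη).comp (by fun_prop))) hD

lemma kb_im_neg (θ : ℝ → ℝ) {a τ C : ℝ} (h : IsBump θ a τ C) (x : ℝ) {η : ℝ} (hη : η ≠ 0) :
    (kb θ x (-η)).im = -(kb θ x η).im := by
  rw [kb_im h hη, kb_im h (neg_ne_zero.2 hη), ← integral_neg]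
  congr 1
  ext x'
  rw [ker_im, ker_im]
  simp only [smul_eq_mul]
  ring

/-! ### differences of the kernel -/

lemma ker_sub_norm {ξ ξ₀ η : ℝ} (hη : η ≠ 0) :
    ‖ker ξ η - ker ξ₀ η‖ = |ξ - ξ₀| * ‖ker ξ η‖ * ‖ker ξ₀ η‖ := by
  unfold ker
  have h1 : (ξ : ℂ) + η * I ≠ 0 := by
    intro h; have := congrArg Complex.im h; simp at this; exact hη this
  have h2 : (ξ₀ : ℂ) + η * I ≠ 0 := by
    intro h; have := congrArg Complex.im h; simp at this; exact hη this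
  have : ((ξ : ℂ) + η * I)⁻¹ - ((ξ₀ : ℂ) + η * I)⁻¹
      = ((ξ₀ - ξ : ℝ) : ℂ) * ((ξ : ℂ) + η * I)⁻¹ * ((ξ₀ : ℂ) + η * I)⁻¹ := by
    push_cast
    field_simp
    ring
  rw [this, norm_mul, norm_mul, Complex.norm_real, Real.norm_eq_abs, abs_sub_comm]

lemma ker_im_sub {ξ ξ₀ η : ℝ} (hη : η ≠ 0) :
    |(ker ξ η).im - (ker ξ₀ η).im| = |η| * |ξ ^ 2 - ξ₀ ^ 2| / ((ξ ^ 2 + η ^ 2) * (ξ₀ ^ 2 + η ^ 2)) := by
  rw [ker_im, ker_im]
  have hp : 0 < η ^ 2 := by positivity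
  have h1 : 0 < ξ ^ 2 + η ^ 2 := by positivity
  have h2 : 0 < ξ₀ ^ 2 + η ^ 2 := by positivity
  have : - η / (ξ ^ 2 + η ^ 2) - - η / (ξ₀ ^ 2 + η ^ 2)
      = η * (ξ ^ 2 - ξ₀ ^ 2) / ((ξ ^ 2 + η ^ 2) * (ξ₀ ^ 2 + η ^ 2)) := by
    field_simp
    ring
  rw [this, abs_div, abs_mul, abs_of_pos (mul_pos h1 h2)]

/-- far bound for the kernel -/
lemma far_norm {x a τ η x' : ℝ} (hη : η ≠ 0) (hτ : 0 < τ) (hR : 2 * τ ≤ |x - a|)
    (hx' : x' ∈ Icc a (a + τ)) :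
    ‖ker (x - x') η - ker (x - a) η‖ ≤ 2 * τ * (|x - a| ^ 2 + η ^ 2)⁻¹ := by
  rw [ker_sub_norm hη]
  have hd : |x - x' - (x - a)| ≤ τ := by
    rw [abs_le]; constructor <;> linarith [hx'.1, hx'.2]
  have hη2 : 0 < η ^ 2 := by positivity
  have hge : |x - a| / 2 ≤ |x - x'| := by
    have h1 := abs_sub_abs_le_abs_sub (x - a) (x - x')
    have h2 : |x - a - (x - x')| ≤ τ := by
      rw [abs_le]; constructor <;> linarith [hx'.1, hx'.2]
    linarith
  have h4 : ‖ker (x - x') η‖ ≤ 2 * ‖ker (x - a) η‖ := by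
    rw [ker_norm, ker_norm, ← div_eq_mul_inv, ← one_div]
    rw [div_le_div_iff₀ (by positivity) (by positivity), one_mul]
    rw [Real.sqrt_le_left (by positivity), mul_pow, Real.sq_sqrt (by positivity)]
    have : (|x - a| / 2) ^ 2 ≤ |x - x'| ^ 2 := pow_le_pow_left₀ (by positivity) hge 2
    rw [div_pow, sq_abs, sq_abs] at this
    nlinarith
  calc |x - x' - (x - a)| * ‖ker (x - x') η‖ * ‖ker (x - a) η‖
      ≤ τ * (2 * ‖ker (x - a) η‖) * ‖ker (x - a) η‖ := by gcongr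
    _ = 2 * τ * ‖ker (x - a) η‖ ^ 2 := by ring
    _ = 2 * τ * (|x - a| ^ 2 + η ^ 2)⁻¹ := by rw [ker_norm_sq, sq_abs]

/-- far bound for the imaginary part -/
lemma far_im {x a τ η x' : ℝ} (hη : η ≠ 0) (hτ : 0 < τ) (hR : 2 * τ ≤ |x - a|)
    (hx' : x' ∈ Icc a (a + τ)) :
    |(ker (x - x') η).im - (ker (x - a) η).im| ≤
      10 * τ * |x - a| * (|x - a| ^ 2 + η ^ 2)⁻¹ / |η| := by
  rw [ker_im_sub hη]
  have hη2 : 0 < η ^ 2 := by positivity
  have hηa : 0 < |η| := abs_pos.2 hη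
  have h2 : |x - x' - (x - a)| ≤ τ := by
    rw [abs_le]; constructor <;> linarith [hx'.1, hx'.2]
  have hge : |x - a| / 2 ≤ |x - x'| := by
    have h1 := abs_sub_abs_le_abs_sub (x - a) (x - x')
    rw [abs_sub_comm] at h2
    linarith
  have hle : |x - x' + (x - a)| ≤ 5 / 2 * |x - a| := by
    have h3 : x - x' + (x - a) = (x - x' - (x - a)) + 2 * (x - a) := by ring
    rw [h3]
    refine (abs_add_le _ _).trans ?_
    rw [abs_mul, abs_two]
    linarith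
  have hnum : |(x - x') ^ 2 - (x - a) ^ 2| ≤ τ * (5 / 2 * |x - a|) := by
    have : (x - x') ^ 2 - (x - a) ^ 2 = (x - x' - (x - a)) * (x - x' + (x - a)) := by ring
    rw [this, abs_mul]
    gcongr
  have hden : (|x - a| ^ 2 + η ^ 2) / 4 ≤ (x - x') ^ 2 + η ^ 2 := by
    have : (|x - a| / 2) ^ 2 ≤ |x - x'| ^ 2 := pow_le_pow_left₀ (by positivity) hge 2
    rw [div_pow, sq_abs (x - x')] at this
    nlinarith
  have hS : 0 < |x - a| ^ 2 + η ^ 2 := by positivity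
  rw [← sq_abs (x - a)] at hnum ⊢
  rw [sq_abs (x-a)] at hnum
  calc |η| * |(x - x') ^ 2 - |x - a| ^ 2| / (((x - x') ^ 2 + η ^ 2) * (|x - a| ^ 2 + η ^ 2))
      ≤ |η| * (τ * (5 / 2 * |x - a|)) / (((|x - a| ^ 2 + η ^ 2) / 4) * (|x - a| ^ 2 + η ^ 2)) := by
        rw [sq_abs (x - a)] at *
        gcongr
    _ = 10 * τ * |x - a| * (|x - a| ^ 2 + η ^ 2)⁻¹ * (|η| ^ 2 / (|x - a| ^ 2 + η ^ 2)) / |η| := by
        field_simp
        ring
    _ ≤ 10 * τ * |x - a| * (|x - a| ^ 2 + η ^ 2)⁻¹ * 1 / |η| := by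
        gcongr
        rw [div_le_one hS, sq_abs]
        nlinarith [sq_nonneg |x - a|]
    _ = _ := by rw [mul_one]

end Pool.Agent.BG
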