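import Mathlib
import Pool.Agent.Lib.MP_f76209_pr.Kernel

set_option autoImplicit false
open MeasureTheory Set Filter Topology Complex

namespace Pool.Agent.BG

variable {θ₁ θ₂ θ : ℝ → ℝ} {a τ C x η : ℝ}

lemma dk_far (h1 : IsBump θ₁ a τ C) (h2 : IsBump θ₂ a τ C) (hη : η ≠ 0) (hτ : 0 < τ)
    (hR : 2 * τ ≤ |x - a|) :
    ‖kb θ₁ x η - kb θ₂ x η‖ ≤ 4 * τ * (|x - a| ^ 2 + η ^ 2)⁻¹ := by
  have e1 := kb_sub_ker h1 hη (fun x' hx' => far_norm hη hτ hR hx')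
  have e2 := kb_sub_ker h2 hη (fun x' hx' => far_norm hη hτ hR hx')
  have : kb θ₁ x η - kb θ₂ x η = (kb θ₁ x η - ker (x - a) η) - (kb θ₂ x η - ker (x - a) η) := by ring
  rw [this]
  refine (norm_sub_le _ _).trans ?_
  linarith

lemma dk_im_far (h1 : IsBump θ₁ a τ C) (h2 : IsBump θ₂ a τ C) (hη : η ≠ 0) (hτ : 0 < τ)
    (hR : 2 * τ ≤ |x - a|) :
    |(kb θ₁ x η).im - (kb θ₂ x η).im| ≤ 20 * τ * |x - a| * (|x - a| ^ 2 + η ^ 2)⁻¹ / |η| := by
  have e1 := kb_im_sub_ker h1 hη (fun x' hx' => far_im hη hτ hR hx')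
  have e2 := kb_im_sub_ker h2 hη (fun x' hx' => far_im hη hτ hR hx')
  have : (kb θ₁ x η).im - (kb θ₂ x η).im
      = ((kb θ₁ x η).im - (ker (x - a) η).im) - ((kb θ₂ x η).im - (ker (x - a) η).im) := by ring
  rw [this]
  refine (abs_sub _ _).trans ?_
  refine (add_le_add e1 e2).trans (le_of_eq ?_)
  ring

lemma near_norm {x' : ℝ} (hτ : 0 < τ) (hη : τ ≤ |η|) (hx' : x' ∈ Icc a (a + τ)) :
    ‖ker (x - x') η - ker (x - a) η‖ ≤ τ / η ^ 2 := by
  have hη0 : η ≠ 0 := by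
    intro h; rw [h, abs_zero] at hη; linarith
  rw [ker_sub_norm hη0]
  have hd : |x - x' - (x - a)| ≤ τ := by
    rw [abs_le]; constructor <;> linarith [hx'.1, hx'.2]
  have h1 := ker_norm_le_abs (x - x') hη0
  have h2 := ker_norm_le_abs (x - a) hη0
  calc |x - x' - (x - a)| * ‖ker (x - x') η‖ * ‖ker (x - a) η‖ ≤ τ * |η|⁻¹ * |η|⁻¹ := by
        gcongr
    _ = τ / η ^ 2 := by rw [← sq_abs η]; field_simp

lemma near_im {x' : ℝ} (hτ : 0 < τ) (hη : τ ≤ |η|) (hR : |x - a| < 2 * τ)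
    (hx' : x' ∈ Icc a (a + τ)) :
    |(ker (x - x') η).im - (ker (x - a) η).im| ≤ 9 * τ ^ 2 / |η| ^ 3 := by
  have hη0 : η ≠ 0 := by
    intro h; rw [h, abs_zero] at hη; linarith
  rw [ker_im_sub hη0]
  have hη2 : 0 < η ^ 2 := by positivity
  have hηa : 0 < |η| := abs_pos.2 hη0
  have hR' := abs_lt.1 hR
  have h1 : (x - x') ^ 2 ≤ 9 * τ ^ 2 := by
    have : |x - x'| ≤ 3 * τ := by rw [abs_le]; constructor <;> linarith [hx'.1, hx'.2]
    calc (x - x') ^ 2 = |x - x'| ^ 2 := (sq_abs _).symm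
      _ ≤ (3 * τ) ^ 2 := by gcongr
      _ = 9 * τ ^ 2 := by ring
  have h2 : (x - a) ^ 2 ≤ 9 * τ ^ 2 := by
    calc (x - a) ^ 2 = |x - a| ^ 2 := (sq_abs _).symm
      _ ≤ (3 * τ) ^ 2 := by gcongr; linarith
      _ = 9 * τ ^ 2 := by ring
  have h3 : |(x - x') ^ 2 - (x - a) ^ 2| ≤ 9 * τ ^ 2 := by
    rw [abs_le]; constructor <;> nlinarith [sq_nonneg (x - x'), sq_nonneg (x - a)]
  have hden : |η| ^ 4 ≤ ((x - x') ^ 2 + η ^ 2) * ((x - a) ^ 2 + η ^ 2) := by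
    have : |η| ^ 4 = η ^ 2 * η ^ 2 := by rw [← sq_abs η]; ring
    rw [this]
    gcongr <;> nlinarith [sq_nonneg (x - x'), sq_nonneg (x - a)]
  calc |η| * |(x - x') ^ 2 - (x - a) ^ 2| / (((x - x') ^ 2 + η ^ 2) * ((x - a) ^ 2 + η ^ 2))
      ≤ |η| * (9 * τ ^ 2) / |η| ^ 4 := by gcongr
    _ = 9 * τ ^ 2 / |η| ^ 3 := by field_simp

lemma dk_near_big (h1 : IsBump θ₁ a τ C) (h2 : IsBump θ₂ a τ C) (hτ : 0 < τ) (hη : τ ≤ |η|) :
    ‖kb θ₁ x η - kb θ₂ x η‖ ≤ 2 * (τ / η ^ 2) := by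
  have hη0 : η ≠ 0 := by
    intro h; rw [h, abs_zero] at hη; linarith
  have e1 := kb_sub_ker (x := x) h1 hη0 (fun x' hx' => near_norm hτ hη hx')
  have e2 := kb_sub_ker (x := x) h2 hη0 (fun x' hx' => near_norm hτ hη hx')
  have : kb θ₁ x η - kb θ₂ x η = (kb θ₁ x η - ker (x - a) η) - (kb θ₂ x η - ker (x - a) η) := by ring
  rw [this]
  refine (norm_sub_le _ _).trans ?_
  linarith

lemma dk_im_near_big (h1 : IsBump θ₁ a τ C) (h2 : IsBump θ₂ a τ C) (hτ : 0 < τ) (hη : τ ≤ |η|)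
    (hR : |x - a| < 2 * τ) :
    |(kb θ₁ x η).im - (kb θ₂ x η).im| ≤ 18 * τ ^ 2 / |η| ^ 3 := by
  have hη0 : η ≠ 0 := by
    intro h; rw [h, abs_zero] at hη; linarith
  have e1 := kb_im_sub_ker h1 hη0 (fun x' hx' => near_im hτ hη hR hx')
  have e2 := kb_im_sub_ker h2 hη0 (fun x' hx' => near_im hτ hη hR hx')
  have : (kb θ₁ x η).im - (kb θ₂ x η).im
      = ((kb θ₁ x η).im - (ker (x - a) η).im) - ((kb θ₂ x η).im - (ker (x - a) η).im) := by ring
  rw [this]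
  refine (abs_sub _ _).trans ?_
  refine (add_le_add e1 e2).trans (le_of_eq ?_)
  ring

lemma kb_im_small (h : IsBump θ a τ C) (hτ : 0 < τ) (hη : η ≠ 0) :
    |(kb θ x η).im| ≤ Real.pi * C / τ := by
  rw [kb_im h hη]
  have hηa : 0 < |η| := abs_pos.2 hη
  have hint : Integrable (fun x' : ℝ => C / τ * |η| * (|η| ^ 2 + (x - x') ^ 2)⁻¹) :=
    ((cauchy_integrable hηa).comp_sub_left x).const_mul _
  have hb : ∀ x', ‖θ x' • (ker (x - x') η).im‖ ≤ C / τ * |η| * (|η| ^ 2 + (x - x') ^ 2)⁻¹ := by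
    intro x'
    rw [norm_smul, Real.norm_eq_abs, Real.norm_eq_abs, abs_of_nonneg (h.nonneg x'), ker_im, abs_div,
      abs_neg, abs_of_nonneg (by positivity : (0:ℝ) ≤ (x - x') ^ 2 + η ^ 2), sq_abs, div_eq_mul_inv,
      add_comm ((x - x') ^ 2), ← mul_assoc]
    gcongr
    exact h.le x'
  calc |∫ x', θ x' • (ker (x - x') η).im| ≤ ∫ x', C / τ * |η| * (|η| ^ 2 + (x - x') ^ 2)⁻¹ :=
        norm_integral_le_of_norm_le hint (Eventually.of_forall hb)
    _ = C / τ * |η| * ∫ x', (|η| ^ 2 + (x - x') ^ 2)⁻¹ := integral_const_mul _ _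
    _ = C / τ * |η| * (Real.pi / |η|) := by
        rw [integral_sub_left_eq_self (fun u : ℝ => (|η| ^ 2 + u ^ 2)⁻¹) volume x,
          cauchy_integral hηa]
    _ = Real.pi * C / τ := by field_simp

lemma kb_small (h : IsBump θ a τ C) (hC : 0 ≤ C) (hτ : 0 < τ) (hη : η ≠ 0) (hR : |x - a| < 2 * τ) :
    ‖kb θ x η‖ ≤ 7 * C * hs η / Real.sqrt τ := by
  obtain ⟨hi, hv⟩ := hs_int (R := 3 * τ) (by positivity)
  have hR' := abs_lt.1 hR
  have hio : IntegrableOn hs (Ioc (-(3 * τ)) (3 * τ)) :=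
    (intervalIntegrable_iff_integrableOn_Ioc_of_le (by linarith)).1 hi
  have hv' : ∫ u, (Ioc (-(3 * τ)) (3 * τ)).indicator hs u = 4 * Real.sqrt (3 * τ) := by
    rw [integral_indicator measurableSet_Ioc, ← intervalIntegral.integral_of_le (by linarith), hv]
  have hint : Integrable (fun x' : ℝ => C / τ * hs η * (Ioc (-(3 * τ)) (3 * τ)).indicator hs (x - x')) :=
    (((integrable_indicator_iff measurableSet_Ioc).2 hio).comp_sub_left x).const_mul _
  have hb : ∀ x', x' ≠ x → ‖θ x' • ker (x - x') η‖ ≤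
      C / τ * hs η * (Ioc (-(3 * τ)) (3 * τ)).indicator hs (x - x') := by
    intro x' hxx
    rw [norm_smul, Real.norm_eq_abs, abs_of_nonneg (h.nonneg x')]
    by_cases hx : x' ∈ Icc a (a + τ)
    · have hmem : x - x' ∈ Ioc (-(3 * τ)) (3 * τ) := by
        constructor <;> linarith [hx.1, hx.2, hR'.1, hR'.2]
      rw [indicator_of_mem hmem]
      have hk := ker_norm_le_hs (x - x') η hη (sub_ne_zero.2 hxx.symm)
      calc θ x' * ‖ker (x - x') η‖ ≤ C / τ * (hs (x - x') * hs η) := by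
            apply mul_le_mul (h.le x') hk (norm_nonneg _) (by positivity)
        _ = _ := by ring
    · rw [h.supp x' hx, zero_mul]
      have := hs_nonneg η
      have h2 : 0 ≤ (Ioc (-(3 * τ)) (3 * τ)).indicator hs (x - x') :=
        indicator_nonneg (fun u _ => hs_nonneg u) _
      positivity
  have hae : ∀ᵐ x' : ℝ, ‖θ x' • ker (x - x') η‖ ≤
      C / τ * hs η * (Ioc (-(3 * τ)) (3 * τ)).indicator hs (x - x') := by
    have : ∀ᵐ x' : ℝ, x' ≠ x := by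
      simp [ae_iff]
    filter_upwards [this] with x' hx' using hb x' hx'
  calc ‖kb θ x η‖ ≤ ∫ x', C / τ * hs η * (Ioc (-(3 * τ)) (3 * τ)).indicator hs (x - x') :=
        norm_integral_le_of_norm_le hint hae
    _ = C / τ * hs η * ∫ x', (Ioc (-(3 * τ)) (3 * τ)).indicator hs (x - x') := integral_const_mul _ _
    _ = C / τ * hs η * (4 * Real.sqrt (3 * τ)) := by
        rw [integral_sub_left_eq_self (fun u : ℝ => (Ioc (-(3 * τ)) (3 * τ)).indicator hs u) volume x,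
          hv']
    _ ≤ 7 * C * hs η / Real.sqrt τ := by
        have h3 : Real.sqrt (3 * τ) = Real.sqrt 3 * Real.sqrt τ := Real.sqrt_mul (by norm_num) _
        have h4 : Real.sqrt 3 ≤ 7 / 4 := by
          rw [Real.sqrt_le_left (by norm_num)]; norm_num
        have h5 : 0 < Real.sqrt τ := Real.sqrt_pos.2 hτ
        have h6 : Real.sqrt τ ^ 2 = τ := Real.sq_sqrt hτ.le
        have h7 := hs_nonneg η
        have e : C / τ * hs η * (4 * (Real.sqrt 3 * Real.sqrt τ))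
            = 4 * Real.sqrt 3 * (C * hs η / Real.sqrt τ) := by
          nth_rewrite 1 [← h6]
          field_simp
        rw [h3, e]
        calc 4 * Real.sqrt 3 * (C * hs η / Real.sqrt τ) ≤ 4 * (7/4) * (C * hs η / Real.sqrt τ) := by
              gcongr
          _ = _ := by ring

/-- majorant of the kernel difference in the near zone -/
noncomputable def nearC (C τ η : ℝ) : ℝ :=
  14 * C / Real.sqrt τ * (Ioc (-τ) τ).indicator hs η + 4 * τ * (τ ^ 2 + η ^ 2)⁻¹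

lemma nearC_nonneg (hC : 0 ≤ C) (hτ : 0 < τ) : 0 ≤ nearC C τ η := by
  unfold nearC
  have : 0 ≤ (Ioc (-τ) τ).indicator hs η := indicator_nonneg (fun u _ => hs_nonneg u) _
  positivity

lemma nearC_integrable (hτ : 0 < τ) : Integrable (nearC C τ) := by
  obtain ⟨hi, hv⟩ := hs_int (R := τ) hτ.le
  have hio : IntegrableOn hs (Ioc (-τ) τ) :=
    (intervalIntegrable_iff_integrableOn_Ioc_of_le (by linarith)).1 hi
  exact (((integrable_indicator_iff measurableSet_Ioc).2 hio).const_mul _).add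
    ((cauchy_integrable hτ).const_mul _)

lemma nearC_integral (hτ : 0 < τ) : ∫ η, nearC C τ η = 56 * C + 4 * Real.pi := by
  obtain ⟨hi, hv⟩ := hs_int (R := τ) hτ.le
  have hio : IntegrableOn hs (Ioc (-τ) τ) :=
    (intervalIntegrable_iff_integrableOn_Ioc_of_le (by linarith)).1 hi
  unfold nearC
  rw [integral_add ((((integrable_indicator_iff measurableSet_Ioc).2 hio)).const_mul _)
    ((cauchy_integrable hτ).const_mul _), integral_const_mul, integral_const_mul,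
    cauchy_integral hτ, integral_indicator measurableSet_Ioc,
    ← intervalIntegral.integral_of_le (by linarith), hv]
  have h5 : 0 < Real.sqrt τ := Real.sqrt_pos.2 hτ
  field_simp
  ring

lemma dk_near (h1 : IsBump θ₁ a τ C) (h2 : IsBump θ₂ a τ C) (hC : 0 ≤ C) (hτ : 0 < τ) (hη : η ≠ 0)
    (hR : |x - a| < 2 * τ) :
    ‖kb θ₁ x η - kb θ₂ x η‖ ≤ nearC C τ η := by
  unfold nearC
  have hi : 0 ≤ (Ioc (-τ) τ).indicator hs η := indicator_nonneg (fun u _ => hs_nonneg u) _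
  by_cases h : |η| < τ
  · have hmem : η ∈ Ioc (-τ) τ := ⟨(abs_lt.1 h).1, (abs_lt.1 h).2.le⟩
    rw [indicator_of_mem hmem]
    have e1 := kb_small h1 hC hτ hη hR
    have e2 := kb_small h2 hC hτ hη hR
    have e3 : 0 ≤ 4 * τ * (τ ^ 2 + η ^ 2)⁻¹ := by positivity
    calc ‖kb θ₁ x η - kb θ₂ x η‖ ≤ ‖kb θ₁ x η‖ + ‖kb θ₂ x η‖ := norm_sub_le _ _
      _ ≤ 7 * C * hs η / Real.sqrt τ + 7 * C * hs η / Real.sqrt τ := add_le_add e1 e2
      _ = 14 * C / Real.sqrt τ * hs η := by ring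
      _ ≤ _ := le_add_of_nonneg_right e3
  · have h' : τ ≤ |η| := not_lt.1 h
    have e1 := dk_near_big (x := x) h1 h2 hτ h'
    have hη2 : 0 < η ^ 2 := by positivity
    have e2 : 2 * (τ / η ^ 2) ≤ 4 * τ * (τ ^ 2 + η ^ 2)⁻¹ := by
      rw [← div_eq_mul_inv, ← mul_div_assoc]
      rw [div_le_div_iff₀ hη2 (by positivity)]
      have : τ ^ 2 ≤ η ^ 2 := by rw [← sq_abs η]; gcongr
      nlinarith
    have e3 : 0 ≤ 14 * C / Real.sqrt τ * (Ioc (-τ) τ).indicator hs η := by positivity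
    linarith

lemma dk_im_near (h1 : IsBump θ₁ a τ C) (h2 : IsBump θ₂ a τ C) (hC : 0 ≤ C) (hτ : 0 < τ) (hη : η ≠ 0)
    (hR : |x - a| < 2 * τ) :
    |(kb θ₁ x η).im - (kb θ₂ x η).im| ≤
      (36 + 4 * Real.pi * C) * τ ^ 2 * (τ ^ 2 + η ^ 2)⁻¹ / |η| := by
  have hηa : 0 < |η| := abs_pos.2 hη
  have hη2 : 0 < η ^ 2 := by positivity
  have hpi := Real.pi_pos
  by_cases h : |η| < τ
  · have e1 := kb_im_small (x := x) h1 hτ hη
    have e2 := kb_im_small (x := x) h2 hτ hη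
    have e3 : |(kb θ₁ x η).im - (kb θ₂ x η).im| ≤ 2 * (Real.pi * C / τ) := by
      refine (abs_sub _ _).trans ?_
      linarith
    refine e3.trans ?_
    rw [le_div_iff₀ hηa]
    have e4 : 1 ≤ 2 * (τ ^ 2 * (τ ^ 2 + η ^ 2)⁻¹) := by
      rw [← div_eq_mul_inv, ← mul_div_assoc, le_div_iff₀ (by positivity)]
      have : η ^ 2 ≤ τ ^ 2 := by rw [← sq_abs η]; gcongr
      linarith
    calc 2 * (Real.pi * C / τ) * |η| ≤ 2 * (Real.pi * C / τ) * τ := by gcongr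
      _ = 2 * Real.pi * C * 1 := by field_simp
      _ ≤ 2 * Real.pi * C * (2 * (τ ^ 2 * (τ ^ 2 + η ^ 2)⁻¹)) := by gcongr
      _ ≤ (36 + 4 * Real.pi * C) * τ ^ 2 * (τ ^ 2 + η ^ 2)⁻¹ := by
          have : 0 ≤ τ ^ 2 * (τ ^ 2 + η ^ 2)⁻¹ := by positivity
          nlinarith
  · have h' : τ ≤ |η| := not_lt.1 h
    refine (dk_im_near_big h1 h2 hτ h' hR).trans ?_
    have : 18 * τ ^ 2 / |η| ^ 3 = 18 * τ ^ 2 / |η| ^ 2 / |η| := by field_simp
    rw [this]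
    gcongr
    rw [sq_abs, ← div_eq_mul_inv, div_le_div_iff₀ hη2 (by positivity)]
    have : τ ^ 2 ≤ η ^ 2 := by rw [← sq_abs η]; gcongr
    have h3 : 0 ≤ Real.pi * C * τ ^ 2 * η ^ 2 := by positivity
    nlinarith [mul_nonneg (sq_nonneg τ) (sub_nonneg.2 this)]

end Pool.Agent.BG
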