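import Mathlib
import Pool.Agent.Lib.MP_f76209_pr.Cascade

set_option autoImplicit false
open Set Filter Topology

namespace Pool.Agent.BG

/-- length of the intervals of generation `n` -/
noncomputable def tau (N : ℕ) (τ₀ : ℝ) (n : ℕ) : ℝ := τ₀ / (N : ℝ) ^ n

lemma tau_pos {N : ℕ} {τ₀ : ℝ} (hN : 0 < N) (hτ : 0 < τ₀) (n : ℕ) : 0 < tau N τ₀ n := by
  unfold tau; positivity

lemma tau_succ {N : ℕ} {τ₀ : ℝ} (hN : 0 < N) (n : ℕ) : tau N τ₀ n = N * tau N τ₀ (n + 1) := by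
  unfold tau
  have : (N : ℝ) ≠ 0 := by positivity
  rw [pow_succ]
  field_simp

lemma tau_add {N : ℕ} {τ₀ : ℝ} (hN : 0 < N) (n m : ℕ) : tau N τ₀ n = (N : ℝ) ^ m * tau N τ₀ (n + m) := by
  unfold tau
  have : (N : ℝ) ≠ 0 := by positivity
  rw [pow_add]
  field_simp

lemma card_filter_int_le (A : ℕ) (T : Finset ℤ) :
    ((Finset.range A).filter (fun q : ℕ => (q : ℤ) ∈ T)).card ≤ T.card := by
  apply Finset.card_le_card_of_injOn (fun q : ℕ => (q : ℤ))
  · intro q hq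
    exact (Finset.mem_filter.1 hq).2
  · intro a _ b _ h
    have h' : (a : ℤ) = (b : ℤ) := h
    exact Int.ofNat.inj h'

lemma shell_count {N : ℕ} (hN : 0 < N) {τ₀ : ℝ} (hτ : 0 < τ₀) (n i : ℕ) (hi : i ≤ n) (x : ℝ)
    (δ : ℕ → ℝ) (hδ : ∀ j, 0 ≤ δ j) (B : ℝ) (hB : 0 ≤ B)
    (hd : ∀ q, dsum N (n + 1 - i) δ q ≤ B) :
    ∑ j ∈ Finset.range (N ^ (n + 1)),
      (if |x - ((j / N : ℕ) : ℝ) * tau N τ₀ n| < 2 * tau N τ₀ i then δ j else 0) ≤ 5 * B := by
  obtain ⟨k, rfl⟩ := Nat.exists_eq_add_of_le hi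
  have hm : i + k + 1 - i = k + 1 := by omega
  rw [hm] at hd
  set T : Finset ℤ := Finset.Icc (⌊x / tau N τ₀ i⌋ - 2) (⌊x / tau N τ₀ i⌋ + 2) with hT
  have hcard : (T.card : ℝ) ≤ 5 := by
    rw [hT, Int.card_Icc]
    have : (⌊x / tau N τ₀ i⌋ + 2 + 1 - (⌊x / tau N τ₀ i⌋ - 2)).toNat = 5 := by
      have : ⌊x / tau N τ₀ i⌋ + 2 + 1 - (⌊x / tau N τ₀ i⌋ - 2) = 5 := by ring
      rw [this]; rfl
    rw [this]; norm_num
  have hpow : N ^ (i + k + 1) = N ^ i * N ^ (k + 1) := by rw [← pow_add, add_assoc]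
  rw [hpow, sum_range_mul']
  have hti := tau_pos hN hτ i
  have hNr : (0 : ℝ) < N := by exact_mod_cast hN
  have hrel : tau N τ₀ i = (N : ℝ) ^ k * tau N τ₀ (i + k) := tau_add hN i k
  have h1 : ∀ q ∈ Finset.range (N ^ i), ∑ e ∈ Finset.range (N ^ (k + 1)),
      (if |x - (((N ^ (k + 1) * q + e) / N : ℕ) : ℝ) * tau N τ₀ (i + k)| < 2 * tau N τ₀ i
        then δ (N ^ (k + 1) * q + e) else 0)
      ≤ if (q : ℤ) ∈ T then B else 0 := by
    intro q _
    split_ifs with hq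
    · refine le_trans ?_ (hd q)
      unfold dsum
      apply Finset.sum_le_sum
      intro e _
      split_ifs
      · exact le_rfl
      · exact hδ _
    · apply le_of_eq
      apply Finset.sum_eq_zero
      intro e he
      rw [if_neg]
      intro hlt
      apply hq
      have he' := Finset.mem_range.1 he
      have hdiv : (N ^ (k + 1) * q + e) / N = N ^ k * q + e / N := by
        rw [pow_succ, mul_comm (N ^ k) N, mul_assoc, Nat.mul_add_div hN]
      have hee : e / N < N ^ k := by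
        rw [Nat.div_lt_iff_lt_mul hN, ← pow_succ]; exact he'
      rw [hdiv] at hlt
      have hcast : ((N ^ k * q + e / N : ℕ) : ℝ) * tau N τ₀ (i + k)
          = q * tau N τ₀ i + ((e / N : ℕ) : ℝ) * tau N τ₀ (i + k) := by
        rw [hrel]; push_cast; ring
      rw [hcast] at hlt
      have h3 : 0 ≤ ((e / N : ℕ) : ℝ) * tau N τ₀ (i + k) := by
        have := tau_pos hN hτ (i + k); positivity
      have h4 : ((e / N : ℕ) : ℝ) * tau N τ₀ (i + k) < tau N τ₀ i := by
        rw [hrel]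
        have : ((e / N : ℕ) : ℝ) < (N : ℝ) ^ k := by exact_mod_cast hee
        exact mul_lt_mul_of_pos_right this (tau_pos hN hτ (i + k))
      have h5 := abs_lt.1 hlt
      have h6 : (q : ℝ) < x / tau N τ₀ i + 2 := by
        rw [← sub_lt_iff_lt_add, lt_div_iff₀ hti]; nlinarith [h5.1]
      have h7 : x / tau N τ₀ i < (q : ℝ) + 3 := by
        rw [div_lt_iff₀ hti]; nlinarith [h5.2]
      have h8 := Int.floor_le (x / tau N τ₀ i)
      have h9 := Int.lt_floor_add_one (x / tau N τ₀ i)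
      have h10 : ((q : ℤ) : ℝ) < ((⌊x / tau N τ₀ i⌋ + 3 : ℤ) : ℝ) := by push_cast; linarith
      have h11 : ((⌊x / tau N τ₀ i⌋ - 3 : ℤ) : ℝ) < ((q : ℤ) : ℝ) := by push_cast; linarith
      have h12 := Int.cast_lt.1 h10
      have h13 := Int.cast_lt.1 h11
      rw [hT, Finset.mem_Icc]
      constructor <;> omega
  refine (Finset.sum_le_sum h1).trans ?_
  rw [← Finset.sum_filter, Finset.sum_const, nsmul_eq_mul]
  have h2 : (((Finset.range (N ^ i)).filter (fun q : ℕ => (q : ℤ) ∈ T)).card : ℝ) ≤ 5 := by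
    refine le_trans ?_ hcard
    exact_mod_cast card_filter_int_le (N ^ i) T
  gcongr

/-- the shell decomposition -/
lemma shell_sum {N : ℕ} (hN : 0 < N) {τ₀ : ℝ} (hτ : 0 < τ₀) (n : ℕ) (x : ℝ)
    (δ κ : ℕ → ℝ) (hδ : ∀ j, 0 ≤ δ j) (B : ℕ → ℝ) (hB : ∀ i, 0 ≤ B i) (Bf : ℝ)
    (hd : ∀ i ≤ n, ∀ q, dsum N (n + 1 - i) δ q ≤ B i)
    (hdf : dsum N (n + 1) δ 0 ≤ Bf)
    (b : ℕ → ℝ) (bfar : ℝ) (hb : ∀ i, 0 ≤ b i) (hbf : 0 ≤ bfar)
    (hnear : ∀ j, |x - ((j / N : ℕ) : ℝ) * tau N τ₀ n| < 2 * tau N τ₀ n → κ j ≤ b n)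
    (hshell : ∀ i < n, ∀ j, 2 * tau N τ₀ (i + 1) ≤ |x - ((j / N : ℕ) : ℝ) * tau N τ₀ n| →
      |x - ((j / N : ℕ) : ℝ) * tau N τ₀ n| < 2 * tau N τ₀ i → κ j ≤ b i)
    (hfar : ∀ j, 2 * tau N τ₀ 0 ≤ |x - ((j / N : ℕ) : ℝ) * tau N τ₀ n| → κ j ≤ bfar) :
    ∑ j ∈ Finset.range (N ^ (n + 1)), κ j * δ j ≤
      ∑ i ∈ Finset.range (n + 1), b i * (5 * B i) + bfar * Bf := by
  classical
  have h1 : ∀ j ∈ Finset.range (N ^ (n + 1)), κ j * δ j ≤
      ∑ i ∈ Finset.range (n + 1), b i *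
        (if |x - ((j / N : ℕ) : ℝ) * tau N τ₀ n| < 2 * tau N τ₀ i then δ j else 0) + bfar * δ j := by
    intro j _
    have hnn : ∀ i ∈ Finset.range (n + 1), 0 ≤ b i *
        (if |x - ((j / N : ℕ) : ℝ) * tau N τ₀ n| < 2 * tau N τ₀ i then δ j else 0) := by
      intro i _
      apply mul_nonneg (hb i)
      split_ifs
      · exact hδ j
      · exact le_rfl
    by_cases hf : 2 * tau N τ₀ 0 ≤ |x - ((j / N : ℕ) : ℝ) * tau N τ₀ n|
    · have := mul_le_mul_of_nonneg_right (hfar j hf) (hδ j)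
      have h2 := Finset.sum_nonneg hnn
      linarith
    · push Not at hf
      -- the largest `i ≤ n` with `R < 2 τ_i`
      set P : ℕ → Prop := fun i => |x - ((j / N : ℕ) : ℝ) * tau N τ₀ n| < 2 * tau N τ₀ i with hP
      set i := Nat.findGreatest P n with hi
      have hPi : P i := Nat.findGreatest_spec (P := P) (Nat.zero_le n) hf
      have hin : i ≤ n := Nat.findGreatest_le n
      have hκ : κ j ≤ b i := by
        rcases hin.lt_or_eq with h | h
        · apply hshell i h j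
          · by_contra hc
            push Not at hc
            exact Nat.findGreatest_is_greatest (P := P) (n := n) (k := i + 1) (Nat.lt_succ_self i) h hc
          · exact hPi
        · have hn := hnear j
          rw [h]
          apply hn
          have := hPi
          rw [h] at this
          exact this
      have h3 : b i * δ j ≤ ∑ i ∈ Finset.range (n + 1), b i *
          (if |x - ((j / N : ℕ) : ℝ) * tau N τ₀ n| < 2 * tau N τ₀ i then δ j else 0) := by
        have := Finset.single_le_sum hnn (Finset.mem_range.2 (Nat.lt_succ_of_le hin))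
        rw [if_pos hPi] at this
        exact this
      have h4 := mul_le_mul_of_nonneg_right hκ (hδ j)
      have h5 := mul_nonneg hbf (hδ j)
      linarith
  refine (Finset.sum_le_sum h1).trans ?_
  rw [Finset.sum_add_distrib, Finset.sum_comm]
  apply add_le_add
  · apply Finset.sum_le_sum
    intro i hi
    have hi' := Nat.lt_succ_iff.1 (Finset.mem_range.1 hi)
    rw [← Finset.mul_sum]
    apply mul_le_mul_of_nonneg_left _ (hb i)
    exact shell_count hN hτ n i hi' x δ hδ _ (hB i) (hd i hi')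
  · rw [← Finset.mul_sum]
    apply mul_le_mul_of_nonneg_left _ hbf
    unfold dsum at hdf
    simpa using hdf

end Pool.Agent.BG
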