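import Mathlib
import Pool.Agent.Lib.MP_f76209_pr.Kernel2
import Pool.Agent.Lib.MP_f76209_pr.Shell

set_option autoImplicit false
open MeasureTheory Set Filter Topology Complex

namespace Pool.Agent.BG

/-! ### the bumps in time -/

noncomputable def bumpT : ContDiffBump (1/2 : ℝ) := ⟨1/4, 1/2, by norm_num, by norm_num⟩

noncomputable def Th (x : ℝ) : ℝ := bumpT.normed volume x

lemma Th_contDiff {n : ℕ∞} : ContDiff ℝ n Th := bumpT.contDiff_normed
lemma Th_nonneg (x : ℝ) : 0 ≤ Th x := bumpT.nonneg_normed x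
lemma Th_int : ∫ x, Th x = 1 := bumpT.integral_normed
lemma Th_zero {x : ℝ} (hx : x ∉ Icc (0:ℝ) 1) : Th x = 0 := by
  have h : x ∉ Function.support (bumpT.normed volume) := by
    rw [bumpT.support_normed_eq]
    intro h
    apply hx
    rw [Metric.mem_ball, Real.dist_eq] at h
    have h2 : |x - 1/2| < 1/2 := h
    have := abs_lt.1 h2
    constructor <;> linarith
  exact Function.notMem_support.1 h

lemma Th_bound : ∃ C : ℝ, 0 < C ∧ ∀ x, Th x ≤ C := by
  obtain ⟨C, hC⟩ := (bumpT.hasCompactSupport_normed (μ := volume)).exists_bound_of_continuous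
    bumpT.continuous_normed
  refine ⟨max C 1, by positivity, fun x => ?_⟩
  exact (le_abs_self _).trans ((hC x).trans (le_max_left _ _))

noncomputable def theta (N : ℕ) (τ₀ : ℝ) (n j : ℕ) (x : ℝ) : ℝ :=
  (tau N τ₀ n)⁻¹ * Th (x / tau N τ₀ n - j)

section
variable {N : ℕ} {τ₀ : ℝ} {C : ℝ}

lemma theta_isBump (hN : 0 < N) (hτ : 0 < τ₀) (hC : ∀ x, Th x ≤ C) (n j : ℕ) :
    IsBump (theta N τ₀ n j) (j * tau N τ₀ n) (tau N τ₀ n) C := by
  have ht := tau_pos hN hτ n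
  refine ⟨?_, ?_, ?_, ?_, ?_⟩
  · unfold theta
    have := (Th_contDiff (n := 0)).continuous
    fun_prop
  · intro x; unfold theta; have := Th_nonneg (x / tau N τ₀ n - j); positivity
  · intro x hx
    unfold theta
    rw [Th_zero, mul_zero]
    intro h
    apply hx
    constructor
    · have := h.1
      rw [sub_nonneg, le_div_iff₀ ht] at this
      exact this
    · have := h.2
      rw [sub_le_iff_le_add, div_le_iff₀ ht] at this
      linarith
  · unfold theta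
    rw [integral_const_mul, Measure.integral_comp_div (fun u => Th (u - j)) (tau N τ₀ n),
      integral_sub_right_eq_self (fun u => Th u), Th_int, abs_of_pos ht]
    simp only [smul_eq_mul, mul_one]
    field_simp
  · intro x
    unfold theta
    calc (tau N τ₀ n)⁻¹ * Th (x / tau N τ₀ n - j) ≤ (tau N τ₀ n)⁻¹ * C := by
          gcongr; exact hC _
      _ = C / tau N τ₀ n := by rw [div_eq_inv_mul]

lemma theta_parent (hN : 0 < N) (hτ : 0 < τ₀) (hC0 : 0 < C) (hC : ∀ x, Th x ≤ C) (n j : ℕ) :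
    IsBump (theta N τ₀ n j) (j * tau N τ₀ n) (tau N τ₀ n) (C * N) := by
  have h := theta_isBump hN hτ hC n j
  refine ⟨h.cont, h.nonneg, h.supp, h.int, fun x => (h.le x).trans ?_⟩
  have ht := tau_pos hN hτ n
  have : (1:ℝ) ≤ N := by exact_mod_cast hN
  gcongr
  nlinarith

lemma theta_child (hN : 0 < N) (hτ : 0 < τ₀) (hC : ∀ x, Th x ≤ C) (n j : ℕ) :
    IsBump (theta N τ₀ (n + 1) j) (((j / N : ℕ) : ℝ) * tau N τ₀ n) (tau N τ₀ n) (C * N) := by
  have h := theta_isBump hN hτ hC (n + 1) j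
  have ht := tau_pos hN hτ n
  have ht1 := tau_pos hN hτ (n + 1)
  have hs := tau_succ (τ₀ := τ₀) hN n
  have hNr : (0:ℝ) < N := by exact_mod_cast hN
  refine ⟨h.cont, h.nonneg, fun x hx => h.supp x fun hx' => hx ?_, h.int, fun x => (h.le x).trans ?_⟩
  · have h1 : ((j / N : ℕ) : ℝ) * N ≤ j := by exact_mod_cast Nat.div_mul_le_self j N
    have h2 : (j : ℝ) + 1 ≤ (((j / N : ℕ) : ℝ) + 1) * N := by
      have : j + 1 ≤ (j / N + 1) * N := by
        have := Nat.lt_div_mul_add (a := j) hN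
        nlinarith
      exact_mod_cast this
    constructor
    · refine le_trans ?_ hx'.1
      rw [hs, ← mul_assoc]
      gcongr
    · refine hx'.2.trans ?_
      rw [hs]
      have h3 := mul_le_mul_of_nonneg_right h2 ht1.le
      nlinarith
  · rw [hs]
    apply le_of_eq
    field_simp

end

/-! ### the increments of the Cauchy transforms -/

section
variable {M : ℕ} (c : Choice M) {r₀ τ₀ : ℝ}

noncomputable def kdiff (N : ℕ) (τ₀ : ℝ) (n : ℕ) (x η : ℝ) (j : ℕ) : ℂ :=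
  kb (theta N τ₀ (n + 1) j) x η - kb (theta N τ₀ n (j / N)) x η

/-- majorant for the increments of the Cauchy transform -/
noncomputable def majC (N : ℕ) (τ₀ C : ℝ) (n : ℕ) (i : ℕ) (η : ℝ) : ℝ :=
  if i < n then 4 * tau N τ₀ n * ((tau N τ₀ (i + 1)) ^ 2 + η ^ 2)⁻¹ else nearC (C * N) (tau N τ₀ n) η

lemma majC_nonneg {N : ℕ} (hN : 0 < N) (hτ : 0 < τ₀) {C : ℝ} (hC : 0 < C) (n i : ℕ) (η : ℝ) :
    0 ≤ majC N τ₀ C n i η := by
  unfold majC
  have ht := tau_pos hN hτ n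
  split_ifs
  · positivity
  · exact nearC_nonneg (by positivity) ht

lemma majC_integrable {N : ℕ} (hN : 0 < N) (hτ : 0 < τ₀) (C : ℝ) (n i : ℕ) :
    Integrable (majC N τ₀ C n i) := by
  unfold majC
  by_cases h : i < n
  · simp only [h, if_true]
    exact (cauchy_integrable (tau_pos hN hτ (i + 1))).const_mul _
  · simp only [h, if_false]
    exact nearC_integrable (tau_pos hN hτ n)

lemma tau_anti {N : ℕ} (hN : 0 < N) (hτ : 0 < τ₀) {a b : ℕ} (h : a ≤ b) : tau N τ₀ b ≤ tau N τ₀ a := by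
  unfold tau
  have : (1:ℝ) ≤ N := by exact_mod_cast hN
  gcongr

lemma incrC_pointwise (hM : 2 ≤ M) (hr : 0 < r₀) (hτ : 0 < τ₀) {C : ℝ} (hC0 : 0 < C)
    (hC : ∀ x, Th x ≤ C) (n : ℕ) (x y η : ℝ) (hη : η ≠ 0) :
    ∑ j ∈ Finset.range ((M ^ 2) ^ (n + 1)),
      ‖kdiff (M ^ 2) τ₀ n x η j‖ * rho c r₀ (n + 1) j (y - η) ≤
      ∑ i ∈ Finset.range (n + 1), majC (M ^ 2) τ₀ C n i η * (5 * (1 / 8) ^ i)
        + 4 * tau (M ^ 2) τ₀ n * ((tau (M ^ 2) τ₀ 0) ^ 2 + η ^ 2)⁻¹ * 1 := by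
  have hN : 0 < M ^ 2 := by positivity
  have ht := tau_pos hN hτ n
  have hfarb : ∀ i ≤ n, ∀ j : ℕ, 2 * tau (M ^ 2) τ₀ i ≤ |x - ((j / M ^ 2 : ℕ) : ℝ) * tau (M ^ 2) τ₀ n| →
      ‖kdiff (M ^ 2) τ₀ n x η j‖ ≤ 4 * tau (M ^ 2) τ₀ n * ((tau (M ^ 2) τ₀ i) ^ 2 + η ^ 2)⁻¹ := by
    intro i hi j hR
    have hti := tau_pos hN hτ i
    have h1 : 2 * tau (M ^ 2) τ₀ n ≤ |x - ((j / M ^ 2 : ℕ) : ℝ) * tau (M ^ 2) τ₀ n| := by
      have := tau_anti (τ₀ := τ₀) hN hτ hi
      linarith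
    refine (dk_far (theta_child hN hτ hC n j) (theta_parent hN hτ hC0 hC n (j / M ^ 2)) hη ht h1).trans ?_
    have hη2 : 0 < η ^ 2 := by positivity
    gcongr
    linarith
  apply shell_sum hN hτ n x (fun j => rho c r₀ (n + 1) j (y - η)) (fun j => ‖kdiff (M ^ 2) τ₀ n x η j‖)
    (fun j => rho_nonneg c r₀ (n + 1) j _) (fun i => (1 / 8) ^ i) (fun i => by positivity) 1
  · intro i hi q
    have h1 := rho_desc c r₀ hM hr i (n + 1 - i) q (y - η)
    have h2 : i + (n + 1 - i) = n + 1 := by omega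
    rw [h2] at h1
    rw [h1]
    exact rho_le c r₀ i q _
  · have h1 := rho_desc c r₀ hM hr 0 (n + 1) 0 (y - η)
    rw [zero_add] at h1
    rw [h1]
    exact (rho_le c r₀ 0 0 _).trans (by norm_num)
  · exact fun i => majC_nonneg hN hτ hC0 n i η
  · positivity
  · intro j hR
    unfold majC
    rw [if_neg (lt_irrefl n)]
    exact dk_near (theta_child hN hτ hC n j) (theta_parent hN hτ hC0 hC n (j / M ^ 2)) (by positivity) ht hη hR
  · intro i hi j hR _
    unfold majC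
    rw [if_pos hi]
    exact hfarb (i + 1) hi j hR
  · intro j hR
    exact hfarb 0 (Nat.zero_le n) j hR

/-- (A3) the majorant has small integral -/
lemma incrC_bound (hM : 4 ≤ M) (hr : 0 < r₀) (hτ : 0 < τ₀) :
    ∃ A : ℝ, 0 < A ∧ ∀ (n : ℕ), ∃ H : ℝ → ℝ, Integrable H ∧ ∫ η, H η ≤ A * (1 / 8) ^ n ∧
      ∀ (x y η : ℝ), η ≠ 0 → ∑ j ∈ Finset.range ((M ^ 2) ^ (n + 1)),
      ‖kdiff (M ^ 2) τ₀ n x η j‖ * rho c r₀ (n + 1) j (y - η) ≤ H η := by
  obtain ⟨C, hC0, hC⟩ := Th_bound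
  have hN : 0 < M ^ 2 := by positivity
  have hpi := Real.pi_pos
  refine ⟨20 * Real.pi * (M:ℝ) ^ 2 + 5 * (56 * (C * (M:ℝ) ^ 2) + 4 * Real.pi) + 4 * Real.pi, by positivity, fun n => ?_⟩
  refine ⟨fun η => ∑ i ∈ Finset.range (n + 1), majC (M ^ 2) τ₀ C n i η * (5 * (1 / 8) ^ i)
        + 4 * tau (M ^ 2) τ₀ n * ((tau (M ^ 2) τ₀ 0) ^ 2 + η ^ 2)⁻¹ * 1, ?_, ?_, ?_⟩
  · apply Integrable.add
    · apply integrable_finsetSum
      intro i _
      exact (majC_integrable hN hτ C n i).mul_const _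
    · exact ((cauchy_integrable (tau_pos hN hτ 0)).const_mul _).mul_const _
  · rw [integral_add, integral_finsetSum]
    rotate_left
    · intro i _; exact (majC_integrable hN hτ C n i).mul_const _
    · apply integrable_finsetSum
      intro i _
      exact (majC_integrable hN hτ C n i).mul_const _
    · exact ((cauchy_integrable (tau_pos hN hτ 0)).const_mul _).mul_const _
    simp_rw [integral_mul_const]
    rw [Finset.sum_range_succ, integral_const_mul, cauchy_integral (tau_pos hN hτ 0)]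
    have hMr : (4:ℝ) ≤ M := by exact_mod_cast hM
    have hlast : ∫ η, majC (M ^ 2) τ₀ C n n η = 56 * (C * (M:ℝ) ^ 2) + 4 * Real.pi := by
      unfold majC
      simp only [lt_irrefl, if_false]
      rw [nearC_integral (tau_pos hN hτ n)]
      push_cast
      ring
    rw [hlast]
    have hterm : ∀ i ∈ Finset.range n, (∫ η, majC (M ^ 2) τ₀ C n i η) * (5 * (1 / 8) ^ i) ≤
        20 * Real.pi * (M:ℝ) ^ 2 * (1 / 16) ^ n * 2 ^ i := by
      intro i hi
      have hi' := Finset.mem_range.1 hi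
      obtain ⟨k, hk⟩ := Nat.exists_eq_add_of_lt hi'
      have h1 : ∫ η, majC (M ^ 2) τ₀ C n i η = 4 * Real.pi * (M:ℝ) ^ 2 * (1 / (M:ℝ) ^ 2) ^ (k + 1) := by
        unfold majC
        simp only [hi', if_true]
        rw [integral_const_mul, cauchy_integral (tau_pos hN hτ (i + 1))]
        have h2 := tau_add (τ₀ := τ₀) hN (i + 1) k
        have h3 : i + 1 + k = n := by omega
        rw [h3] at h2
        rw [h2]
        have h4 := tau_pos hN hτ n
        push_cast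
        rw [one_div, inv_pow, pow_succ ((M:ℝ) ^ 2) k]
        field_simp
      rw [h1]
      have h5 : (1 / (M:ℝ) ^ 2) ^ (k + 1) ≤ (1 / 16) ^ (k + 1) := by
        gcongr
        nlinarith
      have h6 : ((1:ℝ) / 16) ^ n * 2 ^ i = (1 / 16) ^ (k + 1) * (1 / 8) ^ i := by
        have : n = (k + 1) + i := by omega
        rw [this, pow_add, mul_assoc, ← mul_pow]
        norm_num
      calc 4 * Real.pi * (M:ℝ) ^ 2 * (1 / (M:ℝ) ^ 2) ^ (k + 1) * (5 * (1 / 8) ^ i)
          ≤ 4 * Real.pi * (M:ℝ) ^ 2 * (1 / 16) ^ (k + 1) * (5 * (1 / 8) ^ i) := by gcongr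
        _ = 20 * Real.pi * (M:ℝ) ^ 2 * ((1 / 16) ^ (k + 1) * (1 / 8) ^ i) := by ring
        _ = _ := by rw [← h6]; ring
    have hsum := Finset.sum_le_sum hterm
    rw [← Finset.mul_sum] at hsum
    have hgeom : ∑ i ∈ Finset.range n, (2:ℝ) ^ i ≤ 2 ^ n := by
      rw [geom_sum_eq (by norm_num)]; norm_num
    have hsum2 : ∑ i ∈ Finset.range n, (∫ η, majC (M ^ 2) τ₀ C n i η) * (5 * (1 / 8) ^ i) ≤
        20 * Real.pi * (M:ℝ) ^ 2 * (1 / 8) ^ n := by
      refine hsum.trans ?_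
      calc 20 * Real.pi * (M:ℝ) ^ 2 * (1 / 16) ^ n * ∑ i ∈ Finset.range n, (2:ℝ) ^ i
          ≤ 20 * Real.pi * (M:ℝ) ^ 2 * (1 / 16) ^ n * 2 ^ n := by gcongr
        _ = 20 * Real.pi * (M:ℝ) ^ 2 * (1 / 8) ^ n := by
            rw [mul_assoc, ← mul_pow]; norm_num
    have hfar : 4 * tau (M ^ 2) τ₀ n * (Real.pi / tau (M ^ 2) τ₀ 0) * 1 ≤ 4 * Real.pi * (1 / 8) ^ n := by
      have h2 := tau_add (τ₀ := τ₀) hN 0 n
      rw [zero_add] at h2
      rw [h2]
      have h4 := tau_pos hN hτ n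
      have h5 : (1 / ((M:ℝ) ^ 2)) ^ n ≤ (1 / 8) ^ n := by
        gcongr
        nlinarith
      calc 4 * tau (M ^ 2) τ₀ n * (Real.pi / (((M ^ 2 : ℕ) : ℝ) ^ n * tau (M ^ 2) τ₀ n)) * 1
          = 4 * Real.pi * (1 / ((M:ℝ) ^ 2)) ^ n := by
            push_cast
            rw [one_div, inv_pow]
            field_simp
        _ ≤ _ := by gcongr
    calc _ ≤ 20 * Real.pi * (M:ℝ) ^ 2 * (1 / 8) ^ n + (56 * (C * (M:ℝ) ^ 2) + 4 * Real.pi) * (5 * (1 / 8) ^ n)
          + 4 * Real.pi * (1 / 8) ^ n := by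
          exact add_le_add (add_le_add hsum2 le_rfl) hfar
      _ = _ := by ring
  · intro x y η hη
    exact incrC_pointwise c (by omega) hr hτ hC0 hC n x y η hη

end

end Pool.Agent.BG
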