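import Mathlib
import Pool.Agent.Lib.MP_f76209_pr.IncrC

set_option autoImplicit false
open MeasureTheory Set Filter Topology Complex

namespace Pool.Agent.BG

lemma sum_abs_sub_le {ι : Type*} (S : Finset ι) (f g : ι → ℝ → ℝ)
    (hd : ∀ j a, HasDerivAt (f j) (g j a) a) (G : ℝ) (hG : ∀ a, ∑ j ∈ S, |g j a| ≤ G) (u v : ℝ) :
    ∑ j ∈ S, |f j u - f j v| ≤ G * |u - v| := by
  set s : ι → ℝ := fun j => if 0 ≤ f j u - f j v then 1 else -1 with hs
  have hs1 : ∀ j, |s j| = 1 := by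
    intro j; simp only [hs]; split_ifs <;> simp
  have hder : ∀ a ∈ (univ : Set ℝ), HasDerivWithinAt (fun a => ∑ j ∈ S, s j * f j a)
      (∑ j ∈ S, s j * g j a) univ a := by
    intro a _
    apply HasDerivAt.hasDerivWithinAt
    apply HasDerivAt.fun_sum
    intro j _
    exact (hd j a).const_mul (s j)
  have hbd : ∀ a ∈ (univ : Set ℝ), ‖∑ j ∈ S, s j * g j a‖ ≤ G := by
    intro a _
    refine le_trans ?_ (hG a)
    refine (norm_sum_le _ _).trans (le_of_eq ?_)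
    apply Finset.sum_congr rfl
    intro j _
    rw [norm_mul, Real.norm_eq_abs, Real.norm_eq_abs, hs1, one_mul]
  have h := Convex.norm_image_sub_le_of_norm_hasDerivWithin_le hder hbd convex_univ
    (mem_univ v) (mem_univ u)
  have he : ∑ j ∈ S, s j * f j u - ∑ j ∈ S, s j * f j v = ∑ j ∈ S, |f j u - f j v| := by
    rw [← Finset.sum_sub_distrib]
    apply Finset.sum_congr rfl
    intro j _
    simp only [hs]
    split_ifs with h0
    · rw [abs_of_nonneg h0]; ring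
    · push Not at h0
      rw [abs_of_neg h0]; ring
  rw [he, Real.norm_eq_abs, Real.norm_eq_abs, abs_of_nonneg (Finset.sum_nonneg fun j _ => abs_nonneg _)] at h
  exact h

section
variable {M : ℕ} (c : Choice M) {r₀ τ₀ : ℝ}

/-- majorant for the increments of the vertical derivative -/
noncomputable def majD (M : ℕ) (r₀ τ₀ C K : ℝ) (n : ℕ) (i : ℕ) (η : ℝ) : ℝ :=
  if i < n then
    (if 2 * i ≤ n then
      (160 * K * kap M r₀ (n + 1) * tau (M ^ 2) τ₀ n * (1 / 8) ^ i) *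
        ((tau (M ^ 2) τ₀ (i + 1)) ^ 2 + η ^ 2)⁻¹
    else
      (8000 * K ^ 2 * kap M r₀ (n + 1) ^ 2 * tau (M ^ 2) τ₀ n * tau (M ^ 2) τ₀ i * (1 / 8) ^ i) *
        ((tau (M ^ 2) τ₀ (i + 1)) ^ 2 + η ^ 2)⁻¹)
  else
    (200 * K ^ 2 * (36 + 4 * Real.pi * (C * (M ^ 2 : ℕ))) * kap M r₀ (n + 1) ^ 2 *
      (tau (M ^ 2) τ₀ n) ^ 2 * (1 / 8) ^ n) * ((tau (M ^ 2) τ₀ n) ^ 2 + η ^ 2)⁻¹

lemma dsum_nonneg (N m : ℕ) {g : ℕ → ℝ} (hg : ∀ j, 0 ≤ g j) (q : ℕ) : 0 ≤ dsum N m g q :=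
  Finset.sum_nonneg fun _ _ => hg _

lemma incrD_pointwise (hM : 2 ≤ M) (hr : 0 < r₀) (hτ : 0 < τ₀) {C : ℝ} (hC0 : 0 < C)
    (hC : ∀ x, Th x ≤ C) {K : ℝ} (hK1 : 1 ≤ K) (h1 : ∀ t, |chi1 t| ≤ K) (h2 : ∀ t, |chi2 t| ≤ K)
    (n : ℕ) (x y η : ℝ) (hη : η ≠ 0) :
    ∑ j ∈ Finset.range ((M ^ 2) ^ (n + 1)),
      |(kdiff (M ^ 2) τ₀ n x η j).im| *
        |rho1 c r₀ (n + 1) j (y - η) - rho1 c r₀ (n + 1) j (y + η)| ≤
      ∑ i ∈ Finset.range (n + 1), majD M r₀ τ₀ C K n i η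
        + 4 * tau (M ^ 2) τ₀ n * ((tau (M ^ 2) τ₀ 0) ^ 2 + η ^ 2)⁻¹ * (8 * K * kap M r₀ (n + 1)) := by
  have hN : 0 < M ^ 2 := by positivity
  have ht := tau_pos hN hτ n
  have hk := kap_pos (M := M) r₀ (by omega) hr (n + 1)
  have hηa : 0 < |η| := abs_pos.2 hη
  have hη2 : 0 < η ^ 2 := by positivity
  have hK0 : 0 ≤ K := by linarith
  -- the two bounds for the sums of the weights
  set δ : ℕ → ℝ := fun j => |rho1 c r₀ (n + 1) j (y - η) - rho1 c r₀ (n + 1) j (y + η)| with hδ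
  have hδ0 : ∀ j, 0 ≤ δ j := fun j => abs_nonneg _
  have hBa : ∀ i ≤ n + 1, ∀ q, dsum (M ^ 2) (n + 1 - i) δ q ≤ (1 / 8) ^ i * (8 * K * kap M r₀ (n + 1)) := by
    intro i hi q
    have e2 : i + (n + 1 - i) = n + 1 := by omega
    have e3 := rho1_desc c r₀ hM hr hK1 h1 i (n + 1 - i) q (y - η)
    have e4 := rho1_desc c r₀ hM hr hK1 h1 i (n + 1 - i) q (y + η)
    rw [e2] at e3 e4
    have e5 := dsum_mono (M ^ 2) (n + 1 - i)
      (fun j => abs_sub (rho1 c r₀ (n + 1) j (y - η)) (rho1 c r₀ (n + 1) j (y + η))) q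
    rw [dsum_add] at e5
    refine e5.trans ?_
    refine (add_le_add e3 e4).trans (le_of_eq ?_)
    ring
  have hBb : ∀ i ≤ n + 1, ∀ q, dsum (M ^ 2) (n + 1 - i) δ q ≤
      (1 / 8) ^ i * (40 * K ^ 2 * kap M r₀ (n + 1) ^ 2 * |η|) := by
    intro i hi q
    have e2 : i + (n + 1 - i) = n + 1 := by omega
    have e3 : ∀ a, ∑ e ∈ Finset.range ((M ^ 2) ^ (n + 1 - i)),
        |rho2 c r₀ (n + 1) ((M ^ 2) ^ (n + 1 - i) * q + e) a| ≤
          (1 / 8) ^ i * (20 * K ^ 2 * kap M r₀ (n + 1) ^ 2) := by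
      intro a
      have := rho2_desc c r₀ hM hr hK1 h1 h2 i (n + 1 - i) q a
      rw [e2] at this
      exact this
    have e4 := sum_abs_sub_le (Finset.range ((M ^ 2) ^ (n + 1 - i)))
      (fun e a => rho1 c r₀ (n + 1) ((M ^ 2) ^ (n + 1 - i) * q + e) a)
      (fun e a => rho2 c r₀ (n + 1) ((M ^ 2) ^ (n + 1 - i) * q + e) a)
      (fun e a => rho1_hasDeriv c r₀ (n + 1) _ a) _ e3 (y - η) (y + η)
    have e5 : |y - η - (y + η)| = 2 * |η| := by
      have : y - η - (y + η) = -(2 * η) := by ring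
      rw [this, abs_neg, abs_mul, abs_two]
    rw [e5] at e4
    unfold dsum
    refine e4.trans (le_of_eq ?_)
    ring
  -- kernel bounds
  have hfarb : ∀ i ≤ n, ∀ j : ℕ, 2 * tau (M ^ 2) τ₀ i ≤ |x - ((j / M ^ 2 : ℕ) : ℝ) * tau (M ^ 2) τ₀ n| →
      |(kdiff (M ^ 2) τ₀ n x η j).im| ≤ 4 * tau (M ^ 2) τ₀ n * ((tau (M ^ 2) τ₀ i) ^ 2 + η ^ 2)⁻¹ := by
    intro i hi j hR
    have hti := tau_pos hN hτ i
    have e1 : 2 * tau (M ^ 2) τ₀ n ≤ |x - ((j / M ^ 2 : ℕ) : ℝ) * tau (M ^ 2) τ₀ n| := by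
      have := tau_anti (τ₀ := τ₀) hN hτ hi
      linarith
    refine (Complex.abs_im_le_norm _).trans ?_
    refine (dk_far (theta_child hN hτ hC n j) (theta_parent hN hτ hC0 hC n (j / M ^ 2)) hη ht e1).trans ?_
    gcongr
    linarith
  have hfarb' : ∀ i < n, ∀ j : ℕ, 2 * tau (M ^ 2) τ₀ (i + 1) ≤ |x - ((j / M ^ 2 : ℕ) : ℝ) * tau (M ^ 2) τ₀ n| →
      |x - ((j / M ^ 2 : ℕ) : ℝ) * tau (M ^ 2) τ₀ n| < 2 * tau (M ^ 2) τ₀ i →
      |(kdiff (M ^ 2) τ₀ n x η j).im| ≤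
        40 * tau (M ^ 2) τ₀ n * tau (M ^ 2) τ₀ i * ((tau (M ^ 2) τ₀ (i + 1)) ^ 2 + η ^ 2)⁻¹ / |η| := by
    intro i hi j hR hR'
    have hti := tau_pos hN hτ i
    have hti1 := tau_pos hN hτ (i + 1)
    have e1 : 2 * tau (M ^ 2) τ₀ n ≤ |x - ((j / M ^ 2 : ℕ) : ℝ) * tau (M ^ 2) τ₀ n| := by
      have := tau_anti (τ₀ := τ₀) hN hτ (show i + 1 ≤ n from hi)
      linarith
    have e2 := dk_im_far (theta_child hN hτ hC n j) (theta_parent hN hτ hC0 hC n (j / M ^ 2)) hη ht e1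
    unfold kdiff
    rw [Complex.sub_im]
    refine e2.trans ?_
    calc 20 * tau (M ^ 2) τ₀ n * |x - ((j / M ^ 2 : ℕ) : ℝ) * tau (M ^ 2) τ₀ n| *
          (|x - ((j / M ^ 2 : ℕ) : ℝ) * tau (M ^ 2) τ₀ n| ^ 2 + η ^ 2)⁻¹ / |η|
        ≤ 20 * tau (M ^ 2) τ₀ n * (2 * tau (M ^ 2) τ₀ i) *
          ((tau (M ^ 2) τ₀ (i + 1)) ^ 2 + η ^ 2)⁻¹ / |η| := by
          gcongr
          linarith
      _ = _ := by ring
  have hmain := shell_sum hN hτ n x δ (fun j => |(kdiff (M ^ 2) τ₀ n x η j).im|) hδ0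
    (fun i => if i < n ∧ 2 * i ≤ n then (1 / 8) ^ i * (8 * K * kap M r₀ (n + 1))
      else (1 / 8) ^ i * (40 * K ^ 2 * kap M r₀ (n + 1) ^ 2 * |η|))
    (fun i => by split_ifs <;> positivity) (8 * K * kap M r₀ (n + 1))
    (fun i hi q => by
      split_ifs
      · exact hBa i (by omega) q
      · exact hBb i (by omega) q)
    (by have := hBa 0 (by omega) 0; simpa using this)
    (fun i => if i < n then
        (if 2 * i ≤ n then 4 * tau (M ^ 2) τ₀ n * ((tau (M ^ 2) τ₀ (i + 1)) ^ 2 + η ^ 2)⁻¹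
          else 40 * tau (M ^ 2) τ₀ n * tau (M ^ 2) τ₀ i *
            ((tau (M ^ 2) τ₀ (i + 1)) ^ 2 + η ^ 2)⁻¹ / |η|)
      else (36 + 4 * Real.pi * (C * (M ^ 2 : ℕ))) * (tau (M ^ 2) τ₀ n) ^ 2 *
        ((tau (M ^ 2) τ₀ n) ^ 2 + η ^ 2)⁻¹ / |η|)
    (4 * tau (M ^ 2) τ₀ n * ((tau (M ^ 2) τ₀ 0) ^ 2 + η ^ 2)⁻¹)
    (fun i => by
      have := tau_pos hN hτ i
      have hpi := Real.pi_pos
      split_ifs <;> positivity)
    (by positivity)
    (fun j hR => by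
      simp only [lt_irrefl, if_false]
      unfold kdiff
      rw [Complex.sub_im]
      exact dk_im_near (theta_child hN hτ hC n j) (theta_parent hN hτ hC0 hC n (j / M ^ 2))
        (by positivity) ht hη hR)
    (fun i hi j hR hR' => by
      simp only [hi, if_true]
      split_ifs
      · exact hfarb (i + 1) hi j hR
      · exact hfarb' i hi j hR hR')
    (fun j hR => hfarb 0 (Nat.zero_le n) j hR)
  refine hmain.trans (le_of_eq ?_)
  congr 1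
  apply Finset.sum_congr rfl
  intro i _
  unfold majD
  by_cases hi : i < n
  · by_cases h2i : 2 * i ≤ n
    · simp only [hi, h2i, and_self, if_true]
      ring
    · simp only [hi, h2i, and_false, if_true, if_false]
      field_simp
      ring
  · have hin : i = n := by
      have := Finset.mem_range.1 ‹i ∈ Finset.range (n + 1)›
      omega
    subst hin
    simp only [lt_irrefl, false_and, if_false]
    field_simp
    ring

end

end Pool.Agent.BG
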