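import Mathlib
import Pool.Agent.Lib.MP_f76209_pr.IncrD

set_option autoImplicit false
open MeasureTheory Set Filter Topology Complex

namespace Pool.Agent.BG

variable {M : ℕ} (c : Choice M) {r₀ τ₀ : ℝ}

lemma majD_integrable (hM : 2 ≤ M) (hτ : 0 < τ₀) (C K : ℝ) (n i : ℕ) :
    Integrable (majD M r₀ τ₀ C K n i) := by
  have hN : 0 < M ^ 2 := by positivity
  unfold majD
  by_cases h : i < n
  · by_cases h2 : 2 * i ≤ n
    · simp only [h, h2, if_true]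
      exact (cauchy_integrable (tau_pos hN hτ (i + 1))).const_mul _
    · simp only [h, h2, if_true, if_false]
      exact (cauchy_integrable (tau_pos hN hτ (i + 1))).const_mul _
  · simp only [h, if_false]
    exact (cauchy_integrable (tau_pos hN hτ n)).const_mul _

lemma majD_integral_a (hM : 2 ≤ M) (hr : 0 < r₀) (hτ : 0 < τ₀) (C : ℝ) {K : ℝ} (hK : 0 ≤ K)
    (n i : ℕ) (h : i < n) (h2 : 2 * i ≤ n) :
    ∫ η, majD M r₀ τ₀ C K n i η ≤ (160 * Real.pi * K * M ^ 3 / r₀) * ((1 / 2) ^ i * (1 / 2) ^ n) := by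
  have hN : 0 < M ^ 2 := by positivity
  have hpi := Real.pi_pos
  have hMr : (2:ℝ) ≤ M := by exact_mod_cast hM
  unfold majD
  simp only [h, h2, if_true]
  rw [integral_const_mul, cauchy_integral (tau_pos hN hτ (i + 1))]
  obtain ⟨k, hk⟩ := Nat.exists_eq_add_of_le h2
  obtain ⟨l, hl⟩ := Nat.exists_eq_add_of_lt h
  have e2 := tau_add (τ₀ := τ₀) hN (i + 1) l
  have e3 : i + 1 + l = n := by omega
  rw [e3] at e2
  rw [e2]
  have ht := tau_pos hN hτ n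
  -- exponent bookkeeping: `M^(n+1) / M^(2l) = M^3 / M^k`
  have e4 : (M:ℝ) ^ (n + 1) * (M:ℝ) ^ k = (M:ℝ) ^ 3 * ((M:ℝ) ^ 2) ^ l := by
    rw [← pow_mul, ← pow_add, ← pow_add]
    congr 1
    omega
  have hMk : (0:ℝ) < (M:ℝ) ^ k := by positivity
  have e5 : (M:ℝ) ^ (n + 1) / ((M:ℝ) ^ 2) ^ l = (M:ℝ) ^ 3 / (M:ℝ) ^ k := by
    rw [div_eq_div_iff (by positivity) (by positivity), e4]
  have e6 : ((1:ℝ) / 2) ^ i * (1 / 2) ^ n = (1 / 8) ^ i * (1 / 2) ^ k := by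
    rw [hk, pow_add, pow_mul]
    have : ((1:ℝ) / 8) ^ i = (1 / 2) ^ i * ((1 / 2) ^ 2) ^ i := by
      rw [← mul_pow]; norm_num
    rw [this]; ring
  rw [e6]
  have e7 : 160 * K * kap M r₀ (n + 1) * tau (M ^ 2) τ₀ n * (1 / 8) ^ i *
      (Real.pi / (((M ^ 2 : ℕ) : ℝ) ^ l * tau (M ^ 2) τ₀ n))
      = 160 * Real.pi * K / r₀ * (1 / 8) ^ i * ((M:ℝ) ^ (n + 1) / ((M:ℝ) ^ 2) ^ l) := by
    unfold kap
    push_cast
    field_simp
  rw [e7, e5]
  have e8 : (M:ℝ) ^ 3 / (M:ℝ) ^ k ≤ (M:ℝ) ^ 3 * (1 / 2) ^ k := by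
    rw [div_le_iff₀ hMk, mul_assoc, ← mul_pow]
    have : (1:ℝ) ≤ (1 / 2 * M) ^ k := one_le_pow₀ (by linarith)
    nlinarith [pow_pos (by linarith : (0:ℝ) < M) 3]
  calc 160 * Real.pi * K / r₀ * (1 / 8) ^ i * ((M:ℝ) ^ 3 / (M:ℝ) ^ k)
      ≤ 160 * Real.pi * K / r₀ * (1 / 8) ^ i * ((M:ℝ) ^ 3 * (1 / 2) ^ k) := by gcongr
    _ = _ := by ring

lemma majD_integral_b (hM : 2 ≤ M) (hr : 0 < r₀) (hτ : 0 < τ₀) (C : ℝ) {K : ℝ}
    (n i : ℕ) (h : i < n) (h2 : ¬ 2 * i ≤ n) :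
    ∫ η, majD M r₀ τ₀ C K n i η ≤
      (8000 * Real.pi * K ^ 2 * M ^ 4 * τ₀ / r₀ ^ 2) * ((1 / 2) ^ i * (1 / 2) ^ n) := by
  have hN : 0 < M ^ 2 := by positivity
  have hpi := Real.pi_pos
  have hMr : (2:ℝ) ≤ M := by exact_mod_cast hM
  unfold majD
  simp only [h, h2, if_true, if_false]
  rw [integral_const_mul, cauchy_integral (tau_pos hN hτ (i + 1))]
  have e2 := tau_succ (τ₀ := τ₀) hN i
  have hti := tau_pos hN hτ (i + 1)
  rw [e2]
  have e7 : 8000 * K ^ 2 * kap M r₀ (n + 1) ^ 2 * tau (M ^ 2) τ₀ n * (((M ^ 2 : ℕ) : ℝ) * tau (M ^ 2) τ₀ (i + 1)) *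
      (1 / 8) ^ i * (Real.pi / tau (M ^ 2) τ₀ (i + 1))
      = 8000 * Real.pi * K ^ 2 * M ^ 4 * τ₀ / r₀ ^ 2 * (1 / 8) ^ i := by
    unfold kap
    rw [mul_div_assoc', div_eq_iff hti.ne']
    unfold tau
    push_cast
    have hMn : (M:ℝ) ^ (n + 1) = (M:ℝ) ^ n * M := pow_succ _ _
    rw [hMn]
    have h3 : ((M:ℝ) ^ 2) ^ n = (M:ℝ) ^ n * (M:ℝ) ^ n := by rw [← pow_mul, ← pow_add]; congr 1; omega
    rw [h3]
    field_simp
  rw [e7]
  have e8 : ((1:ℝ) / 8) ^ i ≤ (1 / 2) ^ i * (1 / 2) ^ n := by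
    have h3 : ((1:ℝ) / 8) ^ i = (1 / 2) ^ i * (1 / 2) ^ (2 * i) := by
      rw [pow_mul, ← mul_pow]; norm_num
    rw [h3]
    apply mul_le_mul_of_nonneg_left _ (by positivity)
    apply pow_le_pow_of_le_one (by norm_num) (by norm_num)
    omega
  gcongr

lemma majD_integral_near (hM : 2 ≤ M) (hr : 0 < r₀) (hτ : 0 < τ₀) {C : ℝ} (hC : 0 < C) {K : ℝ}
    (n : ℕ) :
    ∫ η, majD M r₀ τ₀ C K n n η ≤
      (200 * Real.pi * K ^ 2 * (36 + 4 * Real.pi * (C * (M ^ 2 : ℕ))) * M ^ 2 * τ₀ / r₀ ^ 2) * (1 / 2) ^ n := by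
  have hN : 0 < M ^ 2 := by positivity
  have hpi := Real.pi_pos
  unfold majD
  simp only [lt_irrefl, if_false]
  rw [integral_const_mul, cauchy_integral (tau_pos hN hτ n)]
  have ht := tau_pos hN hτ n
  have e7 : 200 * K ^ 2 * (36 + 4 * Real.pi * (C * (M ^ 2 : ℕ))) * kap M r₀ (n + 1) ^ 2 *
      (tau (M ^ 2) τ₀ n) ^ 2 * (1 / 8) ^ n * (Real.pi / tau (M ^ 2) τ₀ n)
      = (200 * Real.pi * K ^ 2 * (36 + 4 * Real.pi * (C * (M ^ 2 : ℕ))) * M ^ 2 * τ₀ / r₀ ^ 2) * (1 / 8) ^ n := by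
    unfold kap
    rw [mul_div_assoc', div_eq_iff ht.ne']
    unfold tau
    push_cast
    have hMn : (M:ℝ) ^ (n + 1) = (M:ℝ) ^ n * M := pow_succ _ _
    rw [hMn]
    have h3 : ((M:ℝ) ^ 2) ^ n = (M:ℝ) ^ n * (M:ℝ) ^ n := by rw [← pow_mul, ← pow_add]; congr 1; omega
    rw [h3]
    field_simp
  rw [e7]
  have e8 : ((1:ℝ) / 8) ^ n ≤ (1 / 2) ^ n := by gcongr; norm_num
  gcongr

/-- (A2) the majorant has small integral -/
lemma incrD_bound (hM : 2 ≤ M) (hr : 0 < r₀) (hτ : 0 < τ₀) :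
    ∃ A : ℝ, 0 < A ∧ ∀ (n : ℕ), ∃ H : ℝ → ℝ, Integrable H ∧ ∫ η, H η ≤ A * (1 / 2) ^ n ∧
      ∀ (x y η : ℝ), η ≠ 0 → ∑ j ∈ Finset.range ((M ^ 2) ^ (n + 1)),
      |(kdiff (M ^ 2) τ₀ n x η j).im| *
        |rho1 c r₀ (n + 1) j (y - η) - rho1 c r₀ (n + 1) j (y + η)| ≤ H η := by
  obtain ⟨C, hC0, hC⟩ := Th_bound
  obtain ⟨K, hK1, h1, h2⟩ := chi_bound
  have hN : 0 < M ^ 2 := by positivity
  have hpi := Real.pi_pos
  have hK0 : 0 ≤ K := by linarith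
  have hMr : (2:ℝ) ≤ M := by exact_mod_cast hM
  set A1 : ℝ := 160 * Real.pi * K * M ^ 3 / r₀ + 8000 * Real.pi * K ^ 2 * M ^ 4 * τ₀ / r₀ ^ 2 with hA1
  set A2 : ℝ := 200 * Real.pi * K ^ 2 * (36 + 4 * Real.pi * (C * (M ^ 2 : ℕ))) * M ^ 2 * τ₀ / r₀ ^ 2 with hA2
  set A3 : ℝ := 32 * Real.pi * K * M / r₀ with hA3
  refine ⟨2 * A1 + A2 + A3, by positivity, fun n => ?_⟩
  refine ⟨fun η => ∑ i ∈ Finset.range (n + 1), majD M r₀ τ₀ C K n i η
        + 4 * tau (M ^ 2) τ₀ n * ((tau (M ^ 2) τ₀ 0) ^ 2 + η ^ 2)⁻¹ * (8 * K * kap M r₀ (n + 1)), ?_, ?_, ?_⟩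
  · apply Integrable.add
    · apply integrable_finsetSum
      intro i _
      exact majD_integrable hM hτ C K n i
    · exact ((cauchy_integrable (tau_pos hN hτ 0)).const_mul _).mul_const _
  · rw [integral_add, integral_finsetSum]
    rotate_left
    · intro i _; exact majD_integrable hM hτ C K n i
    · apply integrable_finsetSum
      intro i _
      exact majD_integrable hM hτ C K n i
    · exact ((cauchy_integrable (tau_pos hN hτ 0)).const_mul _).mul_const _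
    rw [integral_mul_const, integral_const_mul, cauchy_integral (tau_pos hN hτ 0),
      Finset.sum_range_succ]
    have hterm : ∀ i ∈ Finset.range n, (∫ η, majD M r₀ τ₀ C K n i η) ≤
        A1 * (1 / 2) ^ n * (1 / 2) ^ i := by
      intro i hi
      have hi' := Finset.mem_range.1 hi
      have hp : (0:ℝ) ≤ (1 / 2) ^ i * (1 / 2) ^ n := by positivity
      by_cases h2i : 2 * i ≤ n
      · refine (majD_integral_a hM hr hτ C hK0 n i hi' h2i).trans ?_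
        have : 160 * Real.pi * K * M ^ 3 / r₀ ≤ A1 := by
          rw [hA1]; apply le_add_of_nonneg_right; positivity
        calc _ ≤ A1 * ((1 / 2) ^ i * (1 / 2) ^ n) := by gcongr
          _ = _ := by ring
      · refine (majD_integral_b hM hr hτ C n i hi' h2i).trans ?_
        have : 8000 * Real.pi * K ^ 2 * M ^ 4 * τ₀ / r₀ ^ 2 ≤ A1 := by
          rw [hA1]; apply le_add_of_nonneg_left; positivity
        calc _ ≤ A1 * ((1 / 2) ^ i * (1 / 2) ^ n) := by gcongr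
          _ = _ := by ring
    have hsum := Finset.sum_le_sum hterm
    rw [← Finset.mul_sum] at hsum
    have hgeom : ∑ i ∈ Finset.range n, ((1:ℝ) / 2) ^ i ≤ 2 := by
      rw [geom_sum_eq (by norm_num)]
      have : (0:ℝ) < (1 / 2) ^ n := by positivity
      rw [div_le_iff_of_neg (by norm_num)]
      linarith
    have hA1pos : 0 < A1 := by rw [hA1]; positivity
    have hsum2 : ∑ i ∈ Finset.range n, (∫ η, majD M r₀ τ₀ C K n i η) ≤ 2 * A1 * (1 / 2) ^ n := by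
      refine hsum.trans ?_
      calc A1 * (1 / 2) ^ n * ∑ i ∈ Finset.range n, ((1:ℝ) / 2) ^ i ≤ A1 * (1 / 2) ^ n * 2 := by
            gcongr
        _ = _ := by ring
    have hnear := majD_integral_near hM hr hτ hC0 (K := K) n
    have hfar : 4 * tau (M ^ 2) τ₀ n * (Real.pi / tau (M ^ 2) τ₀ 0) * (8 * K * kap M r₀ (n + 1))
        ≤ A3 * (1 / 2) ^ n := by
      have e2 := tau_add (τ₀ := τ₀) hN 0 n
      rw [zero_add] at e2
      rw [e2]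
      have e4 := tau_pos hN hτ n
      have e5 : 4 * tau (M ^ 2) τ₀ n * (Real.pi / (((M ^ 2 : ℕ) : ℝ) ^ n * tau (M ^ 2) τ₀ n)) *
          (8 * K * kap M r₀ (n + 1)) = 32 * Real.pi * K / r₀ * ((M:ℝ) ^ (n + 1) / ((M:ℝ) ^ 2) ^ n) := by
        unfold kap
        push_cast
        field_simp
        ring
      rw [e5]
      have e6 : (M:ℝ) ^ (n + 1) / ((M:ℝ) ^ 2) ^ n ≤ M * (1 / 2) ^ n := by
        rw [div_le_iff₀ (by positivity), pow_succ (M:ℝ) n, mul_comm ((M:ℝ) ^ n), mul_assoc, ← mul_pow]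
        have : (M:ℝ) ≤ 1 / 2 * (M:ℝ) ^ 2 := by nlinarith
        gcongr
      calc 32 * Real.pi * K / r₀ * ((M:ℝ) ^ (n + 1) / ((M:ℝ) ^ 2) ^ n)
          ≤ 32 * Real.pi * K / r₀ * (M * (1 / 2) ^ n) := by gcongr
        _ = A3 * (1 / 2) ^ n := by rw [hA3]; ring
    calc _ ≤ (2 * A1 * (1 / 2) ^ n + A2 * (1 / 2) ^ n) + A3 * (1 / 2) ^ n :=
          add_le_add (add_le_add hsum2 hnear) hfar
      _ = _ := by ring
  · intro x y η hη
    exact incrD_pointwise c hM hr hτ hC0 hC hK1 h1 h2 n x y η hη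

end Pool.Agent.BG
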