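import Mathlib
import Pool.Agent.Lib.MP_f76209_pr.Cau
import Pool.Agent.Lib.MP_f76209_pr.IncrD2

set_option autoImplicit false
open MeasureTheory Set Filter Topology Complex

namespace Pool.Agent.BG

lemma prod_compact {θ g : ℝ → ℝ} (hθ : HasCompactSupport θ) (hg : HasCompactSupport g) :
    HasCompactSupport (fun z : ℂ => ((θ z.re * g z.im : ℝ) : ℂ)) := by
  apply HasCompactSupport.intro (hθ.isCompact.reProdIm hg.isCompact)
  intro z hz
  have : ¬ (z.re ∈ tsupport θ ∧ z.im ∈ tsupport g) := by
    intro h; exact hz ⟨h.1, h.2⟩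
  by_cases h1 : z.re ∈ tsupport θ
  · have h2 : z.im ∉ tsupport g := fun h => this ⟨h1, h⟩
    rw [image_eq_zero_of_notMem_tsupport h2]; simp
  · rw [image_eq_zero_of_notMem_tsupport h1]; simp

lemma prod_continuous {θ g : ℝ → ℝ} (hθ : Continuous θ) (hg : Continuous g) :
    Continuous (fun z : ℂ => ((θ z.re * g z.im : ℝ) : ℂ)) := by
  apply Complex.continuous_ofReal.comp
  exact (hθ.comp Complex.continuous_re).mul (hg.comp Complex.continuous_im)

/-- Fubini for the Cauchy transform of a product density -/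
lemma cau_prod {θ g : ℝ → ℝ} (hθ : Continuous θ) (hθc : HasCompactSupport θ)
    (hg : Continuous g) (hgc : HasCompactSupport g) (x y : ℝ) :
    Integrable (fun η : ℝ => kb θ x η * ((g (y - η) : ℝ) : ℂ)) ∧
      cau (fun z : ℂ => ((θ z.re * g z.im : ℝ) : ℂ)) ⟨x, y⟩ =
        ∫ η : ℝ, kb θ x η * ((g (y - η) : ℝ) : ℂ) := by
  have hI := cau_integrable (prod_continuous hθ hg) (prod_compact hθc hgc) ⟨x, y⟩
  set F : ℂ → ℂ := fun t => t⁻¹ * (((θ (((⟨x, y⟩ : ℂ) - t).re) * g (((⟨x, y⟩ : ℂ) - t).im) : ℝ)) : ℂ) with hF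
  have hI' : Integrable F := hI
  have hmp := Complex.volume_preserving_equiv_real_prod.symm
  have hI2 : Integrable (F ∘ Complex.measurableEquivRealProd.symm) (volume : Measure (ℝ × ℝ)) :=
    (hmp.integrable_comp_emb Complex.measurableEquivRealProd.symm.measurableEmbedding).2 hI'
  have hFe : F ∘ Complex.measurableEquivRealProd.symm
      = fun p : ℝ × ℝ => ker p.1 p.2 * ((θ (x - p.1) * g (y - p.2) : ℝ) : ℂ) := by
    ext p
    simp only [hF, Function.comp_apply, Complex.measurableEquivRealProd_symm_apply]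
    unfold ker
    congr 2
    apply Complex.ext <;> simp
  rw [hFe] at hI2
  have hinner : ∀ η : ℝ, ∫ ξ : ℝ, ker ξ η * ((θ (x - ξ) * g (y - η) : ℝ) : ℂ)
      = kb θ x η * ((g (y - η) : ℝ) : ℂ) := by
    intro η
    unfold kb
    rw [← integral_mul_const]
    rw [← integral_sub_left_eq_self (fun ξ : ℝ => ker ξ η * ((θ (x - ξ) * g (y - η) : ℝ) : ℂ)) volume x]
    congr 1
    ext x'
    simp only [sub_sub_cancel, Complex.real_smul]
    push_cast
    ring
  constructor
  · have h := hI2.integral_prod_right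
    refine h.congr (Eventually.of_forall fun η => ?_)
    exact hinner η
  · have h1 : cau (fun z : ℂ => ((θ z.re * g z.im : ℝ) : ℂ)) ⟨x, y⟩ = ∫ t, F t := rfl
    rw [h1, ← hmp.integral_comp Complex.measurableEquivRealProd.symm.measurableEmbedding]
    have h2 : ∫ p : ℝ × ℝ, F (Complex.measurableEquivRealProd.symm p)
        = ∫ p : ℝ × ℝ, ker p.1 p.2 * ((θ (x - p.1) * g (y - p.2) : ℝ) : ℂ) := by
      rw [← hFe]; rfl
    rw [h2, Measure.volume_eq_prod, integral_prod_symm _ (by rwa [← Measure.volume_eq_prod])]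
    congr 1
    ext η
    exact hinner η

/-- the Cauchy transform of a continuous compactly supported function is bounded -/
lemma cau_bounded {S : ℂ → ℂ} (hS : Continuous S) (hc : HasCompactSupport S) :
    ∃ B : ℝ, ∀ z, ‖cau S z‖ ≤ B := by
  obtain ⟨R, hR⟩ := hc.isBounded.subset_closedBall 0
  have hcont := cau_continuous hS hc
  obtain ⟨B1, hB1⟩ := (isCompact_closedBall (0:ℂ) (R + 1)).exists_bound_of_continuousOn hcont.continuousOn
  have hint : Integrable S := hS.integrable_of_hasCompactSupport hc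
  refine ⟨max B1 (∫ t, ‖S t‖), fun z => ?_⟩
  by_cases hz : z ∈ Metric.closedBall (0:ℂ) (R + 1)
  · exact (hB1 z hz).trans (le_max_left _ _)
  · refine le_trans ?_ (le_max_right _ _)
    unfold cau
    have h1 : Integrable (fun t => ‖S (z - t)‖) := hint.norm.comp_sub_left z
    have h2 : ∫ t, ‖S (z - t)‖ = ∫ t, ‖S t‖ := integral_sub_left_eq_self (fun t => ‖S t‖) volume z
    rw [← h2]
    apply norm_integral_le_of_norm_le h1
    refine Eventually.of_forall fun t => ?_
    rw [norm_mul, norm_inv]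
    by_cases hs : S (z - t) = 0
    · rw [hs]; simp
    · have h3 : z - t ∈ tsupport S := subset_tsupport _ hs
      have h4 := hR h3
      rw [mem_closedBall_zero_iff] at h4
      rw [mem_closedBall_zero_iff] at hz
      push Not at hz
      have h5 : 1 ≤ ‖t‖ := by
        have := norm_sub_norm_le z t
        linarith
      have h6 : ‖t‖⁻¹ ≤ 1 := inv_le_one_of_one_le₀ h5
      nlinarith [norm_nonneg (S (z - t))]

end Pool.Agent.BG
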