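import Mathlib
import Pool.Agent.Lib.MP_f76209_pr.Repr

set_option autoImplicit false
open MeasureTheory Set Filter Topology Complex

namespace Pool.Agent.BG

variable {M : ℕ} (c : Choice M) (r₀ τ₀ : ℝ)

/-- the densities -/
noncomputable def sden (n : ℕ) (z : ℂ) : ℂ :=
  ∑ j ∈ Finset.range ((M ^ 2) ^ n), ((theta (M ^ 2) τ₀ n j z.re * rho c r₀ n j z.im : ℝ) : ℂ)

/-- vertical derivative of the densities -/
noncomputable def sden1 (n : ℕ) (z : ℂ) : ℂ :=
  ∑ j ∈ Finset.range ((M ^ 2) ^ n), ((theta (M ^ 2) τ₀ n j z.re * rho1 c r₀ n j z.im : ℝ) : ℂ)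

variable {r₀ τ₀}

lemma rho_continuous (n j : ℕ) : Continuous (rho c r₀ n j) :=
  continuous_iff_continuousAt.2 fun a => (rho_hasDeriv c r₀ n j a).continuousAt

lemma rho1_continuous (n j : ℕ) : Continuous (rho1 c r₀ n j) :=
  continuous_iff_continuousAt.2 fun a => (rho1_hasDeriv c r₀ n j a).continuousAt

lemma rho_compact (hr : 0 < r₀) (n j : ℕ) : HasCompactSupport (rho c r₀ n j) := by
  apply HasCompactSupport.intro (isCompact_Icc (a := -r₀) (b := r₀))
  intro a ha
  apply rho_zero_of_le c r₀ hr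
  by_contra h
  push Not at h
  exact ha ⟨(abs_lt.1 h).1.le, (abs_lt.1 h).2.le⟩

lemma rho1_eq_deriv (n j : ℕ) : rho1 c r₀ n j = deriv (rho c r₀ n j) := by
  ext a; exact (rho_hasDeriv c r₀ n j a).deriv.symm

lemma rho1_compact (hr : 0 < r₀) (n j : ℕ) : HasCompactSupport (rho1 c r₀ n j) := by
  rw [rho1_eq_deriv]; exact (rho_compact c hr n j).deriv

lemma theta_contDiff (n j : ℕ) : ContDiff ℝ 1 (theta (M ^ 2) τ₀ n j) := by
  unfold theta
  have : ContDiff ℝ 1 Th := by exact_mod_cast (Th_contDiff (n := 1))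
  exact contDiff_const.mul (this.comp (by fun_prop))

lemma rho_contDiff (n j : ℕ) : ContDiff ℝ 1 (rho c r₀ n j) := by
  rw [contDiff_one_iff_deriv]
  refine ⟨fun a => (rho_hasDeriv c r₀ n j a).differentiableAt, ?_⟩
  rw [← rho1_eq_deriv]
  exact rho1_continuous c n j

lemma theta_compact (hM : 2 ≤ M) (hτ : 0 < τ₀) (n j : ℕ) : HasCompactSupport (theta (M ^ 2) τ₀ n j) := by
  obtain ⟨C, hC0, hC⟩ := Th_bound
  exact (theta_isBump (by positivity) hτ hC n j).compact

lemma theta_continuous (n j : ℕ) : Continuous (theta (M ^ 2) τ₀ n j) := (theta_contDiff n j).continuous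

lemma sden_contDiff (n : ℕ) : ContDiff ℝ 1 (sden c r₀ τ₀ n) := by
  unfold sden
  apply ContDiff.sum
  intro j _
  apply Complex.ofRealCLM.contDiff.comp
  exact ((theta_contDiff n j).comp Complex.reCLM.contDiff).mul
    ((rho_contDiff c n j).comp Complex.imCLM.contDiff)

lemma sden_compact (hM : 2 ≤ M) (hr : 0 < r₀) (hτ : 0 < τ₀) (n : ℕ) :
    HasCompactSupport (sden c r₀ τ₀ n) := by
  unfold sden
  have : ∀ S : Finset ℕ, HasCompactSupport (fun z : ℂ =>
      ∑ j ∈ S, ((theta (M ^ 2) τ₀ n j z.re * rho c r₀ n j z.im : ℝ) : ℂ)) := by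
    intro S
    classical
    induction S using Finset.induction_on with
    | empty =>
      simp only [Finset.sum_empty]
      exact HasCompactSupport.zero
    | insert a S ha ih =>
      simp_rw [Finset.sum_insert ha]
      exact (prod_compact (theta_compact hM hτ n a) (rho_compact c hr n a)).add ih
  exact this _

lemma sden_fderiv_I (n : ℕ) (z : ℂ) :
    fderiv ℝ (sden c r₀ τ₀ n) z I = sden1 c r₀ τ₀ n z := by
  have hdiff : DifferentiableAt ℝ (sden c r₀ τ₀ n) z := (sden_contDiff c n).differentiable (by norm_num) z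
  -- compute along the line `z + t I`
  have h1 : HasDerivAt (fun t : ℝ => z + t * I) I 0 := by
    simpa using ((Complex.ofRealCLM.hasDerivAt (x := (0:ℝ))).mul_const I).const_add z
  have h2 : HasDerivAt (fun t : ℝ => sden c r₀ τ₀ n (z + t * I)) (fderiv ℝ (sden c r₀ τ₀ n) z I) 0 := by
    have hz : z + ((0:ℝ) : ℂ) * I = z := by simp
    have h3 : HasFDerivAt (sden c r₀ τ₀ n) (fderiv ℝ (sden c r₀ τ₀ n) z) (z + ((0:ℝ) : ℂ) * I) := by
      rw [hz]; exact hdiff.hasFDerivAt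
    exact h3.comp_hasDerivAt (0:ℝ) h1
  have h4 : HasDerivAt (fun t : ℝ => sden c r₀ τ₀ n (z + t * I)) (sden1 c r₀ τ₀ n z) 0 := by
    unfold sden sden1
    apply HasDerivAt.fun_sum
    intro j _
    have h5 : HasDerivAt (fun t : ℝ => rho c r₀ n j (z.im + t)) (rho1 c r₀ n j z.im) 0 := by
      have h6 : HasDerivAt (fun t : ℝ => z.im + t) 1 0 := by
        simpa using (hasDerivAt_id (0:ℝ)).const_add z.im
      have h7 : HasDerivAt (rho c r₀ n j) (rho1 c r₀ n j z.im) (z.im + 0) := by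
        rw [add_zero]; exact rho_hasDeriv c r₀ n j z.im
      have h9 := h7.comp (0:ℝ) h6
      rw [mul_one] at h9
      exact h9
    have h8 := (h5.const_mul (theta (M ^ 2) τ₀ n j z.re)).ofReal_comp
    refine h8.congr_of_eventuallyEq (Eventually.of_forall fun t => ?_)
    simp
  exact h2.unique h4

/-- the Cauchy transforms -/
noncomputable def cn (c : Choice M) (r₀ τ₀ : ℝ) (n : ℕ) : ℂ → ℂ := cau (sden c r₀ τ₀ n)

/-- the vertical derivative of the imaginary part -/
noncomputable def Dn (c : Choice M) (r₀ τ₀ : ℝ) (n : ℕ) (z : ℂ) : ℝ := (fderiv ℝ (cn c r₀ τ₀ n) z I).im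

lemma cau_sum {ι : Type*} (S : Finset ι) (f : ι → ℂ → ℂ) (hf : ∀ j ∈ S, Continuous (f j))
    (hc : ∀ j ∈ S, HasCompactSupport (f j)) (z : ℂ) :
    cau (fun w => ∑ j ∈ S, f j w) z = ∑ j ∈ S, cau (f j) z := by
  unfold cau
  rw [← integral_finsetSum]
  · congr 1
    ext t
    rw [Finset.mul_sum]
  · intro j hj
    exact cau_integrable (hf j hj) (hc j hj) z

lemma cn_repr (hM : 2 ≤ M) (hr : 0 < r₀) (hτ : 0 < τ₀) (n : ℕ) (x y : ℝ) :
    cn c r₀ τ₀ n ⟨x, y⟩ = ∑ j ∈ Finset.range ((M ^ 2) ^ n),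
      ∫ η : ℝ, kb (theta (M ^ 2) τ₀ n j) x η * ((rho c r₀ n j (y - η) : ℝ) : ℂ) := by
  unfold cn sden
  rw [cau_sum]
  · apply Finset.sum_congr rfl
    intro j _
    exact (cau_prod (theta_continuous n j) (theta_compact hM hτ n j) (rho_continuous c n j)
      (rho_compact c hr n j) x y).2
  · intro j _; exact prod_continuous (theta_continuous n j) (rho_continuous c n j)
  · intro j _; exact prod_compact (theta_compact hM hτ n j) (rho_compact c hr n j)

lemma Dn_repr (hM : 2 ≤ M) (hr : 0 < r₀) (hτ : 0 < τ₀) (n : ℕ) (x y : ℝ) :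
    Dn c r₀ τ₀ n ⟨x, y⟩ = ∑ j ∈ Finset.range ((M ^ 2) ^ n),
      ∫ η : ℝ, (kb (theta (M ^ 2) τ₀ n j) x η).im * rho1 c r₀ n j (y - η) := by
  unfold Dn cn
  rw [(cau_hasFDerivAt (sden_contDiff c n) (sden_compact c hM hr hτ n) _).2 I]
  have h1 : (fun w => fderiv ℝ (sden c r₀ τ₀ n) w I) = sden1 c r₀ τ₀ n := by
    ext w; exact sden_fderiv_I c n w
  rw [h1]
  unfold sden1
  rw [cau_sum]
  · rw [Complex.im_sum]
    apply Finset.sum_congr rfl
    intro j _
    obtain ⟨h2, h3⟩ := cau_prod (theta_continuous n j) (theta_compact hM hτ n j)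
      (rho1_continuous c (r₀ := r₀) n j) (rho1_compact c hr n j) x y
    rw [h3]
    have := ContinuousLinearMap.integral_comp_comm Complex.imCLM h2
    simp only [Complex.imCLM_apply] at this
    rw [← this]
    congr 1
    ext η
    rw [Complex.mul_im]
    simp
  · intro j _; exact prod_continuous (theta_continuous n j) (rho1_continuous c n j)
  · intro j _; exact prod_compact (theta_compact hM hτ n j) (rho1_compact c hr n j)

lemma rho1_sum_children (hM : 2 ≤ M) (hr : 0 < r₀) (n j : ℕ) (a : ℝ) :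
    ∑ i ∈ Finset.range (M ^ 2), rho1 c r₀ (n + 1) (M ^ 2 * j + i) a = rho1 c r₀ n j a := by
  have h1 : HasDerivAt (fun a => ∑ i ∈ Finset.range (M ^ 2), rho c r₀ (n + 1) (M ^ 2 * j + i) a)
      (∑ i ∈ Finset.range (M ^ 2), rho1 c r₀ (n + 1) (M ^ 2 * j + i) a) a := by
    apply HasDerivAt.fun_sum
    intro i _
    exact rho_hasDeriv c r₀ (n + 1) _ a
  have h2 : (fun a => ∑ i ∈ Finset.range (M ^ 2), rho c r₀ (n + 1) (M ^ 2 * j + i) a) = rho c r₀ n j := by
    ext a; exact rho_children c r₀ (by omega) hr n j a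
  rw [h2] at h1
  exact h1.unique (rho_hasDeriv c r₀ n j a)

lemma cn_integrable (hM : 2 ≤ M) (hr : 0 < r₀) (hτ : 0 < τ₀) (m n i j : ℕ) (x y : ℝ) :
    Integrable (fun η : ℝ => kb (theta (M ^ 2) τ₀ m i) x η * ((rho c r₀ n j (y - η) : ℝ) : ℂ)) :=
  (cau_prod (theta_continuous m i) (theta_compact hM hτ m i) (rho_continuous c n j)
      (rho_compact c hr n j) x y).1

lemma Dn_integrable (hM : 2 ≤ M) (hr : 0 < r₀) (hτ : 0 < τ₀) (m n i j : ℕ) (x y : ℝ) :
    Integrable (fun η : ℝ => (kb (theta (M ^ 2) τ₀ m i) x η).im * rho1 c r₀ n j (y - η)) := by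
  have h := (cau_prod (theta_continuous m i) (theta_compact hM hτ m i) (rho1_continuous c (r₀ := r₀) n j)
      (rho1_compact c hr n j) x y).1
  refine h.im.congr (Eventually.of_forall fun η => ?_)
  simp only [RCLike.im_to_complex]
  rw [Complex.mul_im]
  simp

/-- (A3) -/
lemma cn_incr (hM : 4 ≤ M) (hr : 0 < r₀) (hτ : 0 < τ₀) :
    ∃ A : ℝ, 0 < A ∧ ∀ n z, ‖cn c r₀ τ₀ (n + 1) z - cn c r₀ τ₀ n z‖ ≤ A * (1 / 8) ^ n := by
  obtain ⟨A, hA, h⟩ := incrC_bound c hM hr hτ
  refine ⟨A, hA, fun n z => ?_⟩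
  obtain ⟨H, hHi, hHint, hH⟩ := h n
  have hM2 : 2 ≤ M := by omega
  have hN : 0 < M ^ 2 := by positivity
  obtain ⟨x, y⟩ := z
  have e1 : cn c r₀ τ₀ n ⟨x, y⟩ = ∑ j ∈ Finset.range ((M ^ 2) ^ (n + 1)),
      ∫ η : ℝ, kb (theta (M ^ 2) τ₀ n (j / M ^ 2)) x η * ((rho c r₀ (n + 1) j (y - η) : ℝ) : ℂ) := by
    rw [cn_repr c hM2 hr hτ, pow_succ (M ^ 2) n, sum_range_mul']
    apply Finset.sum_congr rfl
    intro j _
    rw [← integral_finsetSum]
    · congr 1
      ext η
      rw [← rho_children c r₀ (by omega) hr n j (y - η)]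
      push_cast
      rw [Finset.mul_sum]
      apply Finset.sum_congr rfl
      intro i hi
      have hi' := Finset.mem_range.1 hi
      rw [Nat.mul_add_div hN, Nat.div_eq_of_lt hi', add_zero]
    · intro i _
      exact cn_integrable c hM2 hr hτ _ _ _ _ x y
  rw [e1, cn_repr c hM2 hr hτ, ← Finset.sum_sub_distrib]
  have e2 : ∀ j ∈ Finset.range ((M ^ 2) ^ (n + 1)),
      (∫ η : ℝ, kb (theta (M ^ 2) τ₀ (n + 1) j) x η * ((rho c r₀ (n + 1) j (y - η) : ℝ) : ℂ))
      - (∫ η : ℝ, kb (theta (M ^ 2) τ₀ n (j / M ^ 2)) x η * ((rho c r₀ (n + 1) j (y - η) : ℝ) : ℂ))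
      = ∫ η : ℝ, kdiff (M ^ 2) τ₀ n x η j * ((rho c r₀ (n + 1) j (y - η) : ℝ) : ℂ) := by
    intro j _
    rw [← integral_sub (cn_integrable c hM2 hr hτ _ _ _ _ x y) (cn_integrable c hM2 hr hτ _ _ _ _ x y)]
    congr 1
    ext η
    unfold kdiff
    ring
  rw [Finset.sum_congr rfl e2, ← integral_finsetSum]
  · refine le_trans ?_ hHint
    apply norm_integral_le_of_norm_le hHi
    have hae : ∀ᵐ η : ℝ, η ≠ 0 := by simp [ae_iff]
    filter_upwards [hae] with η hη
    refine le_trans ?_ (hH x y η hη)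
    refine (norm_sum_le _ _).trans (le_of_eq ?_)
    apply Finset.sum_congr rfl
    intro j _
    rw [norm_mul, Complex.norm_real, Real.norm_eq_abs, abs_of_nonneg (rho_nonneg c r₀ _ _ _)]
  · intro j _
    have := (cn_integrable c hM2 hr hτ (n + 1) (n + 1) j j x y).sub
      (cn_integrable c hM2 hr hτ n (n + 1) (j / M ^ 2) j x y)
    refine this.congr (Eventually.of_forall fun η => ?_)
    simp only [Pi.sub_apply]
    unfold kdiff
    ring

/-- (A2) -/
lemma Dn_incr (hM : 2 ≤ M) (hr : 0 < r₀) (hτ : 0 < τ₀) :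
    ∃ A : ℝ, 0 < A ∧ ∀ n z, |Dn c r₀ τ₀ (n + 1) z - Dn c r₀ τ₀ n z| ≤ A * (1 / 2) ^ n := by
  obtain ⟨A, hA, h⟩ := incrD_bound c hM hr hτ
  obtain ⟨C, hC0, hC⟩ := Th_bound
  refine ⟨A, hA, fun n z => ?_⟩
  obtain ⟨H, hHi, hHint, hH⟩ := h n
  have hN : 0 < M ^ 2 := by positivity
  obtain ⟨x, y⟩ := z
  have e1 : Dn c r₀ τ₀ n ⟨x, y⟩ = ∑ j ∈ Finset.range ((M ^ 2) ^ (n + 1)),
      ∫ η : ℝ, (kb (theta (M ^ 2) τ₀ n (j / M ^ 2)) x η).im * rho1 c r₀ (n + 1) j (y - η) := by
    rw [Dn_repr c hM hr hτ, pow_succ (M ^ 2) n, sum_range_mul']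
    apply Finset.sum_congr rfl
    intro j _
    rw [← integral_finsetSum]
    · congr 1
      ext η
      rw [← rho1_sum_children c hM hr n j (y - η), Finset.mul_sum]
      apply Finset.sum_congr rfl
      intro i hi
      have hi' := Finset.mem_range.1 hi
      rw [Nat.mul_add_div hN, Nat.div_eq_of_lt hi', add_zero]
    · intro i _
      exact Dn_integrable c hM hr hτ _ _ _ _ x y
  rw [e1, Dn_repr c hM hr hτ, ← Finset.sum_sub_distrib]
  have e2 : ∀ j ∈ Finset.range ((M ^ 2) ^ (n + 1)),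
      (∫ η : ℝ, (kb (theta (M ^ 2) τ₀ (n + 1) j) x η).im * rho1 c r₀ (n + 1) j (y - η))
      - (∫ η : ℝ, (kb (theta (M ^ 2) τ₀ n (j / M ^ 2)) x η).im * rho1 c r₀ (n + 1) j (y - η))
      = ∫ η : ℝ, (kdiff (M ^ 2) τ₀ n x η j).im * rho1 c r₀ (n + 1) j (y - η) := by
    intro j _
    rw [← integral_sub (Dn_integrable c hM hr hτ _ _ _ _ x y) (Dn_integrable c hM hr hτ _ _ _ _ x y)]
    congr 1
    ext η
    unfold kdiff
    rw [Complex.sub_im]
    ring
  have hint : ∀ j, Integrable (fun η : ℝ => (kdiff (M ^ 2) τ₀ n x η j).im * rho1 c r₀ (n + 1) j (y - η)) := by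
    intro j
    have := (Dn_integrable c hM hr hτ (n + 1) (n + 1) j j x y).sub
      (Dn_integrable c hM hr hτ n (n + 1) (j / M ^ 2) j x y)
    refine this.congr (Eventually.of_forall fun η => ?_)
    simp only [Pi.sub_apply]
    unfold kdiff
    rw [Complex.sub_im]
    ring
  rw [Finset.sum_congr rfl e2, ← integral_finsetSum]
  · -- symmetrise
    set F : ℝ → ℝ := fun η => ∑ j ∈ Finset.range ((M ^ 2) ^ (n + 1)),
      (kdiff (M ^ 2) τ₀ n x η j).im * rho1 c r₀ (n + 1) j (y - η) with hF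
    have hFi : Integrable F := by
      apply integrable_finsetSum
      intro j _
      exact hint j
    have hFn : Integrable (fun η => F (-η)) := hFi.comp_neg
    have hsym : ∫ η, F η = 1 / 2 * ∫ η, (F η + F (-η)) := by
      rw [integral_add hFi hFn, integral_neg_eq_self F volume]
      ring
    have hA' : |∫ η, (F η + F (-η))| ≤ A * (1 / 2) ^ n := by
      refine le_trans ?_ hHint
      rw [← Real.norm_eq_abs]
      apply norm_integral_le_of_norm_le hHi
      have hae : ∀ᵐ η : ℝ, η ≠ 0 := by simp [ae_iff]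
      filter_upwards [hae] with η hη
      refine le_trans ?_ (hH x y η hη)
      have e3 : F η + F (-η) = ∑ j ∈ Finset.range ((M ^ 2) ^ (n + 1)),
          (kdiff (M ^ 2) τ₀ n x η j).im * (rho1 c r₀ (n + 1) j (y - η) - rho1 c r₀ (n + 1) j (y + η)) := by
        simp only [hF]
        rw [← Finset.sum_add_distrib]
        apply Finset.sum_congr rfl
        intro j _
        have h1 := kb_im_neg _ (theta_isBump hN hτ hC (n + 1) j) x hη
        have h2 := kb_im_neg _ (theta_isBump hN hτ hC n (j / M ^ 2)) x hη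
        unfold kdiff
        rw [Complex.sub_im, Complex.sub_im, h1, h2, sub_neg_eq_add]
        ring_nf
      rw [e3]
      refine (norm_sum_le _ _).trans (le_of_eq ?_)
      apply Finset.sum_congr rfl
      intro j _
      rw [norm_mul, Real.norm_eq_abs, Real.norm_eq_abs]
    rw [hsym, abs_mul]
    have h0 : 0 ≤ A * (1 / 2) ^ n := by positivity
    have : |(1:ℝ) / 2| = 1 / 2 := abs_of_pos (by norm_num)
    rw [this]
    linarith
  · intro j _
    exact hint j

end Pool.Agent.BG
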