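import Mathlib
import Pool.Agent.Lib.MP_f76209_pr.Seq
import Pool.Agent.Lib.MP_f76209_pr.Homeo

set_option autoImplicit false
open MeasureTheory Set Filter Topology Complex

namespace Pool.Agent.BG

variable {M : ℕ} (c : Choice M) {r₀ τ₀ : ℝ}

noncomputable def sreal (c : Choice M) (r₀ τ₀ : ℝ) (n : ℕ) (z : ℂ) : ℝ :=
  ∑ j ∈ Finset.range ((M ^ 2) ^ n), theta (M ^ 2) τ₀ n j z.re * rho c r₀ n j z.im

lemma sden_eq (n : ℕ) (z : ℂ) : sden c r₀ τ₀ n z = ((sreal c r₀ τ₀ n z : ℝ) : ℂ) := by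
  unfold sden sreal; push_cast; rfl

lemma theta_nonneg (hM : 2 ≤ M) (hτ : 0 < τ₀) (n j : ℕ) (x : ℝ) : 0 ≤ theta (M ^ 2) τ₀ n j x := by
  obtain ⟨C, _, hC⟩ := Th_bound
  exact (theta_isBump (by positivity) hτ hC n j).nonneg x

lemma sreal_nonneg (hM : 2 ≤ M) (hτ : 0 < τ₀) (n : ℕ) (z : ℂ) : 0 ≤ sreal c r₀ τ₀ n z := by
  apply Finset.sum_nonneg
  intro j _
  exact mul_nonneg (theta_nonneg hM hτ n j _) (rho_nonneg c r₀ n j _)

lemma cn_diff (hM : 2 ≤ M) (hr : 0 < r₀) (hτ : 0 < τ₀) (n : ℕ) (z : ℂ) :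
    DifferentiableAt ℝ (cn c r₀ τ₀ n) z :=
  (cau_hasFDerivAt (sden_contDiff c n) (sden_compact c hM hr hτ n) z).1

lemma cn_dbar (hM : 2 ≤ M) (hr : 0 < r₀) (hτ : 0 < τ₀) (n : ℕ) (z : ℂ) :
    fderiv ℝ (cn c r₀ τ₀ n) z 1 + I * fderiv ℝ (cn c r₀ τ₀ n) z I
      = 2 * Real.pi * sden c r₀ τ₀ n z :=
  cau_dbar (sden_contDiff c n) (sden_compact c hM hr hτ n) z

lemma cn_holo (hM : 2 ≤ M) (hr : 0 < r₀) (hτ : 0 < τ₀) (n : ℕ) {z : ℂ}
    (hz : sden c r₀ τ₀ n z = 0) : DifferentiableAt ℂ (cn c r₀ τ₀ n) z := by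
  rw [differentiableAt_complex_iff_differentiableAt_real]
  refine ⟨cn_diff c hM hr hτ n z, ?_⟩
  have h := cn_dbar c hM hr hτ n z
  rw [hz, mul_zero] at h
  have h1 : fderiv ℝ (cn c r₀ τ₀ n) z 1 = -(I * fderiv ℝ (cn c r₀ τ₀ n) z I) :=
    eq_neg_of_add_eq_zero_left h
  rw [smul_eq_mul, h1]
  have : I * -(I * fderiv ℝ (cn c r₀ τ₀ n) z I) = -(I * I) * fderiv ℝ (cn c r₀ τ₀ n) z I := by ring
  rw [this, I_mul_I]
  ring

lemma Dn_bounded (hM : 2 ≤ M) (hr : 0 < r₀) (hτ : 0 < τ₀) :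
    ∃ D : ℝ, 0 ≤ D ∧ ∀ n z, |Dn c r₀ τ₀ n z| ≤ D := by
  obtain ⟨A, hA, hinc⟩ := Dn_incr c hM hr hτ
  have h0 : ∃ B : ℝ, ∀ z, |Dn c r₀ τ₀ 0 z| ≤ B := by
    have hs1c : Continuous (fun w => fderiv ℝ (sden c r₀ τ₀ 0) w I) :=
      ((sden_contDiff c 0).continuous_fderiv one_ne_zero).clm_apply continuous_const
    have hs1s : HasCompactSupport (fun w => fderiv ℝ (sden c r₀ τ₀ 0) w I) :=
      (sden_compact c hM hr hτ 0).fderiv_apply ℝ I
    obtain ⟨B, hB⟩ := cau_bounded hs1c hs1s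
    refine ⟨B, fun z => ?_⟩
    unfold Dn cn
    rw [(cau_hasFDerivAt (sden_contDiff c 0) (sden_compact c hM hr hτ 0) z).2 I]
    exact (Complex.abs_im_le_norm _).trans (hB z)
  obtain ⟨B, hB⟩ := h0
  have h1 : ∀ n z, |Dn c r₀ τ₀ n z| ≤ B + 2 * A * (1 - (1 / 2) ^ n) := by
    intro n z
    induction n with
    | zero => simpa using hB z
    | succ n ih =>
      have e1 := hinc n z
      have e2 : |Dn c r₀ τ₀ (n + 1) z| ≤ |Dn c r₀ τ₀ n z| + |Dn c r₀ τ₀ (n + 1) z - Dn c r₀ τ₀ n z| := by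
        have := abs_add_le (Dn c r₀ τ₀ n z) (Dn c r₀ τ₀ (n + 1) z - Dn c r₀ τ₀ n z)
        rwa [add_sub_cancel] at this
      refine e2.trans ((add_le_add ih e1).trans (le_of_eq ?_))
      rw [pow_succ]
      ring
  refine ⟨|B| + 2 * A, by positivity, fun n z => (h1 n z).trans ?_⟩
  have h2 : (0:ℝ) ≤ (1 / 2) ^ n := by positivity
  have h3 := le_abs_self B
  nlinarith

lemma cn_mono (hM : 2 ≤ M) (hr : 0 < r₀) (hτ : 0 < τ₀) {D : ℝ}
    (hD : ∀ n z, |Dn c r₀ τ₀ n z| ≤ D) (n : ℕ) (z w : ℂ) :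
    -D * ‖z - w‖ ^ 2 ≤ ((cn c r₀ τ₀ n z - cn c r₀ τ₀ n w) * (starRingEnd ℂ) (z - w)).re := by
  set h := z - w with hh
  set φ : ℝ → ℝ := fun t => (cn c r₀ τ₀ n (w + t * h) * (starRingEnd ℂ) h).re with hφ
  set φ' : ℝ → ℝ := fun t => (fderiv ℝ (cn c r₀ τ₀ n) (w + t * h) h * (starRingEnd ℂ) h).re with hφ'
  have hder : ∀ t, HasDerivAt φ (φ' t) t := by
    intro t
    have h1 : HasDerivAt (fun t : ℝ => w + t * h) h t := by
      simpa using ((Complex.ofRealCLM.hasDerivAt (x := t)).mul_const h).const_add w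
    have h2 := (cn_diff c hM hr hτ n (w + t * h)).hasFDerivAt.comp_hasDerivAt t h1
    have h3 := h2.mul_const ((starRingEnd ℂ) h)
    exact Complex.reCLM.hasFDerivAt.comp_hasDerivAt t h3
  have hlow : ∀ t, -D * ‖h‖ ^ 2 ≤ φ' t := by
    intro t
    simp only [hφ']
    set L := fderiv ℝ (cn c r₀ τ₀ n) (w + t * h) with hL
    have e1 := cn_dbar c hM hr hτ n (w + t * h)
    rw [← hL, sden_eq] at e1
    have e2 : (L I).im = Dn c r₀ τ₀ n (w + t * h) := rfl
    have e3 := hD n (w + t * h)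
    rw [← e2] at e3
    have e4 := (abs_le.1 e3).1
    have e5 := sreal_nonneg c (r₀ := r₀) hM hτ n (w + t * h)
    set s := sreal c r₀ τ₀ n (w + t * h) with hs
    have e6 : L h = h.re * L 1 + h.im * L I := by
      have : h = h.re • (1:ℂ) + h.im • I := by
        apply Complex.ext <;> simp
      conv_lhs => rw [this]
      rw [map_add, map_smul, map_smul, Complex.real_smul, Complex.real_smul]
    have hre : (L 1).re = 2 * Real.pi * s + (L I).im := by
      have := congrArg Complex.re e1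
      simp only [Complex.add_re, Complex.mul_re, Complex.I_re, Complex.I_im, Complex.ofReal_re,
        Complex.ofReal_im, Complex.mul_im] at this
      norm_num at this
      linarith
    have him : (L 1).im = -(L I).re := by
      have := congrArg Complex.im e1
      simp only [Complex.add_im, Complex.mul_re, Complex.I_re, Complex.I_im, Complex.ofReal_re,
        Complex.ofReal_im, Complex.mul_im] at this
      norm_num at this
      linarith
    rw [e6]
    have e7 : ((↑h.re * L 1 + ↑h.im * L I) * (starRingEnd ℂ) h).re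
        = h.re ^ 2 * (2 * Real.pi * s + (L I).im) + h.im ^ 2 * (L I).im := by
      simp only [Complex.add_re, Complex.mul_re, Complex.ofReal_re, Complex.ofReal_im,
        Complex.mul_im, Complex.conj_re, Complex.conj_im, Complex.add_im]
      rw [hre, him]
      ring
    rw [e7]
    have e8 : ‖h‖ ^ 2 = h.re ^ 2 + h.im ^ 2 := by
      rw [← Complex.normSq_eq_norm_sq, Complex.normSq_apply]; ring
    rw [e8]
    have e9 : 0 ≤ h.re ^ 2 * (2 * Real.pi * s) := by
      have := Real.pi_pos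
      positivity
    nlinarith [mul_le_mul_of_nonneg_left e4 (sq_nonneg h.re), mul_le_mul_of_nonneg_left e4 (sq_nonneg h.im)]
  obtain ⟨t, _, ht⟩ := exists_hasDerivAt_eq_slope φ φ' (by norm_num : (0:ℝ) < 1)
    (fun t _ => (hder t).continuousAt.continuousWithinAt) (fun t _ => hder t)
  have h1 : φ 1 - φ 0 = ((cn c r₀ τ₀ n z - cn c r₀ τ₀ n w) * (starRingEnd ℂ) h).re := by
    simp only [hφ]
    have e1 : w + ((1:ℝ) : ℂ) * h = z := by rw [hh]; push_cast; ring
    have e0 : w + ((0:ℝ) : ℂ) * h = w := by push_cast; ring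
    rw [e1, e0, sub_mul, Complex.sub_re]
  rw [← h1]
  have h2 := hlow t
  rw [ht] at h2
  simpa using h2

/-- the limit function -/
lemma exists_lim (hM : 4 ≤ M) (hr : 0 < r₀) (hτ : 0 < τ₀) :
    ∃ F : ℂ → ℂ, Continuous F ∧ (∃ B, ∀ z, ‖F z‖ ≤ B) ∧
      TendstoUniformly (cn c r₀ τ₀) F atTop := by
  have hM2 : 2 ≤ M := by omega
  obtain ⟨A, hA, hinc⟩ := cn_incr c hM hr hτ
  have hu : ∀ z n, dist (cn c r₀ τ₀ n z) (cn c r₀ τ₀ (n + 1) z) ≤ A * (1 / 8) ^ n := by
    intro z n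
    rw [dist_comm, dist_eq_norm]
    exact hinc n z
  have hcauchy : ∀ z, CauchySeq (fun n => cn c r₀ τ₀ n z) := fun z =>
    cauchySeq_of_le_geometric (1 / 8) A (by norm_num) (hu z)
  choose F hF using fun z => cauchySeq_tendsto_of_complete (hcauchy z)
  have hrate : ∀ z n, dist (cn c r₀ τ₀ n z) (F z) ≤ A * (1 / 8) ^ n / (1 - 1 / 8) := fun z n =>
    dist_le_of_le_geometric_of_tendsto (1 / 8) A (by norm_num) (hu z) (hF z) n
  have hunif : TendstoUniformly (cn c r₀ τ₀) F atTop := by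
    rw [Metric.tendstoUniformly_iff]
    intro ε hε
    have hlim : Tendsto (fun n : ℕ => A * (1 / 8 : ℝ) ^ n / (1 - 1 / 8)) atTop (𝓝 0) := by
      have := (tendsto_pow_atTop_nhds_zero_of_lt_one (by norm_num : (0:ℝ) ≤ 1 / 8) (by norm_num)).const_mul A
      have h2 := this.div_const (1 - 1 / 8)
      simpa using h2
    filter_upwards [hlim.eventually_lt_const hε] with n hn z
    rw [dist_comm]
    exact (hrate z n).trans_lt hn
  have hcont : ∀ n, Continuous (cn c r₀ τ₀ n) := fun n =>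
    cau_continuous (sden_contDiff c n).continuous (sden_compact c hM2 hr hτ n)
  refine ⟨F, hunif.continuous (Frequently.of_forall hcont), ?_, hunif⟩
  obtain ⟨B, hB⟩ := cau_bounded (sden_contDiff c 0).continuous (sden_compact c hM2 hr hτ 0) (S := sden c r₀ τ₀ 0)
  refine ⟨A * (1 / 8) ^ 0 / (1 - 1 / 8) + B, fun z => ?_⟩
  have h1 := hrate z 0
  rw [dist_comm, dist_eq_norm] at h1
  have h2 := norm_add_le (F z - cn c r₀ τ₀ 0 z) (cn c r₀ τ₀ 0 z)
  rw [sub_add_cancel] at h2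
  have h3 : ‖cn c r₀ τ₀ 0 z‖ ≤ B := hB z
  linarith

/-! ### the limit is not constant -/

lemma kb_re {θ : ℝ → ℝ} {a τ C : ℝ} (h : IsBump θ a τ C) {x η : ℝ} (hη : η ≠ 0) :
    (kb θ x η).re = ∫ x', θ x' • (ker (x - x') η).re := by
  unfold kb
  have h1 : Integrable (fun x' => θ x' • ker (x - x') η) :=
    (h.cont.smul ((ker_continuous hη).comp (by fun_prop))).integrable_of_hasCompactSupport
      h.compact.smul_right
  have := ContinuousLinearMap.integral_comp_comm Complex.reCLM h1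
  simp only [Complex.reCLM_apply, Complex.smul_re] at this
  rw [← this]

lemma cn_re_repr (hM : 2 ≤ M) (hr : 0 < r₀) (hτ : 0 < τ₀) (n : ℕ) (x y : ℝ) :
    (cn c r₀ τ₀ n ⟨x, y⟩).re = ∑ j ∈ Finset.range ((M ^ 2) ^ n),
      ∫ η : ℝ, (kb (theta (M ^ 2) τ₀ n j) x η).re * rho c r₀ n j (y - η) := by
  rw [cn_repr c hM hr hτ, Complex.re_sum]
  apply Finset.sum_congr rfl
  intro j _
  have h2 := cn_integrable c hM hr hτ n n j j x y
  have := ContinuousLinearMap.integral_comp_comm Complex.reCLM h2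
  simp only [Complex.reCLM_apply] at this
  rw [← this]
  congr 1
  ext η
  rw [Complex.mul_re]
  simp

lemma rho_sum_all (hM : 2 ≤ M) (hr : 0 < r₀) (n : ℕ) (a : ℝ) :
    ∑ j ∈ Finset.range ((M ^ 2) ^ n), rho c r₀ n j a = rho c r₀ 0 0 a := by
  have h := rho_desc c r₀ hM hr 0 n 0 a
  unfold dsum at h
  simpa using h

/-- the support of the time bumps -/
lemma theta_supp (hM : 2 ≤ M) (hτ : 0 < τ₀) (n j : ℕ) (hj : j < (M ^ 2) ^ n) (x : ℝ)
    (hx : x ∉ Icc 0 τ₀) : theta (M ^ 2) τ₀ n j x = 0 := by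
  obtain ⟨C, _, hC⟩ := Th_bound
  have hN : 0 < M ^ 2 := by positivity
  apply (theta_isBump hN hτ hC n j).supp
  intro h
  apply hx
  have ht := tau_pos hN hτ n
  have h1 : ((M ^ 2 : ℕ) : ℝ) ^ n * tau (M ^ 2) τ₀ n = τ₀ := by
    unfold tau; push_cast; field_simp
  constructor
  · refine le_trans ?_ h.1
    positivity
  · refine h.2.trans ?_
    have h2 : (j : ℝ) + 1 ≤ ((M ^ 2 : ℕ) : ℝ) ^ n := by exact_mod_cast hj
    have h3 := mul_le_mul_of_nonneg_right h2 ht.le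
    rw [h1] at h3
    linarith

lemma rho00_int_pos (hr : 0 < r₀) : 0 < ∫ a, rho c r₀ 0 0 a := by
  have hcont := rho_continuous c (r₀ := r₀) 0 0
  rw [integral_pos_iff_support_of_nonneg (fun a => rho_nonneg c r₀ 0 0 a)
    (hcont.integrable_of_hasCompactSupport (rho_compact c hr 0 0))]
  have ho : IsOpen (Function.support (rho c r₀ 0 0)) := hcont.isOpen_support
  refine ho.measure_pos volume ⟨0, ?_⟩
  rw [Function.mem_support]
  simp only [rho, mul_zero]
  unfold chi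
  rw [Real.smoothTransition.zero, zero_add, Real.smoothTransition.one]
  norm_num

lemma cn_right (hM : 2 ≤ M) (hr : 0 < r₀) (hτ : 0 < τ₀) :
    ∃ m : ℝ, 0 < m ∧ ∀ n, m ≤ (cn c r₀ τ₀ n ⟨τ₀ + 1, 0⟩).re := by
  obtain ⟨C, _, hC⟩ := Th_bound
  have hN : 0 < M ^ 2 := by positivity
  set m₀ : ℝ := 1 / ((τ₀ + 1) ^ 2 + r₀ ^ 2) with hm₀
  have hm₀p : 0 < m₀ := by positivity
  refine ⟨m₀ * ∫ a, rho c r₀ 0 0 a, mul_pos hm₀p (rho00_int_pos c hr), fun n => ?_⟩
  rw [cn_re_repr c hM hr hτ]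
  have h1 : ∀ j ∈ Finset.range ((M ^ 2) ^ n), ∫ η : ℝ, m₀ * rho c r₀ n j (0 - η) ≤
      ∫ η : ℝ, (kb (theta (M ^ 2) τ₀ n j) (τ₀ + 1) η).re * rho c r₀ n j (0 - η) := by
    intro j hj
    have hj' := Finset.mem_range.1 hj
    have hint : Integrable (fun η => rho c r₀ n j (0 - η)) :=
      ((rho_continuous c n j).integrable_of_hasCompactSupport (rho_compact c hr n j)).comp_sub_left 0
    have hint2 : Integrable (fun η : ℝ => (kb (theta (M ^ 2) τ₀ n j) (τ₀ + 1) η).re * rho c r₀ n j (0 - η)) := by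
      refine (cn_integrable c hM hr hτ n n j j (τ₀ + 1) 0).re.congr (Eventually.of_forall fun η => ?_)
      simp only [RCLike.re_to_complex]
      rw [Complex.mul_re]
      simp
    apply integral_mono_ae (hint.const_mul m₀) hint2
    have hae : ∀ᵐ η : ℝ, η ≠ 0 := by simp [ae_iff]
    filter_upwards [hae] with η hη
    by_cases hηr : r₀ ≤ |0 - η|
    · rw [rho_zero_of_le c r₀ hr n j hηr]; simp
    · push Not at hηr
      rw [zero_sub, abs_neg] at hηr
      apply mul_le_mul_of_nonneg_right _ (rho_nonneg c r₀ n j _)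
      have hb := theta_isBump hN hτ hC n j
      rw [kb_re hb hη]
      have h2 : m₀ = ∫ x', theta (M ^ 2) τ₀ n j x' * m₀ := by
        rw [integral_mul_const, hb.int, one_mul]
      rw [h2]
      apply integral_mono (hb.integrable.mul_const _)
      · exact (hb.cont.smul (Complex.continuous_re.comp ((ker_continuous hη).comp (by fun_prop)))).integrable_of_hasCompactSupport
          hb.compact.smul_right
      · intro x'
        simp only [smul_eq_mul]
        by_cases hx' : x' ∈ Icc 0 τ₀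
        · apply mul_le_mul_of_nonneg_left _ (hb.nonneg x')
          rw [ker_re, hm₀]
          have h3 : 1 ≤ τ₀ + 1 - x' := by linarith [hx'.2]
          have h4 : τ₀ + 1 - x' ≤ τ₀ + 1 := by linarith [hx'.1]
          have hη2 : η ^ 2 ≤ r₀ ^ 2 := by rw [← sq_abs η]; gcongr
          have hη2p : 0 < η ^ 2 := by positivity
          apply div_le_div₀ (by linarith) h3 (by positivity)
          gcongr
        · rw [theta_supp hM hτ n j hj' x' hx']; simp
  refine le_trans (le_of_eq ?_) (Finset.sum_le_sum h1)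
  rw [← integral_finsetSum]
  · rw [← integral_const_mul]
    rw [← integral_sub_left_eq_self (fun a => m₀ * rho c r₀ 0 0 a) volume 0]
    congr 1
    ext η
    rw [← Finset.mul_sum, rho_sum_all c hM hr]
  · intro j _
    exact (((rho_continuous c n j).integrable_of_hasCompactSupport (rho_compact c hr n j)).comp_sub_left 0).const_mul m₀

lemma cn_left (hM : 2 ≤ M) (hr : 0 < r₀) (hτ : 0 < τ₀) (n : ℕ) :
    (cn c r₀ τ₀ n ⟨-1, 0⟩).re ≤ 0 := by
  obtain ⟨C, _, hC⟩ := Th_bound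
  have hN : 0 < M ^ 2 := by positivity
  rw [cn_re_repr c hM hr hτ]
  apply Finset.sum_nonpos
  intro j hj
  have hj' := Finset.mem_range.1 hj
  apply integral_nonpos_of_ae
  have hae : ∀ᵐ η : ℝ, η ≠ 0 := by simp [ae_iff]
  filter_upwards [hae] with η hη
  apply mul_nonpos_of_nonpos_of_nonneg _ (rho_nonneg c r₀ n j _)
  have hb := theta_isBump hN hτ hC n j
  rw [kb_re hb hη]
  apply integral_nonpos
  intro x'
  simp only [smul_eq_mul, Pi.zero_apply]
  by_cases hx' : x' ∈ Icc 0 τ₀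
  · apply mul_nonpos_of_nonneg_of_nonpos (hb.nonneg x')
    rw [ker_re]
    apply div_nonpos_of_nonpos_of_nonneg
    · linarith [hx'.1]
    · positivity
  · rw [theta_supp hM hτ n j hj' x' hx']; simp

end Pool.Agent.BG
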