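import Mathlib
import Pool.Agent.Lib.MP_f76209_pr.Limit
import Pool.Agent.Lib.MP_f76209_pr_helper85.Path

set_option autoImplicit false
open MeasureTheory Set Filter Topology Complex

namespace Pool.Agent.BG

lemma exists_choice {M : ℕ} (hM : 4 ≤ M) (G : ℕ → ℕ → ℤ → Prop) :
    ∃ c : Choice M, ∀ n j (l : ℤ),
      (∃ S : Finset ℕ, S.card = 8 ∧ (∀ i ∈ S, i < M ^ 2) ∧ ∀ i ∈ S, G (n + 1) (M ^ 2 * j + i) l) →
      ∀ i ∈ c.Ch n j l, G (n + 1) (M ^ 2 * j + i) l := by
  have hex : ∀ n j (l : ℤ), ∃ S : Finset ℕ, S.card = 8 ∧ (∀ i ∈ S, i < M ^ 2) ∧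
      ((∃ S : Finset ℕ, S.card = 8 ∧ (∀ i ∈ S, i < M ^ 2) ∧ ∀ i ∈ S, G (n + 1) (M ^ 2 * j + i) l) →
        ∀ i ∈ S, G (n + 1) (M ^ 2 * j + i) l) := by
    intro n j l
    by_cases h : ∃ S : Finset ℕ, S.card = 8 ∧ (∀ i ∈ S, i < M ^ 2) ∧
      ∀ i ∈ S, G (n + 1) (M ^ 2 * j + i) l
    · obtain ⟨S, h1, h2, h3⟩ := h
      exact ⟨S, h1, h2, fun _ => h3⟩
    · refine ⟨Finset.range 8, by simp, fun i hi => ?_, fun h' => absurd h' h⟩
      have := Finset.mem_range.1 hi
      nlinarith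
  choose Ch h1 h2 h3 using hex
  exact ⟨⟨Ch, h1, h2⟩, h3⟩

lemma rho_supp {M : ℕ} (hM : 4 ≤ M) {r₀ : ℝ} (G : ℕ → ℕ → ℤ → Prop) (hG0 : G 0 0 0)
    (hG2 : ∀ n j k, G n j k → ∀ l : ℤ, |l - M * k| ≤ M →
      ∃ S : Finset ℕ, S.card = 8 ∧ (∀ i ∈ S, i < M ^ 2) ∧ ∀ i ∈ S, G (n + 1) (M ^ 2 * j + i) l)
    (c : Choice M) (hc : ∀ n j (l : ℤ),
      (∃ S : Finset ℕ, S.card = 8 ∧ (∀ i ∈ S, i < M ^ 2) ∧ ∀ i ∈ S, G (n + 1) (M ^ 2 * j + i) l) →
      ∀ i ∈ c.Ch n j l, G (n + 1) (M ^ 2 * j + i) l)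
    (n j : ℕ) (hj : j < (M ^ 2) ^ n) (a : ℝ) (ha : rho c r₀ n j a ≠ 0) :
    ∃ k : ℤ, G n j k ∧ |kap M r₀ n * a - k| < 1 := by
  have hN : 0 < M ^ 2 := by positivity
  have hMr : (0:ℝ) < M := by exact_mod_cast (by omega : 0 < M)
  induction n generalizing j with
  | zero =>
    have hj0 : j = 0 := by simpa using hj
    subst hj0
    refine ⟨0, hG0, ?_⟩
    simp only [rho] at ha
    by_contra h
    push Not at h
    apply ha
    apply chi_zero
    simpa using h
  | succ n ih =>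
    simp only [rho] at ha
    have h1 : rho c r₀ n (j / M ^ 2) a ≠ 0 := left_ne_zero_of_mul ha
    have h2 : wt c r₀ n j a ≠ 0 := right_ne_zero_of_mul ha
    have hj' : j / M ^ 2 < (M ^ 2) ^ n := by
      rw [Nat.div_lt_iff_lt_mul hN, ← pow_succ (M ^ 2) n]; exact hj
    obtain ⟨k, hk, hka⟩ := ih (j / M ^ 2) hj' h1
    unfold wt at h2
    have h3 : wsum c r₀ chi n j a ≠ 0 := right_ne_zero_of_mul h2
    unfold wsum at h3
    obtain ⟨l, _, hl⟩ := Finset.exists_ne_zero_of_sum_ne_zero h3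
    have hmem : j % M ^ 2 ∈ c.Ch n (j / M ^ 2) l := by
      by_contra hn
      rw [if_neg hn] at hl
      exact hl rfl
    rw [if_pos hmem] at hl
    have hla : |kap M r₀ (n + 1) * a - l| < 1 := by
      by_contra h
      push Not at h
      exact hl (chi_zero h)
    refine ⟨l, ?_, hla⟩
    have hlk : |l - M * k| ≤ M := by
      rw [kap_succ] at hla
      have e1 : (((l - M * k : ℤ)) : ℝ) = M * (kap M r₀ n * a - k) - (M * kap M r₀ n * a - l) := by
        push_cast; ring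
      have e2 : |((l - M * k : ℤ) : ℝ)| < M + 1 := by
        rw [e1]
        refine lt_of_le_of_lt (abs_sub _ _) ?_
        rw [abs_mul, abs_of_pos hMr]
        nlinarith
      have e3 : ((|l - M * k| : ℤ) : ℝ) < ((M + 1 : ℤ) : ℝ) := by
        push_cast
        push_cast at e2
        exact e2
      have e4 := Int.cast_lt.1 e3
      omega
    have h5 := hc n (j / M ^ 2) l (hG2 n (j / M ^ 2) k hk l hlk) (j % M ^ 2) hmem
    rwa [Nat.div_add_mod] at h5

/-- Part A (analysis). -/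
theorem homeo_of_goodTree (b : ℝ → ℝ) (hb : Continuous b) (t₀ τ₀ r₀ : ℝ) (hτ : 0 < τ₀)
    (hr : 0 < r₀) (M : ℕ) (hM : 4 ≤ M) (h : H85.GoodTree b t₀ τ₀ r₀ M) :
    ∃ f : ℂ ≃ₜ ℂ,
      DifferentiableOn ℂ (f : ℂ → ℂ)
        ({z : ℂ | ∃ t ∈ Set.Icc t₀ (t₀ + τ₀), z = Complex.mk t (b t)}ᶜ) ∧
      ¬ Differentiable ℂ (f : ℂ → ℂ) := by
  obtain ⟨G, hG0, hG1, hG2⟩ := h
  obtain ⟨c, hc⟩ := exists_choice hM G
  have hM2 : 2 ≤ M := by omega
  have hN : 0 < M ^ 2 := by positivity
  have hMr : (4:ℝ) ≤ M := by exact_mod_cast hM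
  have hM0 : (0:ℝ) < M := by linarith
  obtain ⟨F, hFc, ⟨B, hB⟩, hFu⟩ := exists_lim c hM hr hτ
  obtain ⟨D, hD0, hD⟩ := Dn_bounded c hM2 hr hτ
  have hFlim : ∀ z, Tendsto (fun n => cn c r₀ τ₀ n z) atTop (𝓝 (F z)) := fun z => hFu.tendsto_at z
  have hFm : ∀ z w, -D * ‖z - w‖ ^ 2 ≤ ((F z - F w) * (starRingEnd ℂ) (z - w)).re := by
    intro z w
    have h1 : Tendsto (fun n => ((cn c r₀ τ₀ n z - cn c r₀ τ₀ n w) * (starRingEnd ℂ) (z - w)).re)
        atTop (𝓝 (((F z - F w) * (starRingEnd ℂ) (z - w)).re)) := by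
      apply (Complex.continuous_re.tendsto _).comp
      exact ((hFlim z).sub (hFlim w)).mul_const _
    exact ge_of_tendsto' h1 fun n => cn_mono c hM2 hr hτ hD n z w
  set z₀ : ℂ := ⟨t₀, b t₀⟩ with hz₀
  set ε : ℝ := 1 / (2 * (D + 1)) with hε
  have hεp : 0 < ε := by positivity
  have hεD : ε * D ≤ 1 / 2 := by
    rw [hε, div_mul_eq_mul_div, one_mul, div_le_iff₀ (by positivity)]
    linarith
  set f : ℂ → ℂ := fun z => z + ε * F (z - z₀) with hf
  have hfc : Continuous f := by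
    simp only [hf]; fun_prop
  obtain ⟨g, hg⟩ := homeo_of_monotone f hfc (ε * B) (by
      intro z
      simp only [hf]
      rw [add_sub_cancel_left, norm_mul, Complex.norm_real, Real.norm_eq_abs, abs_of_pos hεp]
      gcongr
      exact hB _) (by
      intro z w
      have h1 := hFm (z - z₀) (w - z₀)
      have e1 : z - z₀ - (w - z₀) = z - w := by ring
      rw [e1] at h1
      have e2 : (f z - f w) * (starRingEnd ℂ) (z - w)
          = (z - w) * (starRingEnd ℂ) (z - w) + (ε : ℂ) * ((F (z - z₀) - F (w - z₀)) * (starRingEnd ℂ) (z - w)) := by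
        simp only [hf]; ring
      rw [e2, Complex.add_re, Complex.mul_conj, Complex.re_ofReal_mul, Complex.ofReal_re,
        Complex.normSq_eq_norm_sq]
      have h2 := mul_le_mul_of_nonneg_left h1 hεp.le
      nlinarith [sq_nonneg ‖z - w‖])
  refine ⟨g, ?_, ?_⟩
  · -- holomorphic off the graph
    rw [hg]
    set Γ : Set ℂ := {z : ℂ | ∃ t ∈ Set.Icc t₀ (t₀ + τ₀), z = Complex.mk t (b t)} with hΓ
    have hΓc : IsClosed Γ := by
      have : Γ = (fun t : ℝ => (⟨t, b t⟩ : ℂ)) '' Icc t₀ (t₀ + τ₀) := by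
        ext z
        simp only [hΓ, mem_ofPred_eq, mem_image]
        constructor
        · rintro ⟨t, ht, rfl⟩; exact ⟨t, ht, rfl⟩
        · rintro ⟨t, ht, rfl⟩; exact ⟨t, ht, rfl⟩
      rw [this]
      apply IsCompact.isClosed
      apply isCompact_Icc.image
      have : (fun t : ℝ => (⟨t, b t⟩ : ℂ)) = fun t : ℝ => (t : ℂ) + b t * I := by
        ext t; apply Complex.ext <;> simp
      rw [this]; fun_prop
    intro z₁ hz₁
    obtain ⟨δ, hδ, hball⟩ := Metric.isOpen_iff.1 hΓc.isOpen_compl z₁ hz₁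
    -- the supports of the densities approach the graph
    set e : ℕ → ℝ := fun n => τ₀ / ((M:ℝ) ^ 2) ^ n + (r₀ + Real.sqrt τ₀) / (M:ℝ) ^ n with he
    have helim : Tendsto e atTop (𝓝 0) := by
      have h1 : Tendsto (fun n : ℕ => ((M:ℝ) ^ 2) ^ n) atTop atTop :=
        tendsto_pow_atTop_atTop_of_one_lt (by nlinarith)
      have h2 : Tendsto (fun n : ℕ => (M:ℝ) ^ n) atTop atTop :=
        tendsto_pow_atTop_atTop_of_one_lt (by linarith)
      have h3 := (tendsto_const_nhds (x := τ₀)).div_atTop h1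
      have h4 := (tendsto_const_nhds (x := r₀ + Real.sqrt τ₀)).div_atTop h2
      simpa using h3.add h4
    have hclose : ∀ n z, sden c r₀ τ₀ n (z - z₀) ≠ 0 → ∃ p ∈ Γ, dist z p ≤ e n := by
      intro n z hs
      unfold sden at hs
      obtain ⟨j, hj, hjn⟩ := Finset.exists_ne_zero_of_sum_ne_zero hs
      have hj' := Finset.mem_range.1 hj
      have hjr : theta (M ^ 2) τ₀ n j (z - z₀).re * rho c r₀ n j (z - z₀).im ≠ 0 := by
        intro h0; apply hjn; rw [h0]; simp
      have h1 := left_ne_zero_of_mul hjr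
      have h2 := right_ne_zero_of_mul hjr
      obtain ⟨C, _, hC⟩ := Th_bound
      have hx : (z - z₀).re ∈ Icc ((j:ℝ) * tau (M ^ 2) τ₀ n) (j * tau (M ^ 2) τ₀ n + tau (M ^ 2) τ₀ n) := by
        by_contra hn
        exact h1 ((theta_isBump hN hτ hC n j).supp _ hn)
      obtain ⟨k, hGk, hka⟩ := rho_supp hM G hG0 hG2 c hc n j hj' _ h2
      have h3 := hG1 n j k hGk
      have htau : tau (M ^ 2) τ₀ n = τ₀ / (M:ℝ) ^ (2 * n) := by
        unfold tau; push_cast; rw [pow_mul]
      have htau' : tau (M ^ 2) τ₀ n = τ₀ / ((M:ℝ) ^ 2) ^ n := by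
        unfold tau; push_cast; rfl
      have htp := tau_pos hN hτ n
      rw [← htau] at h3
      set t := t₀ + j * tau (M ^ 2) τ₀ n with ht
      refine ⟨⟨t, b t⟩, ⟨t, ⟨?_, ?_⟩, rfl⟩, ?_⟩
      · rw [ht]; apply le_add_of_nonneg_right; positivity
      · rw [ht]
        have e1 : ((M ^ 2 : ℕ) : ℝ) ^ n * tau (M ^ 2) τ₀ n = τ₀ := by
          unfold tau; push_cast; field_simp
        have e2 : (j : ℝ) ≤ ((M ^ 2 : ℕ) : ℝ) ^ n := by exact_mod_cast hj'.le
        have e3 := mul_le_mul_of_nonneg_right e2 htp.le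
        rw [e1] at e3
        linarith
      · rw [dist_eq_norm]
        refine (Complex.norm_le_abs_re_add_abs_im _).trans ?_
        simp only [he]
        apply add_le_add
        · rw [← htau']
          have e1 : (z - (⟨t, b t⟩ : ℂ)).re = (z - z₀).re - j * tau (M ^ 2) τ₀ n := by
            simp only [Complex.sub_re, hz₀, ht]; ring
          rw [e1, abs_of_nonneg (by linarith [hx.1])]
          linarith [hx.2]
        · have e1 : (z - (⟨t, b t⟩ : ℂ)).im
              = ((z - z₀).im - k * (r₀ / (M:ℝ) ^ n)) - (b t - b t₀ - k * (r₀ / (M:ℝ) ^ n)) := by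
            simp only [Complex.sub_im, hz₀]; ring
          rw [e1]
          refine (abs_sub _ _).trans ?_
          rw [add_div]
          apply add_le_add _ h3
          have hrn : 0 < r₀ / (M:ℝ) ^ n := by positivity
          have e2 : (z - z₀).im - k * (r₀ / (M:ℝ) ^ n)
              = (r₀ / (M:ℝ) ^ n) * (kap M r₀ n * (z - z₀).im - k) := by
            unfold kap; field_simp
          rw [e2, abs_mul, abs_of_pos hrn]
          nlinarith
    have hev : ∀ᶠ n in atTop, DifferentiableOn ℂ (cn c r₀ τ₀ n) (Metric.ball (z₁ - z₀) (δ / 2)) := by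
      filter_upwards [helim.eventually_lt_const (half_pos hδ)] with n hn w hw
      apply DifferentiableAt.differentiableWithinAt
      apply cn_holo c hM2 hr hτ n
      by_contra hs
      have hs' : sden c r₀ τ₀ n ((w + z₀) - z₀) ≠ 0 := by rwa [add_sub_cancel_right]
      obtain ⟨p, hp, hdp⟩ := hclose n (w + z₀) hs'
      have h1 : dist p z₁ < δ := by
        have h2 : dist (w + z₀) z₁ < δ / 2 := by
          have := Metric.mem_ball.1 hw
          rw [dist_eq_norm] at this ⊢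
          have e1 : w + z₀ - z₁ = w - (z₁ - z₀) := by ring
          rwa [e1]
        have h3 := dist_triangle p (w + z₀) z₁
        rw [dist_comm p (w + z₀)] at h3
        linarith
      exact hball (Metric.mem_ball.2 h1) hp
    have hFd : DifferentiableOn ℂ F (Metric.ball (z₁ - z₀) (δ / 2)) := by
      apply TendstoLocallyUniformlyOn.differentiableOn (F := cn c r₀ τ₀) (φ := atTop) _ hev Metric.isOpen_ball
      exact hFu.tendstoUniformlyOn.tendstoLocallyUniformlyOn
    have hFat : DifferentiableAt ℂ F (z₁ - z₀) :=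
      (hFd _ (Metric.mem_ball_self (half_pos hδ))).differentiableAt
        (Metric.isOpen_ball.mem_nhds (Metric.mem_ball_self (half_pos hδ)))
    apply DifferentiableAt.differentiableWithinAt
    simp only [hf]
    apply differentiableAt_id.add
    apply DifferentiableAt.const_mul
    exact hFat.comp z₁ (differentiableAt_id.sub_const z₀)
  · -- not entire
    rw [hg]
    intro hd
    have hFe : ∀ w, F w = (ε : ℂ)⁻¹ * (f (w + z₀) - (w + z₀)) := by
      intro w
      simp only [hf]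
      rw [add_sub_cancel_right, add_sub_cancel_left, ← mul_assoc, inv_mul_cancel₀, one_mul]
      exact_mod_cast hεp.ne'
    have hFd : Differentiable ℂ F := by
      have : F = fun w => (ε : ℂ)⁻¹ * (f (w + z₀) - (w + z₀)) := funext hFe
      rw [this]
      intro w
      apply DifferentiableAt.const_mul
      apply DifferentiableAt.sub
      · exact (hd (w + z₀)).comp w (differentiableAt_id.add_const z₀)
      · exact differentiableAt_id.add_const z₀
    have hbd : Bornology.IsBounded (range F) := by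
      rw [isBounded_iff_forall_norm_le]
      refine ⟨B, ?_⟩
      rintro _ ⟨w, rfl⟩
      exact hB w
    have heq := hFd.apply_eq_apply_of_bounded hbd ⟨τ₀ + 1, 0⟩ ⟨-1, 0⟩
    obtain ⟨m, hm, hmr⟩ := cn_right c hM2 hr hτ
    have h1 : m ≤ (F ⟨τ₀ + 1, 0⟩).re := by
      have := (Complex.continuous_re.tendsto _).comp (hFlim ⟨τ₀ + 1, 0⟩)
      exact ge_of_tendsto' this hmr
    have h2 : (F ⟨-1, 0⟩).re ≤ 0 := by
      have := (Complex.continuous_re.tendsto _).comp (hFlim ⟨-1, 0⟩)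
      exact le_of_tendsto' this (cn_left c hM2 hr hτ)
    rw [heq] at h1
    linarith

end Pool.Agent.BG
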