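import Mathlib
import Pool.Agent.Lib.MP_f76209_pr.PartA

set_option autoImplicit false
open MeasureTheory Set Filter Topology Complex

namespace Pool.Agent.BG

/-- Part A (analysis), with the estimates of the construction kept: the homeomorphism is as close
to the identity as wanted and its inverse is Lipschitz with constant `1 + δ`. -/
theorem homeo_of_goodTree_strong (b : ℝ → ℝ) (hb : Continuous b) (t₀ τ₀ r₀ : ℝ) (hτ : 0 < τ₀)
    (hr : 0 < r₀) (M : ℕ) (hM : 4 ≤ M) (h : H85.GoodTree b t₀ τ₀ r₀ M)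
    (η : ℝ) (hη : 0 < η) :
    ∃ f : ℂ ≃ₜ ℂ,
      DifferentiableOn ℂ (f : ℂ → ℂ)
        ({z : ℂ | ∃ t ∈ Set.Icc t₀ (t₀ + τ₀), z = Complex.mk t (b t)}ᶜ) ∧
      ¬ Differentiable ℂ (f : ℂ → ℂ) ∧
      (∀ z, ‖f z - z‖ ≤ η) ∧ ∀ z w, ‖z - w‖ ≤ (1 + η) * ‖f z - f w‖ := by
  obtain ⟨G, hG0, hG1, hG2⟩ := h
  obtain ⟨c, hc⟩ := exists_choice hM G
  have hM2 : 2 ≤ M := by omega
  have hN : 0 < M ^ 2 := by positivity
  have hMr : (4:ℝ) ≤ M := by exact_mod_cast hM
  have hM0 : (0:ℝ) < M := by linarith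
  obtain ⟨F, hFc, ⟨B, hB⟩, hFu⟩ := exists_lim c hM hr hτ
  obtain ⟨D, hD0, hD⟩ := Dn_bounded c hM2 hr hτ
  have hFlim : ∀ z, Tendsto (fun n => cn c r₀ τ₀ n z) atTop (𝓝 (F z)) := fun z => hFu.tendsto_at z
  have hFm : ∀ z w, -D * ‖z - w‖ ^ 2 ≤ ((F z - F w) * (starRingEnd ℂ) (z - w)).re := by
    intro z w
    have h1 : Tendsto (fun n => ((cn c r₀ τ₀ n z - cn c r₀ τ₀ n w) * (starRingEnd ℂ) (z - w)).re)
        atTop (𝓝 (((F z - F w) * (starRingEnd ℂ) (z - w)).re)) := by
      apply (Complex.continuous_re.tendsto _).comp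
      exact ((hFlim z).sub (hFlim w)).mul_const _
    exact ge_of_tendsto' h1 fun n => cn_mono c hM2 hr hτ hD n z w
  set z₀ : ℂ := ⟨t₀, b t₀⟩ with hz₀
  have hB0 : 0 ≤ B := (norm_nonneg _).trans (hB 0)
  set κ : ℝ := min (1 / 2) (η / (1 + η)) with hκ
  have hκ0 : 0 < κ := lt_min (by norm_num) (by positivity)
  have hκ1 : κ ≤ 1 / 2 := min_le_left _ _
  have hκ2 : κ ≤ η / (1 + η) := min_le_right _ _
  set ε : ℝ := min (κ / (D + 1)) (η / (B + 1)) with hε
  have hεp : 0 < ε := lt_min (by positivity) (by positivity)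
  have hεD' : ε * D ≤ κ := by
    have h1 : ε ≤ κ / (D + 1) := min_le_left _ _
    have h2 : ε * (D + 1) ≤ κ := by
      rwa [le_div_iff₀ (by positivity)] at h1
    nlinarith
  have hεD : ε * D ≤ 1 / 2 := hεD'.trans hκ1
  have hεB : ε * B ≤ η := by
    have h1 : ε ≤ η / (B + 1) := min_le_right _ _
    have h2 : ε * (B + 1) ≤ η := by
      rwa [le_div_iff₀ (by positivity)] at h1
    nlinarith
  set f : ℂ → ℂ := fun z => z + ε * F (z - z₀) with hf
  have hfc : Continuous f := by
    simp only [hf]; fun_prop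
  have hfB : ∀ z, ‖f z - z‖ ≤ ε * B := by
    intro z
    simp only [hf]
    rw [add_sub_cancel_left, norm_mul, Complex.norm_real, Real.norm_eq_abs, abs_of_pos hεp]
    gcongr
    exact hB _
  have hmonoF : ∀ z w, (1 - ε * D) * ‖z - w‖ ^ 2 ≤ ((f z - f w) * (starRingEnd ℂ) (z - w)).re := by
    intro z w
    have h1 := hFm (z - z₀) (w - z₀)
    have e1 : z - z₀ - (w - z₀) = z - w := by ring
    rw [e1] at h1
    have e2 : (f z - f w) * (starRingEnd ℂ) (z - w)
        = (z - w) * (starRingEnd ℂ) (z - w) + (ε : ℂ) * ((F (z - z₀) - F (w - z₀)) * (starRingEnd ℂ) (z - w)) := by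
      simp only [hf]; ring
    rw [e2, Complex.add_re, Complex.mul_conj, Complex.re_ofReal_mul, Complex.ofReal_re,
      Complex.normSq_eq_norm_sq]
    have h2 := mul_le_mul_of_nonneg_left h1 hεp.le
    nlinarith [sq_nonneg ‖z - w‖]
  have hexpF : ∀ z w, ‖z - w‖ ≤ (1 + η) * ‖f z - f w‖ := by
    intro z w
    rcases eq_or_ne z w with h | h
    · rw [h]; simp
    · have h0 : 0 < ‖z - w‖ := norm_pos_iff.2 (sub_ne_zero.2 h)
      have h1 := (hmonoF z w).trans ((Complex.re_le_norm _))
      rw [norm_mul, RCLike.norm_conj] at h1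
      have h2 : (1 - ε * D) * ‖z - w‖ ≤ ‖f z - f w‖ := by
        by_contra hc
        push Not at hc
        have := mul_lt_mul_of_pos_right hc h0
        nlinarith
      have h3 : 1 ≤ (1 + η) * (1 - ε * D) := by
        have h4 : ε * D ≤ η / (1 + η) := hεD'.trans hκ2
        have h5 : (ε * D) * (1 + η) ≤ η := by
          rwa [le_div_iff₀ (by positivity)] at h4
        nlinarith
      calc ‖z - w‖ = 1 * ‖z - w‖ := (one_mul _).symm
        _ ≤ ((1 + η) * (1 - ε * D)) * ‖z - w‖ := mul_le_mul_of_nonneg_right h3 h0.le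
        _ = (1 + η) * ((1 - ε * D) * ‖z - w‖) := by ring
        _ ≤ (1 + η) * ‖f z - f w‖ := mul_le_mul_of_nonneg_left h2 (by positivity)
  obtain ⟨g, hg⟩ := homeo_of_monotone f hfc (ε * B) hfB (by
      intro z w
      refine le_trans ?_ (hmonoF z w)
      apply mul_le_mul_of_nonneg_right _ (sq_nonneg _)
      linarith)
  refine ⟨g, ?_, ?_, fun z => by rw [hg]; exact (hfB z).trans hεB,
    fun z w => by rw [hg]; exact hexpF z w⟩
  · -- holomorphic off the graph
    rw [hg]
    set Γ : Set ℂ := {z : ℂ | ∃ t ∈ Set.Icc t₀ (t₀ + τ₀), z = Complex.mk t (b t)} with hΓ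
    have hΓc : IsClosed Γ := by
      have : Γ = (fun t : ℝ => (⟨t, b t⟩ : ℂ)) '' Icc t₀ (t₀ + τ₀) := by
        ext z
        simp only [hΓ, mem_ofPred_eq, mem_image]
        constructor
        · rintro ⟨t, ht, rfl⟩; exact ⟨t, ht, rfl⟩
        · rintro ⟨t, ht, rfl⟩; exact ⟨t, ht, rfl⟩
      rw [this]
      apply IsCompact.isClosed
      apply isCompact_Icc.image
      have : (fun t : ℝ => (⟨t, b t⟩ : ℂ)) = fun t : ℝ => (t : ℂ) + b t * I := by
        ext t; apply Complex.ext <;> simp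
      rw [this]; fun_prop
    intro z₁ hz₁
    obtain ⟨δ, hδ, hball⟩ := Metric.isOpen_iff.1 hΓc.isOpen_compl z₁ hz₁
    -- the supports of the densities approach the graph
    set e : ℕ → ℝ := fun n => τ₀ / ((M:ℝ) ^ 2) ^ n + (r₀ + Real.sqrt τ₀) / (M:ℝ) ^ n with he
    have helim : Tendsto e atTop (𝓝 0) := by
      have h1 : Tendsto (fun n : ℕ => ((M:ℝ) ^ 2) ^ n) atTop atTop :=
        tendsto_pow_atTop_atTop_of_one_lt (by nlinarith)
      have h2 : Tendsto (fun n : ℕ => (M:ℝ) ^ n) atTop atTop :=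
        tendsto_pow_atTop_atTop_of_one_lt (by linarith)
      have h3 := (tendsto_const_nhds (x := τ₀)).div_atTop h1
      have h4 := (tendsto_const_nhds (x := r₀ + Real.sqrt τ₀)).div_atTop h2
      simpa using h3.add h4
    have hclose : ∀ n z, sden c r₀ τ₀ n (z - z₀) ≠ 0 → ∃ p ∈ Γ, dist z p ≤ e n := by
      intro n z hs
      unfold sden at hs
      obtain ⟨j, hj, hjn⟩ := Finset.exists_ne_zero_of_sum_ne_zero hs
      have hj' := Finset.mem_range.1 hj
      have hjr : theta (M ^ 2) τ₀ n j (z - z₀).re * rho c r₀ n j (z - z₀).im ≠ 0 := by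
        intro h0; apply hjn; rw [h0]; simp
      have h1 := left_ne_zero_of_mul hjr
      have h2 := right_ne_zero_of_mul hjr
      obtain ⟨C, _, hC⟩ := Th_bound
      have hx : (z - z₀).re ∈ Icc ((j:ℝ) * tau (M ^ 2) τ₀ n) (j * tau (M ^ 2) τ₀ n + tau (M ^ 2) τ₀ n) := by
        by_contra hn
        exact h1 ((theta_isBump hN hτ hC n j).supp _ hn)
      obtain ⟨k, hGk, hka⟩ := rho_supp hM G hG0 hG2 c hc n j hj' _ h2
      have h3 := hG1 n j k hGk
      have htau : tau (M ^ 2) τ₀ n = τ₀ / (M:ℝ) ^ (2 * n) := by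
        unfold tau; push_cast; rw [pow_mul]
      have htau' : tau (M ^ 2) τ₀ n = τ₀ / ((M:ℝ) ^ 2) ^ n := by
        unfold tau; push_cast; rfl
      have htp := tau_pos hN hτ n
      rw [← htau] at h3
      set t := t₀ + j * tau (M ^ 2) τ₀ n with ht
      refine ⟨⟨t, b t⟩, ⟨t, ⟨?_, ?_⟩, rfl⟩, ?_⟩
      · rw [ht]; apply le_add_of_nonneg_right; positivity
      · rw [ht]
        have e1 : ((M ^ 2 : ℕ) : ℝ) ^ n * tau (M ^ 2) τ₀ n = τ₀ := by
          unfold tau; push_cast; field_simp
        have e2 : (j : ℝ) ≤ ((M ^ 2 : ℕ) : ℝ) ^ n := by exact_mod_cast hj'.le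
        have e3 := mul_le_mul_of_nonneg_right e2 htp.le
        rw [e1] at e3
        linarith
      · rw [dist_eq_norm]
        refine (Complex.norm_le_abs_re_add_abs_im _).trans ?_
        simp only [he]
        apply add_le_add
        · rw [← htau']
          have e1 : (z - (⟨t, b t⟩ : ℂ)).re = (z - z₀).re - j * tau (M ^ 2) τ₀ n := by
            simp only [Complex.sub_re, hz₀, ht]; ring
          rw [e1, abs_of_nonneg (by linarith [hx.1])]
          linarith [hx.2]
        · have e1 : (z - (⟨t, b t⟩ : ℂ)).im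
              = ((z - z₀).im - k * (r₀ / (M:ℝ) ^ n)) - (b t - b t₀ - k * (r₀ / (M:ℝ) ^ n)) := by
            simp only [Complex.sub_im, hz₀]; ring
          rw [e1]
          refine (abs_sub _ _).trans ?_
          rw [add_div]
          apply add_le_add _ h3
          have hrn : 0 < r₀ / (M:ℝ) ^ n := by positivity
          have e2 : (z - z₀).im - k * (r₀ / (M:ℝ) ^ n)
              = (r₀ / (M:ℝ) ^ n) * (kap M r₀ n * (z - z₀).im - k) := by
            unfold kap; field_simp
          rw [e2, abs_mul, abs_of_pos hrn]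
          nlinarith
    have hev : ∀ᶠ n in atTop, DifferentiableOn ℂ (cn c r₀ τ₀ n) (Metric.ball (z₁ - z₀) (δ / 2)) := by
      filter_upwards [helim.eventually_lt_const (half_pos hδ)] with n hn w hw
      apply DifferentiableAt.differentiableWithinAt
      apply cn_holo c hM2 hr hτ n
      by_contra hs
      have hs' : sden c r₀ τ₀ n ((w + z₀) - z₀) ≠ 0 := by rwa [add_sub_cancel_right]
      obtain ⟨p, hp, hdp⟩ := hclose n (w + z₀) hs'
      have h1 : dist p z₁ < δ := by
        have h2 : dist (w + z₀) z₁ < δ / 2 := by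
          have := Metric.mem_ball.1 hw
          rw [dist_eq_norm] at this ⊢
          have e1 : w + z₀ - z₁ = w - (z₁ - z₀) := by ring
          rwa [e1]
        have h3 := dist_triangle p (w + z₀) z₁
        rw [dist_comm p (w + z₀)] at h3
        linarith
      exact hball (Metric.mem_ball.2 h1) hp
    have hFd : DifferentiableOn ℂ F (Metric.ball (z₁ - z₀) (δ / 2)) := by
      apply TendstoLocallyUniformlyOn.differentiableOn (F := cn c r₀ τ₀) (φ := atTop) _ hev Metric.isOpen_ball
      exact hFu.tendstoUniformlyOn.tendstoLocallyUniformlyOn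
    have hFat : DifferentiableAt ℂ F (z₁ - z₀) :=
      (hFd _ (Metric.mem_ball_self (half_pos hδ))).differentiableAt
        (Metric.isOpen_ball.mem_nhds (Metric.mem_ball_self (half_pos hδ)))
    apply DifferentiableAt.differentiableWithinAt
    simp only [hf]
    apply differentiableAt_id.add
    apply DifferentiableAt.const_mul
    exact hFat.comp z₁ (differentiableAt_id.sub_const z₀)
  · -- not entire
    rw [hg]
    intro hd
    have hFe : ∀ w, F w = (ε : ℂ)⁻¹ * (f (w + z₀) - (w + z₀)) := by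
      intro w
      simp only [hf]
      rw [add_sub_cancel_right, add_sub_cancel_left, ← mul_assoc, inv_mul_cancel₀, one_mul]
      exact_mod_cast hεp.ne'
    have hFd : Differentiable ℂ F := by
      have : F = fun w => (ε : ℂ)⁻¹ * (f (w + z₀) - (w + z₀)) := funext hFe
      rw [this]
      intro w
      apply DifferentiableAt.const_mul
      apply DifferentiableAt.sub
      · exact (hd (w + z₀)).comp w (differentiableAt_id.add_const z₀)
      · exact differentiableAt_id.add_const z₀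
    have hbd : Bornology.IsBounded (range F) := by
      rw [isBounded_iff_forall_norm_le]
      refine ⟨B, ?_⟩
      rintro _ ⟨w, rfl⟩
      exact hB w
    have heq := hFd.apply_eq_apply_of_bounded hbd ⟨τ₀ + 1, 0⟩ ⟨-1, 0⟩
    obtain ⟨m, hm, hmr⟩ := cn_right c hM2 hr hτ
    have h1 : m ≤ (F ⟨τ₀ + 1, 0⟩).re := by
      have := (Complex.continuous_re.tendsto _).comp (hFlim ⟨τ₀ + 1, 0⟩)
      exact ge_of_tendsto' this hmr
    have h2 : (F ⟨-1, 0⟩).re ≤ 0 := by
      have := (Complex.continuous_re.tendsto _).comp (hFlim ⟨-1, 0⟩)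
      exact le_of_tendsto' this (cn_left c hM2 hr hτ)
    rw [heq] at h1
    linarith

end Pool.Agent.BG
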