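import Mathlib
import Pool.Agent.Lib.MP_f76209_pr.Strong

/-! Every interval at once, with the estimates of the construction. -/

set_option autoImplicit false
open MeasureTheory ProbabilityTheory Set
open scoped NNReal ENNReal

namespace Pool.Agent.BG

theorem goodTree_scale (b : ℝ → ℝ) (a c t₀ τ₀ r₀ : ℝ) (hc : 0 < c) (M : ℕ)
    (h : H85.GoodTree (fun t => (Real.sqrt c)⁻¹ * (b (a + c * t) - b a)) t₀ τ₀ r₀ M) :
    H85.GoodTree b (a + c * t₀) (c * τ₀) (Real.sqrt c * r₀) M := by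
  obtain ⟨G, h0, h1, h2⟩ := h
  refine ⟨G, h0, ?_, h2⟩
  intro n j k hG
  have h := h1 n j k hG
  have hs : 0 < Real.sqrt c := Real.sqrt_pos.2 hc
  have e1 : a + c * t₀ + j * (c * τ₀ / (M:ℝ) ^ (2 * n))
      = a + c * (t₀ + j * (τ₀ / (M:ℝ) ^ (2 * n))) := by ring
  have e2 : b (a + c * (t₀ + j * (τ₀ / (M:ℝ) ^ (2 * n)))) - b (a + c * t₀)
        - k * (Real.sqrt c * r₀ / (M:ℝ) ^ n)
      = Real.sqrt c * ((Real.sqrt c)⁻¹ * (b (a + c * (t₀ + j * (τ₀ / (M:ℝ) ^ (2 * n)))) - b a)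
          - (Real.sqrt c)⁻¹ * (b (a + c * t₀) - b a) - k * (r₀ / (M:ℝ) ^ n)) := by
    have h3 : Real.sqrt c * (Real.sqrt c)⁻¹ = 1 := mul_inv_cancel₀ hs.ne'
    linear_combination (-(b (a + c * (t₀ + j * (τ₀ / (M:ℝ) ^ (2 * n)))) - b a)
      + (b (a + c * t₀) - b a)) * h3
  rw [e1, e2, abs_mul, abs_of_pos hs, Real.sqrt_mul hc.le, mul_div_assoc]
  exact mul_le_mul_of_nonneg_left h hs.le

theorem ae_goodTree : ∃ M : ℕ, 4 ≤ M ∧
    ∀ (Ω : Type) [MeasurableSpace Ω] (P : Measure Ω) [IsProbabilityMeasure P]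
      (B : ℝ → Ω → ℝ),
      (∀ ω, Continuous (fun t => B t ω)) →
      (∀ s t : ℝ, 0 ≤ s → s ≤ t →
        P.map (fun ω => B t ω - B s ω) = gaussianReal 0 (Real.toNNReal (t - s))) →
      (∀ (n : ℕ) (τ : ℕ → ℝ), Monotone τ → 0 ≤ τ 0 →
        iIndepFun (fun (i : Fin n) (ω : Ω) => B (τ (i.val + 1)) ω - B (τ i.val) ω) P) →
      ∀ a c : ℝ, 0 ≤ a → 0 < c → ∀ᵐ ω ∂P, ∃ t₀ τ₀ r₀ : ℝ, a ≤ t₀ ∧ 0 < τ₀ ∧ t₀ + τ₀ ≤ a + c ∧
        0 < r₀ ∧ H85.GoodTree (fun t => B t ω) t₀ τ₀ r₀ M := by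
  obtain ⟨M, lam, hM, hlam, hmain⟩ := H85.exists_goodTree
  refine ⟨M, hM, ?_⟩
  intro Ω _ P _ B hcont hlaw hind a c ha hc
  have hs : 0 < Real.sqrt c := Real.sqrt_pos.2 hc
  have hae : ∀ s t : ℝ, 0 ≤ s → s ≤ t → AEMeasurable (fun ω => B t ω - B s ω) P := by
    intro s t h0 hst
    by_contra h
    have h1 := Measure.map_of_not_aemeasurable h
    rw [hlaw s t h0 hst] at h1
    exact IsProbabilityMeasure.ne_zero (gaussianReal 0 (Real.toNNReal (t - s))) h1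
  have key := hmain Ω P (fun t ω => (Real.sqrt c)⁻¹ * (B (a + c * t) ω - B a ω))
    (by intro ω; simp)
    (by
      intro ω
      have h1 : Continuous (fun t : ℝ => B (a + c * t) ω) :=
        (hcont ω).comp (by fun_prop)
      exact (h1.sub continuous_const).const_mul _)
    (by
      intro s t h0 hst
      have e1 : (fun ω => (Real.sqrt c)⁻¹ * (B (a + c * t) ω - B a ω)
            - (Real.sqrt c)⁻¹ * (B (a + c * s) ω - B a ω))
          = (fun x : ℝ => (Real.sqrt c)⁻¹ * x) ∘ (fun ω => B (a + c * t) ω - B (a + c * s) ω) := by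
        funext ω; simp only [Function.comp]; ring
      have h1 : 0 ≤ a + c * s := by positivity
      have h2 : a + c * s ≤ a + c * t := by
        have := mul_le_mul_of_nonneg_left hst hc.le
        linarith
      rw [e1, ← AEMeasurable.map_map_of_aemeasurable (by fun_prop) (hae _ _ h1 h2),
        hlaw _ _ h1 h2, gaussianReal_map_const_mul]
      congr 1
      · simp
      · apply NNReal.coe_injective
        have e3 : a + c * t - (a + c * s) = c * (t - s) := by ring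
        push_cast
        rw [e3, Real.coe_toNNReal _ (mul_nonneg hc.le (by linarith)),
          Real.coe_toNNReal _ (by linarith : (0:ℝ) ≤ t - s), inv_pow, Real.sq_sqrt hc.le]
        field_simp)
    (by
      intro n τ hτ h0
      have h1 := hind n (fun i => a + c * τ i) (fun i j hij => by
        have := mul_le_mul_of_nonneg_left (hτ hij) hc.le
        show a + c * τ i ≤ a + c * τ j
        linarith) (by positivity)
      have h2 := h1.comp (fun _ (x : ℝ) => (Real.sqrt c)⁻¹ * x) (fun _ => by fun_prop)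
      convert h2 using 2 with i
      funext ω
      simp only [Function.comp]
      ring)
  filter_upwards [key] with ω hω
  obtain ⟨q, Q, hqQ, htree⟩ := hω
  have hQ : (0 : ℝ) < Q := by exact_mod_cast (by omega : 0 < Q)
  refine ⟨a + c * ((q : ℝ) / Q), c * (1 / (Q : ℝ)), Real.sqrt c * (lam * Real.sqrt (1 / (Q : ℝ))),
    ?_, by positivity, ?_, mul_pos hs (mul_pos hlam (Real.sqrt_pos.2 (by positivity))),
    goodTree_scale _ a c _ _ _ hc M htree⟩
  · have : 0 ≤ c * ((q : ℝ) / Q) := by positivity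
    linarith
  · have h1 : (q : ℝ) / Q + 1 / Q ≤ 1 := by
      rw [← add_div, div_le_one hQ]
      exact_mod_cast hqQ
    have h2 := mul_le_mul_of_nonneg_left h1 hc.le
    have h3 : a + c * ((q : ℝ) / Q) + c * (1 / (Q : ℝ)) = a + c * ((q : ℝ) / Q + 1 / Q) := by ring
    rw [h3]
    linarith

theorem ae_every (Ω : Type) [MeasurableSpace Ω] (P : Measure Ω) [IsProbabilityMeasure P]
    (B : ℝ → Ω → ℝ)
    (hcont : ∀ ω, Continuous (fun t => B t ω))
    (hlaw : ∀ s t : ℝ, 0 ≤ s → s ≤ t →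
        P.map (fun ω => B t ω - B s ω) = gaussianReal 0 (Real.toNNReal (t - s)))
    (hind : ∀ (n : ℕ) (τ : ℕ → ℝ), Monotone τ → 0 ≤ τ 0 →
        iIndepFun (fun (i : Fin n) (ω : Ω) => B (τ (i.val + 1)) ω - B (τ i.val) ω) P) :
    ∀ᵐ ω ∂P, ∀ a b : ℝ, 0 ≤ a → a < b → ∀ η : ℝ, 0 < η → ∃ f : ℂ ≃ₜ ℂ,
      DifferentiableOn ℂ (f : ℂ → ℂ)
        ({z : ℂ | ∃ t ∈ Set.Icc a b, z = Complex.mk t (B t ω)}ᶜ) ∧
      ¬ Differentiable ℂ (f : ℂ → ℂ) ∧
      (∀ z, ‖f z - z‖ ≤ η) ∧ ∀ z w, ‖z - w‖ ≤ (1 + η) * ‖f z - f w‖ := by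
  obtain ⟨M, hM, hmain⟩ := ae_goodTree
  have key : ∀ᵐ ω ∂P, ∀ q : ℚ × ℚ, 0 ≤ (q.1 : ℝ) → (q.1 : ℝ) < (q.2 : ℝ) →
      ∃ t₀ τ₀ r₀ : ℝ, (q.1 : ℝ) ≤ t₀ ∧ 0 < τ₀ ∧ t₀ + τ₀ ≤ (q.2 : ℝ) ∧
        0 < r₀ ∧ H85.GoodTree (fun t => B t ω) t₀ τ₀ r₀ M := by
    rw [ae_all_iff]
    intro q
    by_cases h0 : 0 ≤ (q.1 : ℝ)
    · by_cases h1 : (q.1 : ℝ) < (q.2 : ℝ)
      · filter_upwards [hmain Ω P B hcont hlaw hind (q.1 : ℝ) ((q.2 : ℝ) - q.1) h0
          (sub_pos.2 h1)] with ω hω _ _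
        obtain ⟨t₀, τ₀, r₀, h2, h3, h4, h5, h6⟩ := hω
        exact ⟨t₀, τ₀, r₀, h2, h3, by linarith, h5, h6⟩
      · exact Filter.Eventually.of_forall fun ω _ h => absurd h h1
    · exact Filter.Eventually.of_forall fun ω h => absurd h h0
  filter_upwards [key] with ω hω
  intro a b ha hab η hη
  obtain ⟨q₁, h1, h2⟩ := exists_rat_btwn hab
  obtain ⟨q₂, h3, h4⟩ := exists_rat_btwn h2
  obtain ⟨t₀, τ₀, r₀, g1, g2, g3, g4, g5⟩ := hω (q₁, q₂) (ha.trans h1.le) h3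
  obtain ⟨f, f1, f2, f3, f4⟩ := homeo_of_goodTree_strong (fun t => B t ω) (hcont ω) t₀ τ₀ r₀ g2 g4
    M hM g5 η hη
  refine ⟨f, f1.mono ?_, f2, f3, f4⟩
  apply Set.compl_subset_compl.2
  rintro z ⟨t, ht, rfl⟩
  exact ⟨t, ⟨h1.le.trans (g1.trans ht.1), (ht.2.trans g3).trans h4.le⟩, rfl⟩

/-- A function which does not contract (up to a constant) has no zero derivative. -/
theorem deriv_ne_zero_of_expand (f : ℂ → ℂ) (C : ℝ)
    (h : ∀ z w, ‖z - w‖ ≤ C * ‖f z - f w‖) (z : ℂ) (hd : DifferentiableAt ℂ f z) :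
    deriv f z ≠ 0 := by
  intro h0
  have hC : 0 < C := by
    by_contra hC
    push Not at hC
    have h1 := h (z + 1) z
    rw [add_sub_cancel_left, norm_one] at h1
    have h2 : C * ‖f (z + 1) - f z‖ ≤ 0 := mul_nonpos_of_nonpos_of_nonneg hC (norm_nonneg _)
    linarith
  have hd' := hd.hasDerivAt
  rw [h0] at hd'
  have h1 := hasDerivAt_iff_isLittleO.1 hd'
  have h2 := h1.bound (show (0:ℝ) < 1 / (2 * C) by positivity)
  rw [Metric.eventually_nhds_iff] at h2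
  obtain ⟨ε, hε, h3⟩ := h2
  have h4 := @h3 (z + ((ε / 2 : ℝ) : ℂ)) (by
    rw [dist_eq_norm, add_sub_cancel_left, Complex.norm_real, Real.norm_eq_abs,
      abs_of_pos (half_pos hε)]
    linarith)
  simp only [smul_zero, sub_zero] at h4
  have h5 := h (z + ((ε / 2 : ℝ) : ℂ)) z
  rw [add_sub_cancel_left, Complex.norm_real, Real.norm_eq_abs, abs_of_pos (half_pos hε)] at h4 h5
  have h6 := mul_le_mul_of_nonneg_left h4 hC.le
  have h7 : C * (1 / (2 * C) * (ε / 2)) = ε / 4 := by field_simp; ring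
  linarith

end Pool.Agent.BG
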